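import Pool.Agent.RCRSHalf.Decoup
import Pool.Agent.RCRSHalf.Dual

/-! Lower bound for the probability that one end point is free when the other end point is
removed (MP_73ccd0_lc, exact 1/2). -/

namespace Pool.Agent.RCRSHalf

open Set Finset Matrix

set_option linter.unusedSectionVars false

variable {V : Type*} [Fintype V] [DecidableEq V]

section law

variable {h : ℝ → V → V → ℝ} {U : Finset V} {T : ℝ} {μ : ℝ → Finset V → ℝ}

theorem IsLaw.pr_nonneg (hμ : IsLaw h U T μ) (W : Finset V) {t : ℝ} (ht : t ∈ Icc 0 T) :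
    0 ≤ pr (μ t) W :=
  Finset.sum_nonneg fun F _ => mul_nonneg (hμ.nonneg F t ht) (by split_ifs <;> norm_num)

theorem IsLaw.pr_le_one (hμ : IsLaw h U T μ) (W : Finset V) {t : ℝ} (ht : t ∈ Icc 0 T) :
    pr (μ t) W ≤ 1 := by
  rw [← hμ.total t ht]
  refine Finset.sum_le_sum fun F _ => ?_
  have := hμ.nonneg F t ht
  split_ifs <;> simp [this]

theorem IsLaw.pr_start (hμ : IsLaw h U T μ) (W : Finset V) :
    pr (μ 0) W = if W ⊆ U then 1 else 0 := by
  unfold pr
  rw [hμ.start, Finset.sum_eq_single U]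
  · simp [pt]
  · intro F _ hF
    simp [pt, hF]
  · simp

theorem IsLaw.pr_zero (hμ : IsLaw h U T μ) (h0 : ∀ t a b, 0 ≤ h t a b) {W : Finset V}
    (hW : ¬ W ⊆ U) {t : ℝ} (ht : t ∈ Icc 0 T) : pr (μ t) W = 0 := by
  have h1 := nonneg_of_forward (U := fun t => - pr (μ t) W) (a := 0) (s := T)
    (fun r hr => (hμ.deriv_pr W hr).neg) (by rw [hμ.pr_start, if_neg hW]; simp)
    (fun r hr _ => by
      rw [neg_neg]
      refine mul_nonneg (by norm_num) (Finset.sum_nonneg fun a _ => Finset.sum_nonneg fun b _ => ?_)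
      split_ifs
      · exact mul_nonneg (h0 _ _ _) (hμ.pr_nonneg _ hr)
      · exact le_rfl) t ht
  have h2 := hμ.pr_nonneg W ht
  linarith

/-- flux identity for a single vertex -/
theorem IsLaw.deriv_single (hμ : IsLaw h U T μ) (hs : ∀ t a b, h t a b = h t b a)
    (hd : ∀ t a, h t a a = 0) (u : V) {t : ℝ} (ht : t ∈ Icc 0 T) :
    HasDerivAt (fun t => pr (μ t) {u}) (-∑ z, h t u z * pr (μ t) {u, z}) t := by
  refine (hμ.deriv_pr {u} ht).congr_deriv ?_
  congr 1
  have key : ∀ a b, (if a ∈ ({u} : Finset V) ∨ b ∈ ({u} : Finset V) then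
        h t a b * pr (μ t) (insert a (insert b {u})) else 0)
      = (if a = u then h t u b * pr (μ t) {u, b} else 0)
        + (if b = u then h t u a * pr (μ t) {u, a} else 0) := by
    intro a b
    simp only [Finset.mem_singleton]
    by_cases ha : a = u
    · subst ha
      have e : insert a (insert b {a}) = ({a, b} : Finset V) := by
        ext c; simp only [Finset.mem_insert, Finset.mem_singleton]; tauto
      by_cases hb : b = a
      · subst hb; simp [hd]
      · simp [hb, e]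
    · by_cases hb : b = u
      · subst hb
        have e : insert a (insert b {b}) = ({b, a} : Finset V) := by
          ext c; simp only [Finset.mem_insert, Finset.mem_singleton]; tauto
        rw [if_pos (Or.inr rfl), if_neg ha, if_pos rfl, e, hs t a b, zero_add]
      · simp [ha, hb]
  simp_rw [key, Finset.sum_add_distrib]
  have e1 : ∑ a : V, ∑ b : V, (if a = u then h t u b * pr (μ t) {u, b} else 0)
      = ∑ z, h t u z * pr (μ t) {u, z} := by
    rw [Finset.sum_comm]
    simp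
  have e2 : ∑ a : V, ∑ b : V, (if b = u then h t u a * pr (μ t) {u, a} else 0)
      = ∑ z, h t u z * pr (μ t) {u, z} := by
    simp
  rw [e1, e2]
  ring

end law

variable {p : Prof} {x : V → V → ℝ} {h : ℝ → V → V → ℝ} {Hc : V → V → ℝ → ℝ}

/-- the walk coefficient -/
noncomputable def cz (p : Prof) (x : V → V → ℝ) (u v z : V) : ℝ :=
  ∑ b, x v b * ((rm x ((V0 u v).erase z) *
        Sn p.θ (rm x ((V0 u v).erase z)) (Fintype.card V + 1)) *ᵥ
          fun b => p.Fx (x u b) + p.Fx (x z b)) b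

theorem sum_row_le (hx : IsW x) {H : Finset V} {v : V} {y : V → ℝ} {c : ℝ} (hc : 0 ≤ c)
    (hy : ∀ a, y a ≤ c) : ∑ b ∈ H, x v b * y b ≤ c := by
  calc ∑ b ∈ H, x v b * y b ≤ ∑ b ∈ H, x v b * c :=
        Finset.sum_le_sum fun b _ => mul_le_mul_of_nonneg_left (hy b) (hx.nonneg _ _)
    _ = (∑ b ∈ H, x v b) * c := by rw [Finset.sum_mul]
    _ ≤ 1 * c := by
        refine mul_le_mul_of_nonneg_right ?_ hc
        exact (Finset.sum_le_sum_of_subset_of_nonneg (Finset.subset_univ _)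
          fun z _ _ => hx.nonneg _ _).trans (hx.row v)
    _ = c := one_mul c

theorem exists_back_pair (hh : HazP p x h Hc) (W : Finset V) {s : ℝ}
    (hs : s ∈ Icc (0 : ℝ) (1 / 2)) :
    ∃ R : Finset V → ℝ → ℝ, IsBack h (fun t z => ∑ w ∈ W, h t w z) s R := by
  obtain ⟨C, hC⟩ := hh.bdd
  have hC0 : 0 ≤ |C| := abs_nonneg C
  have hC1 : ∀ t a b, h t a b ≤ |C| := fun t a b => (hC t a b).trans (le_abs_self C)
  refine exists_back (C := max |C| (W.card * |C|)) hh.cont
    (fun t a b => (hC1 t a b).trans (le_max_left _ _)) hh.nonneg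
    (fun a => continuous_finsetSum _ fun w _ => hh.cont w a) (fun t a => ?_)
    (fun t a => Finset.sum_nonneg fun w _ => hh.nonneg _ _ _)
    ⟨hs.1, lt_of_le_of_lt hs.2 (by norm_num)⟩
  refine le_trans ?_ (le_max_right _ _)
  refine (Finset.sum_le_card_nsmul _ _ _ fun w _ => hC1 t w a).trans (le_of_eq ?_)
  simp

/-- ratio of the probabilities that `u, z` are free, with and without the vertex `v` -/
theorem pair_ratio (hh : HazP p x h Hc) (hp : p.Ok) {t : ℝ} (ht : t ∈ Icc (0 : ℝ) (1 / 2))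
    {u v z : V} (huv : x u v ≠ 0) (huz : x u z ≠ 0) (hzv : z ≠ v)
    {μf μv : ℝ → Finset V → ℝ} (hf : IsLaw h Finset.univ (1 / 2) μf)
    (hv : IsLaw h (Finset.univ.erase v) (1 / 2) μv) :
    pr (μv t) {u, z} ≤ p.G (x u v) t * (1 + p.κb * (g3 p.cb (p.M t) * cz p x u v z))
      * pr (μf t) {u, z} := by
  have hx := hh.hx
  have huv' : u ≠ v := fun e => huv (by rw [e, hx.diag])
  have huz' : u ≠ z := fun e => huz (by rw [e, hx.diag])
  have hz := hh.haz hp ht
  have hxzv : x z v = 0 := by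
    by_contra hne
    exact huv (hx.tri u z v huz hne)
  obtain ⟨S, hS⟩ := exists_back_pair hh {u, z} ht
  set H0 : Finset V := (V0 u v).erase z with hH0
  have huH : u ∉ H0 := fun hh' => not_mem_V0_left u v (Finset.mem_of_mem_erase hh')
  have hvH : v ∉ H0 := fun hh' => not_mem_V0_right u v (Finset.mem_of_mem_erase hh')
  have hzH : z ∉ H0 := Finset.notMem_erase _ _
  -- duality
  have hHi : ∀ r ∈ Icc 0 t, HasDerivAt (Hc u z)
      ((1 / 2) * ∑ a ∈ ({u, z} : Finset V), ∑ b ∈ ({u, z} : Finset V), h r a b) r := by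
    intro r hr
    refine (hh.Hd u z r ⟨hr.1, hr.2.trans ht.2⟩).congr_deriv ?_
    rw [Finset.sum_pair huz', Finset.sum_pair huz', Finset.sum_pair huz', hh.diag, hh.diag,
      hh.symm r z u]
    ring
  have d1 := duality hh.symm hf (W := {u, z}) (Finset.subset_univ _) ht hS hHi
  have d2 := duality hh.symm hv (W := {u, z}) (by
    intro a ha
    rw [Finset.mem_insert, Finset.mem_singleton] at ha
    rw [Finset.mem_erase]
    rcases ha with rfl | rfl
    · exact ⟨huv', Finset.mem_univ _⟩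
    · exact ⟨hzv, Finset.mem_univ _⟩) ht hS hHi
  have e2 : (Finset.univ.erase v) \ {u, z} = H0 := by
    ext a
    simp only [hH0, Finset.mem_sdiff, Finset.mem_erase, Finset.mem_univ, and_true,
      Finset.mem_insert, Finset.mem_singleton, mem_V0]
    tauto
  have e1 : (Finset.univ : Finset V) \ {u, z} = insert v H0 := by
    ext a
    simp only [hH0, Finset.mem_sdiff, Finset.mem_erase, Finset.mem_univ, true_and,
      Finset.mem_insert, Finset.mem_singleton, mem_V0]
    constructor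
    · intro h1
      by_cases hav : a = v
      · exact Or.inl hav
      · right; tauto
    · rintro (rfl | h1)
      · intro h2
        rcases h2 with h2 | h2
        · exact huv' h2.symm
        · exact hzv h2.symm
      · tauto
  rw [e2] at d2
  rw [e1] at d1
  -- influence bounds
  set n := Fintype.card V with hn
  set A := rm x H0 with hAdef
  have hA : MN A := rm_nonneg hx _
  have hrow : ∀ a, (A *ᵥ fun _ => 1) a ≤ 1 := rm_one_le hx _
  set F : V → ℝ := fun b => p.Fx (x u b) + p.Fx (x z b) with hFdef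
  have hF0 : ∀ b, 0 ≤ F b := fun b =>
    add_nonneg (hp.F0' _ (hx.nonneg _ _) (hx.le_one _ _)) (hp.F0' _ (hx.nonneg _ _) (hx.le_one _ _))
  have hσ := sigma_two hp hx huH hzH huz
  have hk0 : ∀ t a, 0 ≤ ∑ w ∈ ({u, z} : Finset V), h t w a := fun t a =>
    Finset.sum_nonneg fun w _ => hh.nonneg _ _ _
  have infl := influence (KK := fun a r => (Hc u a t - Hc u a r) + (Hc z a t - Hc z a r))
    (F := F) hz hp.gb hF0 hσ hk0
    (fun a _ r hr => by
      have hr' : r ∈ Icc (0 : ℝ) (1 / 2) := ⟨hr.1, hr.2.trans ht.2⟩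
      have q1 := (hh.Hd u a r hr').const_sub (Hc u a t)
      have q2 := (hh.Hd z a r hr').const_sub (Hc z a t)
      refine (q1.add q2).congr_deriv ?_
      rw [Finset.sum_pair huz']; ring)
    (fun a _ => by simp)
    (fun a _ r hr => by
      have hr' : r ∈ Icc (0 : ℝ) (1 / 2) := ⟨hr.1, hr.2.trans ht.2⟩
      by_cases hua : x u a = 0
      · rw [hh.Hzero hp hua ht, hh.Hzero hp hua hr', sub_zero, zero_add]
        have := hh.exp_le_F hp z a hr.1 hr.2 ht.2
        simp only [hFdef, hua, hp.F0, zero_add]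
        exact this
      · have hza : x z a = 0 := by
          by_contra hne
          have : x u a = 0 := hx.tri u z a huz hne
          exact hua this
        rw [hh.Hzero hp hza ht, hh.Hzero hp hza hr', sub_zero, add_zero]
        have := hh.exp_le_F hp u a hr.1 hr.2 ht.2
        simp only [hFdef, hza, hp.F0, add_zero]
        exact this)
    hS n
  -- the exponent
  set c1 : ℝ := ∑ b ∈ H0, x v b * (A *ᵥ F) b with hc1
  set c3 : ℝ := ∑ b ∈ H0, x v b * (A *ᵥ (A *ᵥ (A *ᵥ Ph p.θ A F n))) b with hc3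
  have hAF0 : ∀ b, 0 ≤ (A *ᵥ F) b := mulVec_nonneg hA hF0
  have hA3 : ∀ b, 0 ≤ (A *ᵥ (A *ᵥ (A *ᵥ Ph p.θ A F n))) b :=
    mulVec_nonneg hA (mulVec_nonneg hA (mulVec_nonneg hA (Ph_nonneg hp.gb.θ0 hA hF0 n)))
  have hc10 : 0 ≤ c1 := Finset.sum_nonneg fun b _ => mul_nonneg (hx.nonneg _ _) (hAF0 b)
  have hc30 : 0 ≤ c3 := Finset.sum_nonneg fun b _ => mul_nonneg (hx.nonneg _ _) (hA3 b)
  set Y : ℝ → ℝ := fun r => g3 p.cb (p.M t - p.M r) * c1 + g5 p.cb p.κb (p.M t - p.M r) * c3
    with hY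
  set Y' : ℝ → ℝ := fun r => -(p.μ r * (b2 p.cb (p.M t - p.M r) * c1
    + b4 p.cb p.κb (p.M t - p.M r) * c3)) with hY'
  have hYd : ∀ r ∈ Icc 0 t, HasDerivAt Y (Y' r) r := by
    intro r hr
    have d0 : HasDerivAt (fun r => p.M t - p.M r) (-p.μ r) r := by
      simpa using (hz.Md r hr).const_sub (p.M t)
    have q1 := ((g3_deriv p.cb (p.M t - p.M r)).comp r d0).mul_const c1
    have q2 := ((g5_deriv p.cb p.κb (p.M t - p.M r)).comp r d0).mul_const c3
    refine (q1.add q2).congr_deriv ?_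
    simp only [hY']; ring
  have hY0 : ∀ r ∈ Icc 0 t, 0 ≤ Y r := by
    intro r hr
    have hm := hz.M1 r hr
    exact add_nonneg (mul_nonneg (g3_nonneg hp.gb.c0 hm.1) hc10)
      (mul_nonneg (g5_nonneg hp.gb.c0 hp.gb.κ0 hm.1) hc30)
  have hHc0 : ∀ r ∈ Icc 0 t, 0 ≤ Hc u v t - Hc u v r := by
    intro r hr
    exact nonneg_of_backward (U := fun r => Hc u v t - Hc u v r) (U' := fun r => -h r u v)
      (a := 0) (s := t) (fun r hr => by
        simpa using (hh.Hd u v r ⟨hr.1, hr.2.trans ht.2⟩).const_sub (Hc u v t))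
      (by simp) (fun r _ _ => by linarith [hh.nonneg r u v]) r hr
  have step := stepP (k := fun t a => ∑ w ∈ ({u, z} : Finset V), h t w a) (H0 := H0) (a := v)
    (N := fun b r => Nf p.cb p.κb p.θ A F n (p.M t - p.M r) b)
    (P := fun r => Real.exp ((Hc u v t - Hc u v r) + Y r) - 1)
    (P' := fun r => Real.exp ((Hc u v t - Hc u v r) + Y r) * (-h r u v + Y' r))
    hh.symm hh.diag hh.nonneg hk0 hS hvH
    (fun b _ r hr => Nf_le_one hp.gb hA hrow hσ (hz.M1 r hr) n b)
    (fun G hG b hb r hr => (infl G hG (Finset.card_le_univ G) b hb r hr).2)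
    (fun r hr => by
      have q1 := (hh.Hd u v r ⟨hr.1, hr.2.trans ht.2⟩).const_sub (Hc u v t)
      exact ((q1.add (hYd r hr)).exp).sub_const 1)
    (by simp only [sub_self, zero_add]; have := Real.one_le_exp (hY0 t ⟨ht.1, le_rfl⟩); linarith)
    (fun r hr => by
      have := Real.one_le_exp (add_nonneg (hHc0 r hr) (hY0 r hr)); linarith)
    (fun r hr => by
      have hr' : r ∈ Icc (0 : ℝ) (1 / 2) := ⟨hr.1, hr.2.trans ht.2⟩
      have q1 : ∑ w ∈ ({u, z} : Finset V), h r w v = h r u v := by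
        rw [Finset.sum_pair huz', hh.zero hp hxzv hr', add_zero]
      have q2 : ∑ b ∈ H0, h r v b * Nf p.cb p.κb p.θ A F n (p.M t - p.M r) b
          ≤ p.μ r * (b2 p.cb (p.M t - p.M r) * c1 + b4 p.cb p.κb (p.M t - p.M r) * c3) := by
        have : ∀ b ∈ H0, h r v b * Nf p.cb p.κb p.θ A F n (p.M t - p.M r) b
            ≤ p.μ r * (b2 p.cb (p.M t - p.M r) * (x v b * (A *ᵥ F) b)
              + b4 p.cb p.κb (p.M t - p.M r) * (x v b * (A *ᵥ (A *ᵥ (A *ᵥ Ph p.θ A F n))) b)) := by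
          intro b _
          have q := mul_le_mul_of_nonneg_right (hz.le r hr v b)
            (Nf_nonneg hp.gb hA hF0 (hz.M1 r hr) n b)
          refine q.trans (le_of_eq ?_)
          unfold Nf; ring
        refine (Finset.sum_le_sum this).trans (le_of_eq ?_)
        rw [← Finset.mul_sum, Finset.sum_add_distrib, ← Finset.mul_sum, ← Finset.mul_sum]
      have q3 : 0 ≤ Real.exp ((Hc u v t - Hc u v r) + Y r) := (Real.exp_pos _).le
      simp only [q1]
      rw [add_sub_cancel, ← mul_neg]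
      refine mul_le_mul_of_nonneg_left ?_ q3
      simp only [hY']
      linarith)
    (fun b _ r hr => Nf_nonneg hp.gb hA hF0 (hz.M1 r hr) n b)
    H0 Finset.Subset.rfl 0 ⟨le_rfl, ht.1⟩
  simp only [add_sub_cancel, hh.H0, hp.M0, sub_zero] at step
  -- bounds for the exponential
  have hMt : p.M t ∈ Icc 0 p.m1 := by
    have := hp.Micc le_rfl ht.1 ht.2
    rwa [hp.M0, sub_zero] at this
  have hYt : Y 0 = g3 p.cb (p.M t) * c1 + g5 p.cb p.κb (p.M t) * c3 := by
    simp only [hY, hp.M0, sub_zero]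
  have hY00 : 0 ≤ Y 0 := hY0 0 ⟨le_rfl, ht.1⟩
  have hs3 : 0 ≤ 3 * p.cF := hp.gb.σ0
  have hsθ : 0 ≤ 3 * p.cF / (1 - p.θ) := div_nonneg hs3 (by linarith [hp.gb.θ1])
  have hYle : Y 0 ≤ 3 * p.cF * g3 p.cb (p.M t) + 3 * p.cF / (1 - p.θ) * g5 p.cb p.κb (p.M t) := by
    rw [hYt]
    have b1 : c1 ≤ 3 * p.cF := sum_row_le hx hs3 hσ
    have b3 : c3 ≤ 3 * p.cF / (1 - p.θ) := sum_row_le hx hsθ
      (A_const_le hA hrow hsθ (A_const_le hA hrow hsθ (APh_le hp.gb.θ0 hp.gb.θ1 hA hrow hs3 hσ n)))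
    have := mul_le_mul_of_nonneg_left b1 (g3_nonneg hp.gb.c0 hMt.1)
    have := mul_le_mul_of_nonneg_left b3 (g5_nonneg hp.gb.c0 hp.gb.κ0 hMt.1)
    linarith
  have hexp := (hp.gb.ey (p.M t) hMt (Y 0) hY00 hYle).1
  have hYcz : Y 0 ≤ g3 p.cb (p.M t) * cz p x u v z := by
    rw [hYt]
    have q1 := mul_le_mul_of_nonneg_right (hp.gb.g5le (p.M t) hMt) hc30
    have q2 : c1 + p.θ * c3 ≤ cz p x u v z := by
      have e : ∀ b, ((A * Sn p.θ A (n + 1)) *ᵥ F) b
          = (A *ᵥ F) b + p.θ * (A *ᵥ (A *ᵥ (A *ᵥ Ph p.θ A F n))) b := by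
        intro b
        rw [← Matrix.mulVec_mulVec]
        have : Sn p.θ A (n + 1) *ᵥ F = Ph p.θ A F (n + 1) := rfl
        rw [this, Ph_succ, Matrix.mulVec_add, Matrix.mulVec_smul]
        simp [Pi.add_apply, Pi.smul_apply, smul_eq_mul]
      have e' : cz p x u v z = ∑ b, x v b * ((A * Sn p.θ A (n + 1)) *ᵥ F) b := rfl
      rw [e', hc1, hc3, Finset.mul_sum, ← Finset.sum_add_distrib]
      refine le_trans (le_of_eq ?_) (Finset.sum_le_sum_of_subset_of_nonneg
        (Finset.subset_univ H0) fun b _ _ => ?_)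
      · refine Finset.sum_congr rfl fun b _ => ?_
        rw [e]; ring
      · rw [e]
        exact mul_nonneg (hx.nonneg _ _) (add_nonneg (hAF0 b) (mul_nonneg hp.gb.θ0 (hA3 b)))
    have q3 := mul_le_mul_of_nonneg_left q2 (g3_nonneg hp.gb.c0 hMt.1)
    nlinarith
  have hGe : Real.exp (Hc u v t) ≤ p.G (x u v) t := by
    have := hh.exp_le hp u v le_rfl ht.1 ht.2
    rwa [hh.H0, sub_zero, hp.G0, div_one] at this
  have hfin : Real.exp (Hc u v t + Y 0)
      ≤ p.G (x u v) t * (1 + p.κb * (g3 p.cb (p.M t) * cz p x u v z)) := by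
    rw [Real.exp_add]
    refine mul_le_mul hGe (hexp.trans ?_) (Real.exp_pos _).le ((Real.exp_pos _).le.trans hGe)
    have := mul_le_mul_of_nonneg_left hYcz hp.gb.κ0
    linarith
  have hS0 : 0 ≤ S (insert v H0) 0 := hS.nonneg _ 0 ⟨le_rfl, ht.1⟩
  rw [d1, d2]
  have s1 := step.trans (mul_le_mul_of_nonneg_right hfin hS0)
  have s2 := mul_le_mul_of_nonneg_left s1 (Real.exp_pos (-(Hc u z t - Hc u z 0))).le
  refine s2.trans (le_of_eq ?_)
  ring

end Pool.Agent.RCRSHalf
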