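import Pool.Agent.RCRSHalf.Final

/-! The scheme selects every edge with probability exactly one half of its weight in a
triangle-free graph (MP_73ccd0_lc). -/

set_option linter.unusedSectionVars false

namespace Pool.Agent.RCRSHalf

open MeasureTheory Set Pool.Agent.RCRS

section Final2

variable {V : Type} [Fintype V] [DecidableEq V] {G : SimpleGraph V} [Fintype G.edgeSet]
  [DecidableEq G.edgeSet] {x : G.edgeSet → ℝ}
  {h : ℝ → V → V → ℝ} {Hc : V → V → ℝ → ℝ} {p : Prof}

theorem hzI_bound (hh : HazP p (xw x) h Hc) :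
    ∃ C, 0 ≤ C ∧ ∀ (f : G.edgeSet ⊕ V) t, |hzI h f t| ≤ C := by
  obtain ⟨C, hC⟩ := hh.bdd
  refine ⟨|C|, abs_nonneg C, fun f t => ?_⟩
  rcases f with e | v
  · simp only [hzI, Sum.elim_inl]
    unfold cut
    by_cases ht : t ∈ Ico (0:ℝ) 1
    · rw [Set.indicator_of_mem ht, abs_of_nonneg (hp0_nonneg hh e t)]
      unfold hp0
      have h1 : 1 / (1 + t) ^ 2 ≤ 1 := by
        rw [div_le_one (by have := ht.1; positivity)]
        nlinarith [ht.1]
      calc h (sg t) (fe e) (se e) * (1 / (1 + t) ^ 2)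
          ≤ h (sg t) (fe e) (se e) * 1 := mul_le_mul_of_nonneg_left h1 (hh.nonneg _ _ _)
        _ ≤ C := by rw [mul_one]; exact hC _ _ _
        _ ≤ |C| := le_abs_self C
    · rw [Set.indicator_of_notMem ht]; simp
  · simp [hzI]

theorem hzI_int (hh : HazP p (xw x) h Hc) (f : G.edgeSet ⊕ V) :
    IntegrableOn (hzI h f) (Ico 0 1) := by
  rcases f with e | v
  · have h2 : IntegrableOn (hp0 h e) (Ico 0 1) :=
      (hp0_cont hh e).integrableOn_Icc.mono_set Ico_subset_Icc_self
    refine h2.congr_fun (fun t ht => ?_) measurableSet_Ico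
    simp only [hzI, Sum.elim_inl]
    rw [cut_of_mem ht]
  · exact integrableOn_zero

theorem ends_nonempty (i : G.edgeSet ⊕ V) : (ends G i).Nonempty := by
  rcases i with e | v
  · exact ⟨fe e, by rw [ends_rep]; simp⟩
  · exact ⟨v, by rw [ends_inr]⟩

/-- the ring process satisfies the hierarchy -/
theorem pf_hier (hp : p.Ok) (hh : HazP p (xw x) h Hc) (hx0 : ∀ e, 0 ≤ x e)
    (hacc : ∀ e t, 0 ≤ acc x h Hc e t ∧ acc x h Hc e t ≤ 1)
    [∀ i, IsProbabilityMeasure (lwI x h Hc i)] :
    Hier (ends G) (hzI h) (pf (ends G) (lwI x h Hc) Finset.univ) := by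
  intro W s hs
  rw [pf_eq (ends G) (lwI x h Hc) (dnI x h Hc) (hzI h) (ringLawI hp hh hx0 hacc) Finset.univ W hs.2]
  congr 1
  refine Finset.sum_congr rfl fun f _ => ?_
  refine setIntegral_congr_fun measurableSet_Ico fun t ht => ?_
  have ht1 : t ∈ Ico (0:ℝ) 1 := ⟨ht.1, ht.2.trans_le hs.2⟩
  rw [pf_erase (ends G) (lwI x h Hc) (dnI x h Hc) (hzI h) (ringLawI hp hh hx0 hacc) Finset.univ
    (W ∪ ends G f) (Finset.mem_univ f) Finset.subset_union_right (ends_nonempty f)
    ⟨ht1.1, ht1.2.le⟩, dn_eq hp hh f ht1]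
  ring

/-- the law of the matching process satisfies the hierarchy -/
theorem pr_hier (hp : p.Ok) (hh : HazP p (xw x) h Hc) {μf : ℝ → Finset V → ℝ}
    (hf : IsLaw h Finset.univ (1 / 2) μf) :
    Hier (ends G) (hzI h) (fun W s => pr (μf (sg s)) W) := by
  intro W s hs
  simp only []
  rw [law_hier hh.cont hf W hs]
  congr 1
  have hprc : ∀ W : Finset V, ContinuousOn (fun t => pr (μf (sg t)) W) (Icc 0 1) := fun W t ht =>
    ((hf.deriv_pr W (sg_mem ht)).comp t (sg_deriv ht)).continuousAt.continuousWithinAt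
  have hint : ∀ (f : G.edgeSet ⊕ V) (W : Finset V),
      IntegrableOn (fun t => hzI h f t * pr (μf (sg t)) W) (Ico 0 s) := by
    intro f W
    have h1 : IntegrableOn (hzI h f) (Ico 0 s) :=
      (hzI_int hh f).mono_set (Ico_subset_Ico_right hs.2)
    refine Integrable.mul_bdd (c := 1) h1 ?_ ?_
    · exact ((hprc W).mono (Ico_subset_Icc_self.trans
        (Icc_subset_Icc_right hs.2))).aestronglyMeasurable measurableSet_Ico
    · filter_upwards [ae_restrict_mem measurableSet_Ico] with t ht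
      have ht1 : t ∈ Icc (0:ℝ) 1 := ⟨ht.1, ht.2.le.trans hs.2⟩
      rw [Real.norm_eq_abs, abs_of_nonneg (hf.pr_nonneg W (sg_mem ht1))]
      exact hf.pr_le_one W (sg_mem ht1)
  rw [← integral_finsetSum _ fun f _ => hint f _]
  refine setIntegral_congr_fun measurableSet_Ico fun t ht => ?_
  have ht1 : t ∈ Ico (0:ℝ) 1 := ⟨ht.1, ht.2.trans_le hs.2⟩
  have ht2 : t ∈ Icc (0:ℝ) 1 := ⟨ht1.1, ht1.2.le⟩
  set g : V → V → ℝ := fun a b => if a ∈ W ∨ b ∈ W then
    (h (sg t) a b * (1 / (1 + t) ^ 2)) * pr (μf (sg t)) (insert a (insert b W)) else 0 with hg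
  have hg0 : ∀ a b, ¬ G.Adj a b → g a b = 0 := by
    intro a b hab
    simp only [hg]
    rw [hh.zero hp (xw_nadj x hab) (sg_mem ht2)]
    simp
  have hgs : ∀ a b, g b a = g a b := by
    intro a b
    simp only [hg]
    rw [hh.symm (sg t) b a, Finset.insert_comm b a W]
    simp only [or_comm]
  have e1 : (1 / 2) * ∑ a, ∑ b, g a b = ∑ e : G.edgeSet, g (fe e) (se e) := by
    rw [sum_pairs (G := G) g hg0, Finset.mul_sum]
    refine Finset.sum_congr rfl fun e _ => ?_
    rw [hgs (fe e) (se e)]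
    ring
  rw [e1, Finset.sum_filter, Fintype.sum_sum_type]
  have e2 : ∑ v : V, (if ¬ Disjoint (ends G (Sum.inr v)) W then
      hzI h (Sum.inr v : G.edgeSet ⊕ V) t * pr (μf (sg t)) (W ∪ ends G (Sum.inr v)) else 0) = 0 := by
    refine Finset.sum_eq_zero fun v _ => ?_
    simp [hzI]
  rw [e2, add_zero]
  refine Finset.sum_congr rfl fun e _ => ?_
  simp only [hg]
  have hd : (¬ Disjoint (ends G (Sum.inl e)) W) ↔ (fe e ∈ W ∨ se e ∈ W) := by
    rw [Finset.not_disjoint_iff, ends_rep]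
    simp
  have hU : W ∪ ends G (Sum.inl e) = insert (fe e) (insert (se e) W) := by
    rw [ends_rep]
    ext c
    simp only [Finset.mem_union, Finset.mem_insert, Finset.mem_singleton]
    tauto
  rw [hU]
  simp only [hd]
  refine if_congr Iff.rfl ?_ rfl
  simp only [hzI, Sum.elim_inl]
  rw [cut_of_mem ht1]
  rfl

/-- the two hierarchies have the same solution -/
theorem pf_eq_pr (hp : p.Ok) (hh : HazP p (xw x) h Hc) (hx0 : ∀ e, 0 ≤ x e)
    (hacc : ∀ e t, 0 ≤ acc x h Hc e t ∧ acc x h Hc e t ≤ 1)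
    [∀ i, IsProbabilityMeasure (lwI x h Hc i)] {μf : ℝ → Finset V → ℝ}
    (hf : IsLaw h Finset.univ (1 / 2) μf) (W : Finset V) {s : ℝ} (hs : s ∈ Icc (0:ℝ) 1) :
    pf (ends G) (lwI x h Hc) Finset.univ W s = pr (μf (sg s)) W := by
  obtain ⟨C, hC0, hC⟩ := hzI_bound hh
  refine hier_unique (ends G) hC0 hC (pf_hier hp hh hx0 hacc) (pr_hier hp hh hf) ?_ ?_ ?_ W s hs
  · intro f W s hs
    exact integrableOn_mul_pf (ends G) (lwI x h Hc)
      ((hzI_int hh f).mono_set (Ico_subset_Ico_right hs.2)) _ _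
  · intro f W s hs
    have hprc : ContinuousOn (fun t => pr (μf (sg t)) W) (Icc 0 1) := fun t ht =>
      ((hf.deriv_pr W (sg_mem ht)).comp t (sg_deriv ht)).continuousAt.continuousWithinAt
    have h1 : IntegrableOn (hzI h f) (Ico 0 s) :=
      (hzI_int hh f).mono_set (Ico_subset_Ico_right hs.2)
    refine Integrable.mul_bdd (c := 1) h1 ?_ ?_
    · exact (hprc.mono (Ico_subset_Icc_self.trans
        (Icc_subset_Icc_right hs.2))).aestronglyMeasurable measurableSet_Ico
    · filter_upwards [ae_restrict_mem measurableSet_Ico] with t ht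
      have ht1 : t ∈ Icc (0:ℝ) 1 := ⟨ht.1, ht.2.le.trans hs.2⟩
      rw [Real.norm_eq_abs, abs_of_nonneg (hf.pr_nonneg W (sg_mem ht1))]
      exact hf.pr_le_one W (sg_mem ht1)
  · intro W s hs
    have h1 := pf_nonneg (ends G) (lwI x h Hc) Finset.univ W s
    have h2 := pf_le_one (ends G) (lwI x h Hc) Finset.univ W s
    have h3 := hf.pr_nonneg W (sg_mem hs)
    have h4 := hf.pr_le_one W (sg_mem hs)
    rw [abs_le]
    constructor <;> linarith

end Final2

/-- In a triangle-free graph some random order contention resolution scheme selects every edge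
`e` with probability exactly `x e / 2`. -/
theorem exact_half {V : Type} [Fintype V] [DecidableEq V] {G : SimpleGraph V} [Fintype G.edgeSet]
    [DecidableEq G.edgeSet] {x : G.edgeSet → ℝ} (hG : G.CliqueFree 3)
    (hx : IsFractionalMatching G x) :
    ∃ S : Scheme G, ∀ e : G.edgeSet, S.selProb x e = x e / 2 := by
  have hp := P0_ok
  have hc := C0_ok
  have hx0 : ∀ e, 0 ≤ x e := fun e => (hx.1 e).1
  obtain ⟨h, Hc, μf, hh, hf, hprop⟩ := exists_hazards hp hc (xw_isW hG hx)
  have hacc : ∀ e t, 0 ≤ acc x h Hc e t ∧ acc x h Hc e t ≤ 1 :=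
    fun e t => acc_le_one hp hh hx0 hprop e t
  haveI hprob : ∀ i, IsProbabilityMeasure (lwI x h Hc i) := by
    intro i
    rcases i with e | v
    · exact mixture_prob (hx.1 e).1 (hx.1 e).2 (acc_measurable hp hh e)
    · show IsProbabilityMeasure (Measure.dirac (2:ℝ))
      infer_instance
  haveI : ∀ i, SigmaFinite (laws (acc x h Hc) x (fun _ : V => Measure.dirac (2:ℝ)) i) := fun i =>
    (inferInstance : SigmaFinite (lwI x h Hc i))
  refine ⟨scheme (acc x h Hc) (acc_measurable hp hh) (fun _ => Measure.dirac 2), fun e => ?_⟩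
  rw [scheme_selProb (acc_measurable hp hh) x hx.1 (fun _ => Measure.dirac 2) e]
  have e1 := prob_sel (ends G) (lwI x h Hc) (dnI x h Hc) (hzI h) (ringLawI hp hh hx0 hacc)
    Finset.univ (Sum.inl e) (Finset.mem_univ _) le_rfl
  have e2 : (Measure.pi (laws (acc x h Hc) x fun _ : V => Measure.dirac (2:ℝ))).real
      {ρ | sel (ends G) Finset.univ ρ (Sum.inl e) ∧ ρ (Sum.inl e) < 1}
      = (Measure.pi (lwI x h Hc)).real
      {ρ | sel (ends G) Finset.univ ρ (Sum.inl e) ∧ ρ (Sum.inl e) < 1} := rfl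
  rw [e2, e1]
  have hxe := xw_rep x e
  -- the density of selections
  set w := om P0 C0 (xw x) (fe e) (se e) with hw
  have e3 : ∀ t ∈ Ico (0:ℝ) 1, dnI x h Hc (Sum.inl e) t *
      pf (ends G) (lwI x h Hc) (Finset.univ.erase (Sum.inl e)) (ends G (Sum.inl e)) t
      = x e * (cf P0 C0 (x e) (sg t) w * (1 / (1 + t) ^ 2)) := by
    intro t ht
    have ht2 : t ∈ Icc (0:ℝ) 1 := ⟨ht.1, ht.2.le⟩
    rw [dn_eq hp hh (Sum.inl e) ht]
    have e4 := pf_erase (ends G) (lwI x h Hc) (dnI x h Hc) (hzI h) (ringLawI hp hh hx0 hacc)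
      Finset.univ (ends G (Sum.inl e)) (Finset.mem_univ (Sum.inl e)) Finset.Subset.rfl
      (ends_nonempty _) ht2
    rw [mul_assoc, ← e4, pf_eq_pr hp hh hx0 hacc hf _ ht2]
    simp only [hzI, Sum.elim_inl]
    rw [cut_of_mem ht, ends_rep]
    unfold hp0
    by_cases hxz : x e = 0
    · rw [hh.zero hp (by rw [hxe]; exact hxz) (sg_mem ht2), hxz]; ring
    · have h1 := (hprop (sg t) (sg_mem ht2) (fe e) (se e) (by rw [hxe]; exact hxz)).1
      rw [hxe] at h1
      calc h (sg t) (fe e) (se e) * (1 / (1 + t) ^ 2) * pr (μf (sg t)) {fe e, se e}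
          = (h (sg t) (fe e) (se e) * pr (μf (sg t)) {fe e, se e}) * (1 / (1 + t) ^ 2) := by ring
        _ = _ := by rw [h1]; ring
  rw [setIntegral_congr_fun measurableSet_Ico e3, integral_const_mul, integral_Ico_eq_integral_Ioc,
    ← intervalIntegral.integral_of_le zero_le_one]
  have hFTC := intervalIntegral.integral_eq_sub_of_hasDerivAt (a := 0) (b := 1)
    (f := fun t => sg t - x e * P0.w (x e) * C0.A (sg t) + w * C0.E (sg t))
    (f' := fun t => cf P0 C0 (x e) (sg t) w * (1 / (1 + t) ^ 2))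
    (fun t ht => by
      have ht2 : t ∈ Icc (0:ℝ) 1 := by rwa [uIcc_of_le zero_le_one] at ht
      have hs := sg_deriv ht2
      have hA := (hc.Ad (sg t)).comp t hs
      have hE := (hc.Ed (sg t)).comp t hs
      refine ((hs.sub (hA.const_mul (x e * P0.w (x e)))).add (hE.const_mul w)).congr_deriv ?_
      unfold cf
      ring)
    (ContinuousOn.intervalIntegrable_of_Icc zero_le_one (by
      refine ContinuousOn.mul ((cf_cont hc _ _).comp_continuousOn sg_contOn) ?_
      refine continuousOn_const.div (by fun_prop) fun t ht => ?_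
      have : 0 < 1 + t := by linarith [ht.1]
      positivity))
  rw [hFTC]
  simp only [sg_zero, sg_one, hc.A0, hc.E0]
  ring

end Pool.Agent.RCRSHalf
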