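import Pool.Agent.RCRSHalf.Func3
import Pool.Agent.RCRSHalf.Infl

/-! Explicit influence bounds (MP_73ccd0_lc, exact 1/2). -/

namespace Pool.Agent.RCRSHalf

open Set Finset Matrix

set_option linter.unusedSectionVars false

/-- `α(m) = m + c m⁴` -/
noncomputable def al (c m : ℝ) : ℝ := m + c * m ^ 4
/-- `β(m) = ∫ α` -/
noncomputable def b2 (c m : ℝ) : ℝ := m ^ 2 / 2 + c * m ^ 5 / 5
/-- `∫ β` -/
noncomputable def g3 (c m : ℝ) : ℝ := m ^ 3 / 6 + c * m ^ 6 / 30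
/-- `∫ κ g3` -/
noncomputable def b4 (c κ m : ℝ) : ℝ := κ * (m ^ 4 / 24 + c * m ^ 7 / 210)
/-- `∫ b4` -/
noncomputable def g5 (c κ m : ℝ) : ℝ := κ * (m ^ 5 / 120 + c * m ^ 8 / 1680)

theorem b2_deriv (c m : ℝ) : HasDerivAt (b2 c) (al c m) m := by
  have h := ((hasDerivAt_pow 2 m).div_const 2).add (((hasDerivAt_pow 5 m).const_mul c).div_const 5)
  refine h.congr_deriv ?_
  unfold al; norm_num; ring

theorem g3_deriv (c m : ℝ) : HasDerivAt (g3 c) (b2 c m) m := by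
  have h := ((hasDerivAt_pow 3 m).div_const 6).add (((hasDerivAt_pow 6 m).const_mul c).div_const 30)
  refine h.congr_deriv ?_
  unfold b2; norm_num; ring

theorem b4_deriv (c κ m : ℝ) : HasDerivAt (b4 c κ) (κ * g3 c m) m := by
  have h := (((hasDerivAt_pow 4 m).div_const 24).add
    (((hasDerivAt_pow 7 m).const_mul c).div_const 210)).const_mul κ
  refine h.congr_deriv ?_
  unfold g3; norm_num; left; ring

theorem g5_deriv (c κ m : ℝ) : HasDerivAt (g5 c κ) (b4 c κ m) m := by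
  have h := (((hasDerivAt_pow 5 m).div_const 120).add
    (((hasDerivAt_pow 8 m).const_mul c).div_const 1680)).const_mul κ
  refine h.congr_deriv ?_
  unfold b4; norm_num; left; ring

section nonneg
variable {c κ m : ℝ}
theorem al_nonneg (hc : 0 ≤ c) (hm : 0 ≤ m) : 0 ≤ al c m := by unfold al; positivity
theorem b2_nonneg (hc : 0 ≤ c) (hm : 0 ≤ m) : 0 ≤ b2 c m := by unfold b2; positivity
theorem g3_nonneg (hc : 0 ≤ c) (hm : 0 ≤ m) : 0 ≤ g3 c m := by unfold g3; positivity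
theorem b4_nonneg (hc : 0 ≤ c) (hκ : 0 ≤ κ) (hm : 0 ≤ m) : 0 ≤ b4 c κ m := by unfold b4; positivity
theorem g5_nonneg (hc : 0 ≤ c) (hκ : 0 ≤ κ) (hm : 0 ≤ m) : 0 ≤ g5 c κ m := by unfold g5; positivity
end nonneg

/-- Conditions on the constants. -/
structure Good (c κ θ σ m1 : ℝ) : Prop where
  c0 : 0 ≤ c
  κ0 : 0 ≤ κ
  θ0 : 0 ≤ θ
  θ1 : θ < 1
  σ0 : 0 ≤ σ
  g5le : ∀ m ∈ Icc 0 m1, g5 c κ m ≤ θ * g3 c m
  ey : ∀ m ∈ Icc 0 m1, ∀ y, 0 ≤ y → y ≤ σ * g3 c m + σ / (1 - θ) * g5 c κ m →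
    Real.exp y ≤ 1 + κ * y ∧ κ * y ≤ c * m ^ 3
  n1 : ∀ m ∈ Icc 0 m1, σ * b2 c m + σ / (1 - θ) * b4 c κ m ≤ 1

variable {V : Type*} [Fintype V] [DecidableEq V]

/-- the vector `Φ_n` -/
noncomputable def Ph (θ : ℝ) (A : Matrix V V ℝ) (F : V → ℝ) (n : ℕ) : V → ℝ := Sn θ A n *ᵥ F

/-- lower influence bound -/
noncomputable def Nf (c κ θ : ℝ) (A : Matrix V V ℝ) (F : V → ℝ) (n : ℕ) (m : ℝ) (a : V) : ℝ :=
  b2 c m * (A *ᵥ F) a + b4 c κ m * (A *ᵥ (A *ᵥ (A *ᵥ Ph θ A F n))) a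

/-- exponent of the upper influence bound -/
noncomputable def Yf (c κ θ : ℝ) (A : Matrix V V ℝ) (F : V → ℝ) (n : ℕ) (m : ℝ) (a : V) : ℝ :=
  g3 c m * (A *ᵥ (A *ᵥ F)) a + g5 c κ m * (A *ᵥ (A *ᵥ (A *ᵥ (A *ᵥ Ph θ A F n)))) a

section vec

variable {c κ θ σ m1 : ℝ} {A : Matrix V V ℝ} {F : V → ℝ} {n : ℕ} {m : ℝ}

theorem Ph_nonneg (hθ : 0 ≤ θ) (hA : MN A) (hF : ∀ a, 0 ≤ F a) (n : ℕ) (a : V) :
    0 ≤ Ph θ A F n a := mulVec_nonneg (Sn_nonneg hθ hA n) hF a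

theorem Ph_succ (n : ℕ) : Ph θ A F (n + 1) = F + θ • (A *ᵥ (A *ᵥ Ph θ A F n)) := by
  unfold Ph
  simp only [Sn, Matrix.add_mulVec, Matrix.one_mulVec, Matrix.smul_mulVec]
  rw [← Matrix.mulVec_mulVec, ← Matrix.mulVec_mulVec]

theorem Ph_mono (hθ : 0 ≤ θ) (hA : MN A) (hF : ∀ a, 0 ≤ F a) (n : ℕ) (a : V) :
    Ph θ A F n a ≤ Ph θ A F (n + 1) a :=
  mulVec_mono_mat (Sn_succ_le hθ hA n) hF a

theorem APh_le (hθ : 0 ≤ θ) (hθ1 : θ < 1) (hA : MN A) (hrow : ∀ a, (A *ᵥ fun _ => 1) a ≤ 1)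
    (hσ0 : 0 ≤ σ) (hσ : ∀ a, (A *ᵥ F) a ≤ σ) (n : ℕ) (a : V) :
    (A *ᵥ Ph θ A F n) a ≤ σ / (1 - θ) := by
  unfold Ph
  rw [Matrix.mulVec_mulVec, Sn_comm, ← Matrix.mulVec_mulVec]
  have hc : (fun _ : V => σ) = σ • (fun _ => (1 : ℝ)) := by funext a; simp
  have h1 : ∀ a, (A *ᵥ fun _ => σ) a ≤ σ := by
    intro a
    rw [hc, Matrix.mulVec_smul, Pi.smul_apply, smul_eq_mul]
    nlinarith [hrow a]
  refine (mulVec_mono (Sn_nonneg hθ hA n) hσ a).trans ?_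
  have := Sn_exc hθ hθ1 hA (z := fun _ => σ) (fun _ => hσ0) h1 n a
  refine this.trans (le_of_eq ?_)
  ring

theorem A_const_le (hA : MN A) (hrow : ∀ a, (A *ᵥ fun _ => 1) a ≤ 1) {y : V → ℝ} {s : ℝ}
    (hs : 0 ≤ s) (hy : ∀ a, y a ≤ s) (a : V) : (A *ᵥ y) a ≤ s := by
  refine (mulVec_mono hA hy a).trans ?_
  have hc : (fun _ : V => s) = s • (fun _ => (1 : ℝ)) := by funext a; simp
  rw [hc, Matrix.mulVec_smul, Pi.smul_apply, smul_eq_mul]
  nlinarith [hrow a]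

variable (hG : Good c κ θ σ m1) (hA : MN A) (hrow : ∀ a, (A *ᵥ fun _ => 1) a ≤ 1)
  (hF : ∀ a, 0 ≤ F a) (hσ : ∀ a, (A *ᵥ F) a ≤ σ) (hm : m ∈ Icc 0 m1)

include hG hA hF hm in
theorem Nf_nonneg (n : ℕ) (a : V) : 0 ≤ Nf c κ θ A F n m a := by
  unfold Nf
  exact add_nonneg (mul_nonneg (b2_nonneg hG.c0 hm.1) (mulVec_nonneg hA hF a))
    (mul_nonneg (b4_nonneg hG.c0 hG.κ0 hm.1) (mulVec_nonneg hA (mulVec_nonneg hA
      (mulVec_nonneg hA (Ph_nonneg hG.θ0 hA hF n))) a))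

include hG hA hF hm in
theorem Yf_nonneg (n : ℕ) (a : V) : 0 ≤ Yf c κ θ A F n m a := by
  unfold Yf
  exact add_nonneg (mul_nonneg (g3_nonneg hG.c0 hm.1) (mulVec_nonneg hA (mulVec_nonneg hA hF) a))
    (mul_nonneg (g5_nonneg hG.c0 hG.κ0 hm.1) (mulVec_nonneg hA (mulVec_nonneg hA (mulVec_nonneg hA
      (mulVec_nonneg hA (Ph_nonneg hG.θ0 hA hF n)))) a))

include hG hA hrow hσ hm in
theorem Nf_le_one (n : ℕ) (a : V) : Nf c κ θ A F n m a ≤ 1 := by
  refine le_trans ?_ (hG.n1 m hm)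
  have hs : 0 ≤ σ / (1 - θ) := div_nonneg hG.σ0 (by linarith [hG.θ1])
  have h1 := hσ a
  have h2 : (A *ᵥ (A *ᵥ (A *ᵥ Ph θ A F n))) a ≤ σ / (1 - θ) :=
    A_const_le hA hrow hs (A_const_le hA hrow hs
      (APh_le hG.θ0 hG.θ1 hA hrow hG.σ0 hσ n)) a
  unfold Nf
  have := mul_le_mul_of_nonneg_left h1 (b2_nonneg hG.c0 hm.1)
  have := mul_le_mul_of_nonneg_left h2 (b4_nonneg hG.c0 hG.κ0 hm.1)
  linarith

include hG hA hrow hσ hm in
theorem Yf_le (n : ℕ) (a : V) :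
    Yf c κ θ A F n m a ≤ σ * g3 c m + σ / (1 - θ) * g5 c κ m := by
  have hs : 0 ≤ σ / (1 - θ) := div_nonneg hG.σ0 (by linarith [hG.θ1])
  have h1 := A_const_le hA hrow hG.σ0 hσ a
  have h2 : (A *ᵥ (A *ᵥ (A *ᵥ (A *ᵥ Ph θ A F n)))) a ≤ σ / (1 - θ) :=
    A_const_le hA hrow hs (A_const_le hA hrow hs (A_const_le hA hrow hs
      (APh_le hG.θ0 hG.θ1 hA hrow hG.σ0 hσ n))) a
  unfold Yf
  have := mul_le_mul_of_nonneg_left h1 (g3_nonneg hG.c0 hm.1)
  have := mul_le_mul_of_nonneg_left h2 (g5_nonneg hG.c0 hG.κ0 hm.1)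
  linarith

include hG hA hrow hF hσ hm in
/-- bound of the exponent by `Φ` -/
theorem Yf_le_Ph (n : ℕ) (a : V) :
    Yf c κ θ A F n m a ≤ g3 c m * (A *ᵥ (A *ᵥ Ph θ A F (n + 1))) a := by
  have h4 : 0 ≤ (A *ᵥ (A *ᵥ (A *ᵥ (A *ᵥ Ph θ A F n)))) a :=
    mulVec_nonneg hA (mulVec_nonneg hA (mulVec_nonneg hA
      (mulVec_nonneg hA (Ph_nonneg hG.θ0 hA hF n)))) a
  have e : (A *ᵥ (A *ᵥ Ph θ A F (n + 1))) a
      = (A *ᵥ (A *ᵥ F)) a + θ * (A *ᵥ (A *ᵥ (A *ᵥ (A *ᵥ Ph θ A F n)))) a := by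
    rw [Ph_succ, Matrix.mulVec_add, Matrix.mulVec_add, Matrix.mulVec_smul, Matrix.mulVec_smul]
    simp [Pi.add_apply, Pi.smul_apply, smul_eq_mul]
  rw [e]
  unfold Yf
  have := mul_le_mul_of_nonneg_right (hG.g5le m hm) h4
  nlinarith

include hG hA hrow hF hσ hm in
/-- upper bound of the one-step influence -/
theorem P_bound (n : ℕ) (a : V) {K : ℝ} (hK : Real.exp K ≤ 1 + m * F a) :
    Real.exp (K + Yf c κ θ A F n m a) - 1
      ≤ al c m * F a + κ * g3 c m * (A *ᵥ (A *ᵥ Ph θ A F (n + 1))) a := by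
  have hY0 := Yf_nonneg hG hA hF hm n a
  have hYl := Yf_le hG hA hrow hσ hm n a
  obtain ⟨e1, e2⟩ := hG.ey m hm _ hY0 hYl
  have e3 := Yf_le_Ph hG hA hrow hF hσ hm n a
  rw [Real.exp_add]
  have hmF : 0 ≤ m * F a := mul_nonneg hm.1 (hF a)
  have h1 : Real.exp K * Real.exp (Yf c κ θ A F n m a)
      ≤ (1 + m * F a) * (1 + κ * Yf c κ θ A F n m a) :=
    mul_le_mul hK e1 (Real.exp_pos _).le (by linarith)
  have h2 : (m * F a) * (κ * Yf c κ θ A F n m a) ≤ (m * F a) * (c * m ^ 3) :=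
    mul_le_mul_of_nonneg_left e2 hmF
  have h3 := mul_le_mul_of_nonneg_left e3 hG.κ0
  unfold al
  nlinarith

include hG hA hrow hF hσ hm in
/-- small bound when there is no direct killing -/
theorem P_small (n : ℕ) (a : V) :
    Real.exp (Yf c κ θ A F n m a) - 1 ≤ c * m ^ 3 := by
  obtain ⟨e1, e2⟩ := hG.ey m hm _ (Yf_nonneg hG hA hF hm n a) (Yf_le hG hA hrow hσ hm n a)
  linarith

end vec

section influence

variable {c κ θ σ m1 : ℝ} {F : V → ℝ} {x : V → V → ℝ}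
  {h : ℝ → V → V → ℝ} {k : ℝ → V → ℝ} {s : ℝ} {R : Finset V → ℝ → ℝ} {M μ : ℝ → ℝ}
  {KK : V → ℝ → ℝ}

/-- Data common to all applications. -/
structure Haz (x : V → V → ℝ) (h : ℝ → V → V → ℝ) (M μ : ℝ → ℝ) (s m1 : ℝ) : Prop where
  hx : IsW x
  symm : ∀ t a b, h t a b = h t b a
  diag : ∀ t a, h t a a = 0
  nonneg : ∀ t a b, 0 ≤ h t a b
  le : ∀ t ∈ Icc 0 s, ∀ a b, h t a b ≤ μ t * x a b
  Md : ∀ t ∈ Icc 0 s, HasDerivAt M (μ t) t
  μ0 : ∀ t ∈ Icc 0 s, 0 ≤ μ t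
  M1 : ∀ t ∈ Icc 0 s, M s - M t ∈ Icc 0 m1
  s0 : 0 ≤ s

theorem Haz.sum_le (hz : Haz x h M μ s m1) {H G : Finset V} (hGH : G ⊆ H) {a : V} (ha : a ∈ H)
    {y : V → ℝ} (hy : ∀ b, 0 ≤ y b) {r : ℝ} (hr : r ∈ Icc 0 s) :
    ∑ b ∈ G, h r a b * y b ≤ μ r * (rm x H *ᵥ y) a := by
  rw [rm_mulVec _ _ ha, Finset.mul_sum]
  refine le_trans ?_ (Finset.sum_le_sum_of_subset_of_nonneg hGH fun b _ _ =>
    mul_nonneg (hz.μ0 r hr) (mul_nonneg (hz.hx.nonneg _ _) (hy b)))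
  refine Finset.sum_le_sum fun b _ => ?_
  have := mul_le_mul_of_nonneg_right (hz.le r hr a b) (hy b)
  linarith

theorem influence (hz : Haz x h M μ s m1) (hG : Good c κ θ σ m1) {H : Finset V}
    (hF : ∀ a, 0 ≤ F a) (hσ : ∀ a, (rm x H *ᵥ F) a ≤ σ) (k0 : ∀ t a, 0 ≤ k t a)
    (hKd : ∀ a ∈ H, ∀ r ∈ Icc 0 s, HasDerivAt (KK a) (-k r a) r) (hKs : ∀ a ∈ H, KK a s = 0)
    (hKF : ∀ a ∈ H, ∀ r ∈ Icc 0 s, Real.exp (KK a r) ≤ 1 + (M s - M r) * F a)
    (hR : IsBack h k s R) (n : ℕ) : ∀ G ⊆ H, G.card ≤ n → ∀ a ∈ G, ∀ r ∈ Icc 0 s,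
      R (G.erase a) r ≤ Real.exp (KK a r + Yf c κ θ (rm x H) F n (M s - M r) a) * R G r ∧
      (1 - Nf c κ θ (rm x H) F n (M s - M r) a) * R G r ≤ R (G.erase a) r := by
  set A := rm x H with hAdef
  have hA : MN A := rm_nonneg hz.hx H
  have hrow : ∀ a, (A *ᵥ fun _ => 1) a ≤ 1 := rm_one_le hz.hx H
  have hK0 : ∀ a ∈ H, ∀ r ∈ Icc 0 s, 0 ≤ KK a r := by
    intro a ha r hr
    refine nonneg_of_backward (U := KK a) (U' := fun r => -k r a) (a := 0) (s := s)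
      (hKd a ha) (by rw [hKs a ha]) (fun r _ _ => by linarith [k0 r a]) r hr
  induction n with
  | zero =>
    intro G _ hcard a ha
    rw [Nat.le_zero, Finset.card_eq_zero] at hcard
    rw [hcard] at ha
    simp at ha
  | succ n ih =>
    intro G hGH hcard a ha
    set G' := G.erase a with hG'
    have hGa : insert a G' = G := Finset.insert_erase ha
    have haG' : a ∉ G' := Finset.notMem_erase a G
    have hG'H : G' ⊆ H := (Finset.erase_subset _ _).trans hGH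
    have haH : a ∈ H := hGH ha
    have hcard' : G'.card ≤ n := by
      rw [hG', Finset.card_erase_of_mem ha]; omega
    have hmr : ∀ r ∈ Icc 0 s, M s - M r ∈ Icc 0 m1 := fun r hr => hz.M1 r hr
    have hdm : ∀ r ∈ Icc 0 s, HasDerivAt (fun r => M s - M r) (-μ r) r := fun r hr => by
      simpa using (hz.Md r hr).const_sub (M s)
    -- bounds for subsets of G'
    have ihN : ∀ G'' ⊆ G', ∀ b ∈ G'', ∀ r ∈ Icc 0 s,
        (1 - Nf c κ θ A F n (M s - M r) b) * R G'' r ≤ R (G''.erase b) r := fun G'' h1 b hb r hr =>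
      (ih G'' (h1.trans hG'H) ((Finset.card_le_card h1).trans hcard') b hb r hr).2
    have ihP : ∀ G'' ⊆ G', ∀ b ∈ G'', ∀ r ∈ Icc 0 s,
        R (G''.erase b) r ≤ (1 + (Real.exp (KK b r + Yf c κ θ A F n (M s - M r) b) - 1)) * R G'' r :=
      fun G'' h1 b hb r hr => by
        have := (ih G'' (h1.trans hG'H) ((Finset.card_le_card h1).trans hcard') b hb r hr).1
        simpa using this
    -- derivative of Y
    have hYd : ∀ r ∈ Icc 0 s, HasDerivAt (fun r => Yf c κ θ A F n (M s - M r) a)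
        (-(μ r * (A *ᵥ (Nf c κ θ A F n (M s - M r))) a)) r := by
      intro r hr
      have d1 := (g3_deriv c (M s - M r)).comp r (hdm r hr)
      have d2 := (g5_deriv c κ (M s - M r)).comp r (hdm r hr)
      have := (d1.mul_const ((A *ᵥ (A *ᵥ F)) a)).add
        (d2.mul_const ((A *ᵥ (A *ᵥ (A *ᵥ (A *ᵥ Ph θ A F n)))) a))
      refine this.congr_deriv ?_
      have e : Nf c κ θ A F n (M s - M r) = b2 c (M s - M r) • (A *ᵥ F)
          + b4 c κ (M s - M r) • (A *ᵥ (A *ᵥ (A *ᵥ Ph θ A F n))) := by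
        funext b; simp [Nf, Pi.add_apply, Pi.smul_apply, smul_eq_mul]
      rw [e, Matrix.mulVec_add, Matrix.mulVec_smul, Matrix.mulVec_smul]
      simp only [Pi.add_apply, Pi.smul_apply, smul_eq_mul]
      ring
    have hmono : ∀ m ∈ Icc 0 m1, Yf c κ θ A F n m a ≤ Yf c κ θ A F (n + 1) m a := by
      intro m hm
      unfold Yf
      have : (A *ᵥ (A *ᵥ (A *ᵥ (A *ᵥ Ph θ A F n)))) a
          ≤ (A *ᵥ (A *ᵥ (A *ᵥ (A *ᵥ Ph θ A F (n + 1))))) a :=
        mulVec_mono hA (mulVec_mono hA (mulVec_mono hA (mulVec_mono hA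
          (Ph_mono hG.θ0 hA hF n)))) a
      have := mul_le_mul_of_nonneg_left this (g5_nonneg hG.c0 hG.κ0 hm.1)
      linarith
    -- step P
    have hP := stepP (N := fun b r => Nf c κ θ A F n (M s - M r) b)
      (P := fun r => Real.exp (KK a r + Yf c κ θ A F n (M s - M r) a) - 1)
      (P' := fun r => Real.exp (KK a r + Yf c κ θ A F n (M s - M r) a) *
        (-k r a + -(μ r * (A *ᵥ (Nf c κ θ A F n (M s - M r))) a)))
      hz.symm hz.diag hz.nonneg k0 hR haG'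
      (fun b _ r hr => Nf_le_one hG hA hrow hσ (hmr r hr) n b) ihN
      (fun r hr => by
        have := (((hKd a haH r hr).add (hYd r hr)).exp).sub_const 1
        exact this)
      (by
        have h1 : 0 ≤ KK a s + Yf c κ θ A F n (M s - M s) a :=
          add_nonneg (hK0 a haH s ⟨hz.s0, le_rfl⟩) (Yf_nonneg hG hA hF (hmr s ⟨hz.s0, le_rfl⟩) n a)
        have := Real.one_le_exp h1
        linarith)
      (fun r hr => by
        have h1 : 0 ≤ KK a r + Yf c κ θ A F n (M s - M r) a :=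
          add_nonneg (hK0 a haH r hr) (Yf_nonneg hG hA hF (hmr r hr) n a)
        have := Real.one_le_exp h1
        linarith)
      (fun r hr => by
        have h1 := hz.sum_le hG'H haH (y := Nf c κ θ A F n (M s - M r))
          (fun b => Nf_nonneg hG hA hF (hmr r hr) n b) hr
        have h2 := Real.exp_pos (KK a r + Yf c κ θ A F n (M s - M r) a)
        nlinarith)
      (fun b _ r hr => Nf_nonneg hG hA hF (hmr r hr) n b) G' Finset.Subset.rfl
    -- step N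
    have hNd : ∀ r ∈ Icc 0 s, HasDerivAt (fun r => Nf c κ θ A F (n + 1) (M s - M r) a)
        (-(μ r * (al c (M s - M r) * (A *ᵥ F) a
          + κ * g3 c (M s - M r) * (A *ᵥ (A *ᵥ (A *ᵥ Ph θ A F (n + 1)))) a))) r := by
      intro r hr
      have d1 := (b2_deriv c (M s - M r)).comp r (hdm r hr)
      have d2 := (b4_deriv c κ (M s - M r)).comp r (hdm r hr)
      have := (d1.mul_const ((A *ᵥ F) a)).add
        (d2.mul_const ((A *ᵥ (A *ᵥ (A *ᵥ Ph θ A F (n + 1)))) a))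
      refine this.congr_deriv ?_
      ring
    have hN := stepN (P := fun b r => Real.exp (KK b r + Yf c κ θ A F n (M s - M r) b) - 1)
      (N := fun r => Nf c κ θ A F (n + 1) (M s - M r) a)
      (N' := fun r => -(μ r * (al c (M s - M r) * (A *ᵥ F) a
          + κ * g3 c (M s - M r) * (A *ᵥ (A *ᵥ (A *ᵥ Ph θ A F (n + 1)))) a)))
      hz.symm hz.diag hz.nonneg k0 hR haG'
      (fun b hb r hr => by
        have h1 : 0 ≤ KK b r + Yf c κ θ A F n (M s - M r) b :=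
          add_nonneg (hK0 b (hG'H hb) r hr) (Yf_nonneg hG hA hF (hmr r hr) n b)
        have := Real.one_le_exp h1
        linarith)
      ihP hNd
      (fun r hr => Nf_nonneg hG hA hF (hmr r hr) (n + 1) a)
      (fun r hr => Nf_le_one hG hA hrow hσ (hmr r hr) (n + 1) a)
      (fun r hr => by
        have hb : ∀ b ∈ G', Real.exp (KK b r + Yf c κ θ A F n (M s - M r) b) - 1
            ≤ al c (M s - M r) * F b
              + κ * g3 c (M s - M r) * (A *ᵥ (A *ᵥ Ph θ A F (n + 1))) b := fun b hb =>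
          P_bound hG hA hrow hF hσ (hmr r hr) n b (hKF b (hG'H hb) r hr)
        have hy0 : ∀ b, 0 ≤ al c (M s - M r) * F b
              + κ * g3 c (M s - M r) * (A *ᵥ (A *ᵥ Ph θ A F (n + 1))) b := fun b =>
          add_nonneg (mul_nonneg (al_nonneg hG.c0 (hmr r hr).1) (hF b))
            (mul_nonneg (mul_nonneg hG.κ0 (g3_nonneg hG.c0 (hmr r hr).1))
              (mulVec_nonneg hA (mulVec_nonneg hA (Ph_nonneg hG.θ0 hA hF (n + 1))) b))
        have h1 : ∑ b ∈ G', h r a b * (Real.exp (KK b r + Yf c κ θ A F n (M s - M r) b) - 1)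
            ≤ ∑ b ∈ G', h r a b * (al c (M s - M r) * F b
              + κ * g3 c (M s - M r) * (A *ᵥ (A *ᵥ Ph θ A F (n + 1))) b) :=
          Finset.sum_le_sum fun b hb' => mul_le_mul_of_nonneg_left (hb b hb') (hz.nonneg _ _ _)
        have h2 := hz.sum_le hG'H haH hy0 hr
        have e : (rm x H *ᵥ fun b => al c (M s - M r) * F b
              + κ * g3 c (M s - M r) * (A *ᵥ (A *ᵥ Ph θ A F (n + 1))) b) a
            = al c (M s - M r) * (A *ᵥ F) a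
              + κ * g3 c (M s - M r) * (A *ᵥ (A *ᵥ (A *ᵥ Ph θ A F (n + 1)))) a := by
          have : (fun b => al c (M s - M r) * F b
              + κ * g3 c (M s - M r) * (A *ᵥ (A *ᵥ Ph θ A F (n + 1))) b)
              = al c (M s - M r) • F + (κ * g3 c (M s - M r)) • (A *ᵥ (A *ᵥ Ph θ A F (n + 1))) := by
            funext b; simp [Pi.add_apply, Pi.smul_apply, smul_eq_mul]
          rw [this, ← hAdef, Matrix.mulVec_add, Matrix.mulVec_smul, Matrix.mulVec_smul]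
          simp [Pi.add_apply, Pi.smul_apply, smul_eq_mul]
        rw [e] at h2
        linarith)
      hz.s0 G' Finset.Subset.rfl
    intro r hr
    rw [hGa] at hP hN
    refine ⟨?_, hN r hr⟩
    have h1 := hP r hr
    have h2 : 1 + (Real.exp (KK a r + Yf c κ θ A F n (M s - M r) a) - 1)
        ≤ Real.exp (KK a r + Yf c κ θ A F (n + 1) (M s - M r) a) := by
      have : Real.exp (KK a r + Yf c κ θ A F n (M s - M r) a)
          ≤ Real.exp (KK a r + Yf c κ θ A F (n + 1) (M s - M r) a) :=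
        Real.exp_le_exp.2 (by linarith [hmono _ (hmr r hr)])
      linarith
    exact h1.trans (mul_le_mul_of_nonneg_right h2 (hR.nonneg _ r hr))

end influence

end Pool.Agent.RCRSHalf
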