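import Pool.Agent.RCRSHalf.Rb2

/-! Certificate data and the lower bound for the probability that both end points of an edge are
free (MP_73ccd0_lc, exact 1/2). -/

namespace Pool.Agent.RCRSHalf

open Set Finset Matrix

set_option linter.unusedSectionVars false

/-- further data of the profile -/
structure Cert where
  A : ℝ → ℝ
  E : ℝ → ℝ
  A' : ℝ → ℝ
  E' : ℝ → ℝ
  IG : ℝ → ℝ → ℝ
  IA : ℝ → ℝ → ℝ
  IE : ℝ → ℝ → ℝ
  IE' : ℝ → ℝ → ℝ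
  J : ℝ → ℝ → ℝ
  J' : ℝ → ℝ → ℝ
  dn : ℝ → ℝ → ℝ
  n0 : ℝ
  wm : ℝ
  dm : ℝ
  δ : ℝ

/-- the density of selections, divided by the weight -/
noncomputable def cf (p : Prof) (c : Cert) (x t ω : ℝ) : ℝ :=
  1 - x * p.w x * c.A' t + ω * c.E' t

/-- lower bound (one end point) -/
noncomputable def bet (p : Prof) (c : Cert) (x t ω : ℝ) : ℝ :=
  1 - (1 - x) * c.IG x t - x ^ 2 * p.w x * c.IE x t + ω * (x * c.IE x t - c.n0 * c.J x t)
    - c.wm * (1 - x) * c.dn x t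

/-- coefficient of the local quadratic degree -/
noncomputable def Dp (c : Cert) (x t : ℝ) : ℝ := c.IA x t - c.IE x t + c.dn x t

/-- lower bound (both end points) -/
noncomputable def LBf (p : Prof) (c : Cert) (x t ω : ℝ) : ℝ :=
  Real.exp (-(2 * c.n0 * ω * kc p.ca (p.M t))) *
    (bet p c x t ω ^ 2 + 2 * bet p c x t ω * ω * Dp c x t)

/-- The numerical conditions. -/
structure Cert.Ok (p : Prof) (c : Cert) : Prop where
  Ad : ∀ t, HasDerivAt c.A (c.A' t) t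
  Ed : ∀ t, HasDerivAt c.E (c.E' t) t
  A0 : c.A 0 = c.A (1 / 2)
  E0 : c.E 0 = c.E (1 / 2)
  A'c : Continuous c.A'
  E'c : Continuous c.E'
  Gc : ∀ x ∈ Icc (0 : ℝ) 1, Continuous (p.G x)
  G'c : ∀ x ∈ Icc (0 : ℝ) 1, Continuous (p.G' x)
  IGd : ∀ x ∈ Icc (0 : ℝ) 1, ∀ t ∈ Icc (0 : ℝ) (1 / 2), HasDerivAt (c.IG x) (p.G x t) t
  IAd : ∀ x ∈ Icc (0 : ℝ) 1, ∀ t ∈ Icc (0 : ℝ) (1 / 2), HasDerivAt (c.IA x) (c.A' t * p.G x t) t
  IEd : ∀ x ∈ Icc (0 : ℝ) 1, ∀ t ∈ Icc (0 : ℝ) (1 / 2), HasDerivAt (c.IE x) (c.IE' x t) t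
  IE'ge : ∀ x ∈ Icc (0 : ℝ) 1, ∀ t ∈ Icc (0 : ℝ) (1 / 2), c.E' t * p.G x t ≤ c.IE' x t
  Jd : ∀ x ∈ Icc (0 : ℝ) 1, ∀ t ∈ Icc (0 : ℝ) (1 / 2), HasDerivAt (c.J x) (c.J' x t) t
  IG0 : ∀ x, c.IG x 0 = 0
  IA0 : ∀ x, c.IA x 0 = 0
  IE0 : ∀ x, c.IE x 0 = 0
  J0 : ∀ x, c.J x 0 = 0
  IGn : ∀ x ∈ Icc (0 : ℝ) 1, ∀ t ∈ Icc (0 : ℝ) (1 / 2), 0 ≤ c.IG x t
  IEn : ∀ x ∈ Icc (0 : ℝ) 1, ∀ t ∈ Icc (0 : ℝ) (1 / 2), 0 ≤ c.IE x t
  dnn : ∀ x ∈ Icc (0 : ℝ) 1, ∀ t ∈ Icc (0 : ℝ) (1 / 2), 0 ≤ c.dn x t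
  Dpn : ∀ x ∈ Icc (0 : ℝ) 1, ∀ t ∈ Icc (0 : ℝ) (1 / 2), 0 ≤ Dp c x t
  J'ge : ∀ x ∈ Icc (0 : ℝ) 1, ∀ t ∈ Icc (0 : ℝ) (1 / 2),
    p.κb * c.dm * p.Fb * g3 p.cb (p.M t) * p.G x t ≤ c.J' x t
  n0p : 0 < c.n0
  n0z : nz p.θ p.t1 p.t2 ≤ c.n0
  wm0 : ∀ y ∈ Icc (0 : ℝ) 1, y * p.w y ≤ c.wm
  δp : 0 < c.δ
  cfn : ∀ x ∈ Icc (0 : ℝ) 1, ∀ t ∈ Icc (0 : ℝ) (1 / 2), ∀ ω ∈ Icc 0 (c.wm * (1 - x)),
    0 ≤ cf p c x t ω
  cfd : ∀ x ∈ Icc (0 : ℝ) 1, ∀ t ∈ Icc (0 : ℝ) (1 / 2), ∀ ω ∈ Icc 0 (c.wm * (1 - x)),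
    cf p c x t ω ≤ c.dm
  betn : ∀ x ∈ Icc (0 : ℝ) 1, ∀ t ∈ Icc (0 : ℝ) (1 / 2), ∀ ω ∈ Icc 0 (c.wm * (1 - x)),
    0 ≤ bet p c x t ω
  C1 : ∀ x ∈ Icc (0 : ℝ) 1, ∀ t ∈ Icc (0 : ℝ) (1 / 2), ∀ ω ∈ Icc 0 (c.wm * (1 - x)),
    (1 - t) ^ 2 * cf p c x t ω ≤ LBf p c x t ω
  C2 : ∀ x ∈ Icc (0 : ℝ) 1, ∀ t ∈ Icc (0 : ℝ) (1 / 2), ∀ ω ∈ Icc 0 (c.wm * (1 - x)),
    x * cf p c x t ω * p.G x t ^ 2 ≤ p.G' x t * LBf p c x t ω
  C3 : ∀ x ∈ Icc (0 : ℝ) 1, ∀ t ∈ Icc (0 : ℝ) (1 / 2), ∀ ω ∈ Icc 0 (c.wm * (1 - x)),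
    c.δ * p.G x t ≤ LBf p c x t ω

variable {V : Type*} [Fintype V] [DecidableEq V]
variable {p : Prof} {c : Cert} {x : V → V → ℝ} {h : ℝ → V → V → ℝ} {Hc : V → V → ℝ → ℝ}

/-- the functional, normalised -/
noncomputable def om (p : Prof) (c : Cert) (x : V → V → ℝ) (u v : V) : ℝ := p.B x u v / c.n0

theorem om_symm (hx : IsW x) (u v : V) : om p c x u v = om p c x v u := by
  unfold om
  have : p.B x u v = p.B x v u := Bf_symm hx u v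
  rw [this]

theorem w_nonneg (hp : p.Ok) {y : ℝ} (hy : y ∈ Icc (0 : ℝ) 1) : 0 ≤ p.w y :=
  (mul_nonneg hp.ρ0 (by linarith [hy.2])).trans (hp.hρw y hy.1 hy.2)

/-- local quadratic degree -/
noncomputable def lam (p : Prof) (x : V → V → ℝ) (u v : V) : ℝ :=
  ∑ z ∈ V0 u v, x u z ^ 2 * p.w (x u z)

theorem lam_nonneg (hp : p.Ok) (hx : IsW x) (u v : V) : 0 ≤ lam p x u v :=
  Finset.sum_nonneg fun z _ => mul_nonneg (sq_nonneg _)
    (w_nonneg hp ⟨hx.nonneg _ _, hx.le_one _ _⟩)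

theorem sum_univ_V0 {u v : V} (huv : u ≠ v) (f : V → ℝ) :
    ∑ z, f z = f u + f v + ∑ z ∈ V0 u v, f z := by
  have e : (Finset.univ : Finset V) = insert u (insert v (V0 u v)) := by
    ext z
    simp only [Finset.mem_univ, Finset.mem_insert, mem_V0, true_iff]
    tauto
  rw [e, Finset.sum_insert, Finset.sum_insert (not_mem_V0_right u v), add_assoc]
  rw [Finset.mem_insert]
  rintro (h1 | h1)
  · exact huv h1
  · exact not_mem_V0_left u v h1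

theorem sum_V0_le (hx : IsW x) (u v : V) : ∑ z ∈ V0 u v, x u z ≤ 1 - x u v := by
  by_cases huv : u = v
  · subst huv
    rw [hx.diag, sub_zero]
    exact (Finset.sum_le_sum_of_subset_of_nonneg (Finset.subset_univ _)
      fun z _ _ => hx.nonneg _ _).trans (hx.row u)
  · have := sum_univ_V0 huv fun z => x u z
    have h1 := hx.row u
    have h2 := hx.diag u
    linarith

theorem lam_le (hc : c.Ok p) (hx : IsW x) (u v : V) :
    lam p x u v ≤ c.wm * (1 - x u v) := by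
  have h1 : lam p x u v ≤ ∑ z ∈ V0 u v, c.wm * x u z := by
    refine Finset.sum_le_sum fun z _ => ?_
    have := mul_le_mul_of_nonneg_right (hc.wm0 _ ⟨hx.nonneg u z, hx.le_one u z⟩) (hx.nonneg u z)
    calc x u z ^ 2 * p.w (x u z) = x u z * p.w (x u z) * x u z := by ring
      _ ≤ _ := this
  rw [← Finset.mul_sum] at h1
  have h0 : 0 ≤ c.wm := by
    have := hc.wm0 0 ⟨le_rfl, zero_le_one⟩
    simpa using this
  exact h1.trans (mul_le_mul_of_nonneg_left (sum_V0_le hx u v) h0)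

theorem wm_nonneg (hc : c.Ok p) : 0 ≤ c.wm := by
  have := hc.wm0 0 ⟨le_rfl, zero_le_one⟩
  simpa using this

theorem B_nonneg (hp : p.Ok) (hx : IsW x) (u v : V) : 0 ≤ p.B x u v :=
  Bf_nonneg hx hp.F0' hp.ga.θ0 hp.t10 hp.t20 u v

theorem om_nonneg (hp : p.Ok) (hc : c.Ok p) (hx : IsW x) (u v : V) : 0 ≤ om p c x u v :=
  div_nonneg (B_nonneg hp hx u v) hc.n0p.le

theorem om_le_half (hp : p.Ok) (hc : c.Ok p) (hx : IsW x) (u v : V) :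
    om p c x u v ≤ (1 / 2) * (lam p x u v + lam p x v u) := by
  unfold om
  rw [div_le_iff₀ hc.n0p]
  have h1 := Bf_le (n := Fintype.card V + 1) hx hp.F0' hp.F0 hp.ga.θ0 hp.ga.θ1 hp.t10 hp.t20 hp.hw u v
  have h2 : (1 / 2) * (∑ a ∈ V0 u v, x u a ^ 2 * p.w (x u a)
      + ∑ a ∈ V0 u v, x v a ^ 2 * p.w (x v a)) = (1 / 2) * (lam p x u v + lam p x v u) := by
    unfold lam
    rw [V0_comm v u]
  rw [h2] at h1
  refine h1.trans ?_
  rw [mul_comm]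
  refine mul_le_mul_of_nonneg_left hc.n0z ?_
  have := lam_nonneg hp hx u v
  have := lam_nonneg hp hx v u
  linarith

theorem om_le (hp : p.Ok) (hc : c.Ok p) (hx : IsW x) (u v : V) :
    om p c x u v ≤ c.wm * (1 - x u v) := by
  have h1 := om_le_half hp hc hx u v
  have h2 := lam_le hc hx u v
  have h3 := lam_le hc hx v u
  rw [hx.symm v u] at h3
  linarith

theorem sum_om_le (hp : p.Ok) (hc : c.Ok p) (hx : IsW x) {u v : V} (huv : u ≠ v) :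
    ∑ z ∈ V0 u v, x u z * om p c x u z
      ≤ lam p x u v + x u v ^ 2 * p.w (x u v) - x u v * om p c x u v := by
  have h1 := sum_Bf_le (n := Fintype.card V + 1) hx hp.F0' hp.F0 hp.ga.θ0 hp.ga.θ1 hp.t10 hp.t20
    hp.ρ0 hp.hw hp.hρ hp.hρw u
  have h2 : ∑ z, x u z * om p c x u z ≤ ∑ z, x u z ^ 2 * p.w (x u z) := by
    have e : ∑ z, x u z * om p c x u z = (∑ z, x u z * p.B x u z) / c.n0 := by
      rw [Finset.sum_div]
      refine Finset.sum_congr rfl fun z _ => ?_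
      unfold om; ring
    rw [e, div_le_iff₀ hc.n0p]
    have h3 : 0 ≤ ∑ z, x u z ^ 2 * p.w (x u z) := Finset.sum_nonneg fun z _ =>
      mul_nonneg (sq_nonneg _) (w_nonneg hp ⟨hx.nonneg _ _, hx.le_one _ _⟩)
    refine h1.trans ?_
    rw [mul_comm]
    exact mul_le_mul_of_nonneg_left hc.n0z h3
  rw [sum_univ_V0 huv fun z => x u z * om p c x u z,
    sum_univ_V0 huv fun z => x u z ^ 2 * p.w (x u z)] at h2
  simp only [hx.diag] at h2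
  unfold lam
  linarith

/-- one end point -/
theorem R_ge (hh : HazP p x h Hc) (hp : p.Ok) (hc : c.Ok p) {s : ℝ}
    (hs : s ∈ Icc (0 : ℝ) (1 / 2)) {u v : V} (huv : x u v ≠ 0)
    {μf μv : ℝ → Finset V → ℝ} (hf : IsLaw h Finset.univ (1 / 2) μf)
    (hv : IsLaw h (Finset.univ.erase v) (1 / 2) μv)
    {R : Finset V → ℝ → ℝ} (hR : IsBack h (fun t z => h t u z) s R)
    (hch : ∀ t ∈ Icc (0 : ℝ) (1 / 2), ∀ z, x u z ≠ 0 →
      h t u z * pr (μf t) {u, z} ≤ x u z * cf p c (x u z) t (om p c x u z)) :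
    bet p c (x u v) s (om p c x u v) + (lam p x u v) * Dp c (x u v) s ≤ R (V0 u v) 0 := by
  have hx := hh.hx
  have huv' : u ≠ v := fun e => huv (by rw [e, hx.diag])
  have hxI : ∀ a b, x a b ∈ Icc (0 : ℝ) 1 := fun a b => ⟨hx.nonneg _ _, hx.le_one _ _⟩
  have hom : ∀ a b, om p c x a b ∈ Icc 0 (c.wm * (1 - x a b)) := fun a b =>
    ⟨om_nonneg hp hc hx a b, om_le hp hc hx a b⟩
  have key := R_lower hh hp hs huv hf hv hR (ch := fun t a b => cf p c (x a b) t (om p c x a b))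
    (A' := c.A') (E' := c.E') (ω := om p c x) (dm := c.dm) hch
    (fun t ht z => hc.cfn _ (hxI _ _) t ht _ (hom _ _))
    (fun t ht z => hc.cfd _ (hxI _ _) t ht _ (hom _ _))
    (fun t _ z => rfl) (fun z => om_nonneg hp hc hx u z)
    (hc.IGd _ (hxI u v)) (hc.IG0 _) (hc.IAd _ (hxI u v)) (hc.IA0 _)
    (hc.IEd _ (hxI u v)) (hc.IE0 _) (hc.IE'ge _ (hxI u v)) (hc.Jd _ (hxI u v)) (hc.J0 _)
    (hc.J'ge _ (hxI u v))
  refine le_trans ?_ key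
  have e1 := mul_le_mul_of_nonneg_right (sum_V0_le hx u v) (hc.IGn _ (hxI u v) s hs)
  have e2 := mul_le_mul_of_nonneg_right (sum_om_le hp hc hx huv') (hc.IEn _ (hxI u v) s hs)
  have e3 := mul_le_mul_of_nonneg_right (lam_le hc hx u v) (hc.dnn _ (hxI u v) s hs)
  have e4 : p.B x u v = c.n0 * om p c x u v := by
    unfold om
    rw [mul_div_cancel₀ _ hc.n0p.ne']
  have e5 : ∑ z ∈ V0 u v, x u z ^ 2 * p.w (x u z) = lam p x u v := rfl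
  rw [e4, e5]
  unfold bet Dp
  linarith

/-- both end points -/
theorem S_ge (hh : HazP p x h Hc) (hp : p.Ok) (hc : c.Ok p) {s : ℝ}
    (hs : s ∈ Icc (0 : ℝ) (1 / 2)) {u v : V} (huv : x u v ≠ 0)
    {μf μu μv : ℝ → Finset V → ℝ} (hf : IsLaw h Finset.univ (1 / 2) μf)
    (hu : IsLaw h (Finset.univ.erase u) (1 / 2) μu)
    (hv : IsLaw h (Finset.univ.erase v) (1 / 2) μv)
    {R R' S : Finset V → ℝ → ℝ} (hR : IsBack h (fun t z => h t u z) s R)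
    (hR' : IsBack h (fun t z => h t v z) s R')
    (hS : IsBack h (fun t z => h t u z + h t v z) s S)
    (hch : ∀ t ∈ Icc (0 : ℝ) (1 / 2), ∀ a b, x a b ≠ 0 →
      h t a b * pr (μf t) {a, b} ≤ x a b * cf p c (x a b) t (om p c x a b)) :
    LBf p c (x u v) s (om p c x u v) ≤ S (V0 u v) 0 := by
  have hx := hh.hx
  have hxI : x u v ∈ Icc (0 : ℝ) 1 := ⟨hx.nonneg _ _, hx.le_one _ _⟩
  have hom : om p c x u v ∈ Icc 0 (c.wm * (1 - x u v)) :=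
    ⟨om_nonneg hp hc hx u v, om_le hp hc hx u v⟩
  have k1 := R_ge hh hp hc hs huv hf hv hR (fun t ht z => hch t ht u z)
  have hvu : x v u ≠ 0 := by rwa [hx.symm v u]
  have k2 := R_ge hh hp hc hs hvu hf hu hR' (fun t ht z => hch t ht v z)
  rw [hx.symm v u, om_symm hx v u, V0_comm v u] at k2
  have dec := decoupling hh hp hs u v hR hR' hS
  refine le_trans ?_ dec
  have e4 : 2 * p.B x u v * kc p.ca (p.M s) = 2 * c.n0 * om p c x u v * kc p.ca (p.M s) := by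
    unfold om
    field_simp
    rw [mul_comm, mul_div_assoc, div_self hc.n0p.ne', mul_one]
  rw [e4]
  unfold LBf
  refine mul_le_mul_of_nonneg_left ?_ (Real.exp_pos _).le
  have hb := hc.betn _ hxI s hs _ hom
  have hD := hc.Dpn _ hxI s hs
  have hl1 := lam_nonneg hp hx u v
  have hl2 := lam_nonneg hp hx v u
  have hh2 := om_le_half hp hc hx u v
  set b := bet p c (x u v) s (om p c x u v)
  set D := Dp c (x u v) s
  have m1 : (b + lam p x u v * D) * (b + lam p x v u * D) ≤ R (V0 u v) 0 * R' (V0 u v) 0 :=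
    mul_le_mul k1 k2 (add_nonneg hb (mul_nonneg hl2 hD))
      ((add_nonneg hb (mul_nonneg hl1 hD)).trans k1)
  refine le_trans ?_ m1
  have m2 : b ^ 2 + 2 * b * om p c x u v * D
      ≤ b ^ 2 + 2 * b * ((1 / 2) * (lam p x u v + lam p x v u)) * D := by
    have : b * D * om p c x u v ≤ b * D * ((1 / 2) * (lam p x u v + lam p x v u)) :=
      mul_le_mul_of_nonneg_left hh2 (mul_nonneg hb hD)
    nlinarith
  have m3 : 0 ≤ (lam p x u v * D) * (lam p x v u * D) :=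
    mul_nonneg (mul_nonneg hl1 hD) (mul_nonneg hl2 hD)
  nlinarith

end Pool.Agent.RCRSHalf
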