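import Pool.Agent.RCRSHalf.Prof

/-! The decoupling theorem for the two ends of an edge (MP_73ccd0_lc, exact 1/2). -/

namespace Pool.Agent.RCRSHalf

open Set Finset Matrix

set_option linter.unusedSectionVars false

variable {V : Type*} [Fintype V] [DecidableEq V]
variable {p : Prof} {x : V → V → ℝ} {h : ℝ → V → V → ℝ} {Hc : V → V → ℝ → ℝ}

/-- one-step influence bounds for a single vertex -/
theorem infl_one (hh : HazP p x h Hc) (hp : p.Ok) {s : ℝ} (hs : s ∈ Icc (0 : ℝ) (1 / 2))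
    {u : V} {H : Finset V} (hu : u ∉ H) {R : Finset V → ℝ → ℝ}
    (hR : IsBack h (fun t z => h t u z) s R) (n : ℕ) (hn : Fintype.card V ≤ n) :
    ∀ G ⊆ H, ∀ a ∈ G, ∀ r ∈ Icc 0 s,
      R (G.erase a) r ≤ Real.exp ((Hc u a s - Hc u a r)
        + Yf p.ca p.κa p.θ (rm x H) (Fv p.Fx x u) n (p.M s - p.M r) a) * R G r ∧
      (1 - Nf p.ca p.κa p.θ (rm x H) (Fv p.Fx x u) n (p.M s - p.M r) a) * R G r
        ≤ R (G.erase a) r := by
  intro G hG a ha r hr
  exact influence (KK := fun a r => Hc u a s - Hc u a r) (hh.haz hp hs) hp.ga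
    (Fv_nonneg hh.hx hp.F0' u) (sigma_one hp hh.hx hu) (fun t a => hh.nonneg t u a)
    (fun a _ r hr => by
      simpa using (hh.Hd u a r ⟨hr.1, hr.2.trans hs.2⟩).const_sub (Hc u a s))
    (fun a _ => sub_self _)
    (fun a _ r hr => hh.exp_le_F hp u a hr.1 hr.2 hs.2) hR n G hG
    ((Finset.card_le_univ G).trans hn) a ha r hr

/-- bound of `P` by the walk vector -/
theorem P_le_Z (hp : p.Ok) (hx : IsW x) {H : Finset V} (F : V → ℝ) (hF : ∀ a, 0 ≤ F a)
    {m : ℝ} (hm : m ∈ Icc 0 p.m1) (n : ℕ) (a : V) {P : ℝ}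
    (hP : P ≤ al p.ca m * F a + p.κa * g3 p.ca m * (rm x H *ᵥ (rm x H *ᵥ Ph p.θ (rm x H) F (n + 1))) a) :
    P ≤ al p.ca m * (Zn p.θ p.t2 (rm x H) (n + 1) *ᵥ F) a := by
  refine hP.trans ?_
  have hA := rm_nonneg hx H
  have e : (Zn p.θ p.t2 (rm x H) (n + 1) *ᵥ F) a
      = F a + p.t2 * (rm x H *ᵥ (rm x H *ᵥ Ph p.θ (rm x H) F (n + 1))) a := by
    unfold Zn Ph
    rw [Matrix.add_mulVec, Matrix.one_mulVec, Matrix.smul_mulVec, Pi.add_apply, Pi.smul_apply,
      smul_eq_mul, ← Matrix.mulVec_mulVec, ← Matrix.mulVec_mulVec]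
  rw [e]
  have h0 : 0 ≤ (rm x H *ᵥ (rm x H *ᵥ Ph p.θ (rm x H) F (n + 1))) a :=
    mulVec_nonneg hA (mulVec_nonneg hA (Ph_nonneg hp.ga.θ0 hA hF _)) a
  have := mul_le_mul_of_nonneg_right (hp.ht2 m hm) h0
  nlinarith

theorem N_le_Z (hp : p.Ok) (hx : IsW x) {H : Finset V} (F : V → ℝ) (hF : ∀ a, 0 ≤ F a)
    {m : ℝ} (hm : m ∈ Icc 0 p.m1) (n : ℕ) (a : V) :
    Nf p.ca p.κa p.θ (rm x H) F n m a
      ≤ b2 p.ca m * ((rm x H * Zn p.θ p.t1 (rm x H) (n + 1)) *ᵥ F) a := by
  have hA := rm_nonneg hx H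
  have e : ((rm x H * Zn p.θ p.t1 (rm x H) (n + 1)) *ᵥ F) a
      = (rm x H *ᵥ F) a + p.t1 * (rm x H *ᵥ (rm x H *ᵥ (rm x H *ᵥ Ph p.θ (rm x H) F (n + 1)))) a := by
    unfold Zn Ph
    rw [← Matrix.mulVec_mulVec, Matrix.add_mulVec, Matrix.one_mulVec, Matrix.smul_mulVec,
      Matrix.mulVec_add, Matrix.mulVec_smul, Pi.add_apply, Pi.smul_apply,
      smul_eq_mul, ← Matrix.mulVec_mulVec, ← Matrix.mulVec_mulVec]
  rw [e]
  have h0 : 0 ≤ (rm x H *ᵥ (rm x H *ᵥ (rm x H *ᵥ Ph p.θ (rm x H) F (n + 1)))) a :=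
    mulVec_nonneg hA (mulVec_nonneg hA (mulVec_nonneg hA (Ph_nonneg hp.ga.θ0 hA hF _))) a
  have h1 : (rm x H *ᵥ (rm x H *ᵥ (rm x H *ᵥ Ph p.θ (rm x H) F n))) a
      ≤ (rm x H *ᵥ (rm x H *ᵥ (rm x H *ᵥ Ph p.θ (rm x H) F (n + 1)))) a :=
    mulVec_mono hA (mulVec_mono hA (mulVec_mono hA (Ph_mono hp.ga.θ0 hA hF n))) a
  have h2 := mul_le_mul_of_nonneg_right (hp.ht1 m hm) h0
  have h3 := mul_le_mul_of_nonneg_left h1 (b4_nonneg hp.ga.c0 hp.ga.κ0 hm.1)
  unfold Nf
  nlinarith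

/-- product of two quantities with known relative ranges -/
theorem prod_ge {X Y R T p q n m : ℝ} (hR : 0 ≤ R) (hT : 0 ≤ T) (hp : 0 ≤ p) (hq : 0 ≤ q)
    (hn : 0 ≤ n) (hm : 0 ≤ m) (h1 : -(n * R) ≤ X) (h2 : X ≤ p * R) (h3 : -(m * T) ≤ Y)
    (h4 : Y ≤ q * T) : -((p * m + n * q) * (R * T)) ≤ X * Y := by
  have a1 : 0 ≤ p * m * (R * T) := by positivity
  have a2 : 0 ≤ n * q * (R * T) := by positivity
  rcases le_total 0 X with hX | hX <;> rcases le_total 0 Y with hY | hY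
  · nlinarith [mul_nonneg hX hY]
  · -- X ≥ 0, Y ≤ 0
    have : X * (-Y) ≤ (p * R) * (m * T) :=
      mul_le_mul h2 (by linarith) (by linarith) (by positivity)
    nlinarith
  · have : (-X) * Y ≤ (n * R) * (q * T) :=
      mul_le_mul (by linarith) h4 hY (by positivity)
    nlinarith
  · nlinarith [mul_nonneg_of_nonpos_of_nonpos hX hY]

/-- abbreviation: the functional of the profile -/
noncomputable def Prof.B (p : Prof) (x : V → V → ℝ) (u v : V) : ℝ :=
  Bf p.θ p.t1 p.t2 (Fintype.card V + 1) p.Fx x u v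

set_option maxHeartbeats 4000000 in
theorem decoupling (hh : HazP p x h Hc) (hp : p.Ok) {s : ℝ} (hs : s ∈ Icc (0 : ℝ) (1 / 2))
    (u v : V) {R R' S : Finset V → ℝ → ℝ}
    (hR : IsBack h (fun t z => h t u z) s R) (hR' : IsBack h (fun t z => h t v z) s R')
    (hS : IsBack h (fun t z => h t u z + h t v z) s S) :
    Real.exp (-(2 * p.B x u v * kc p.ca (p.M s))) * (R (V0 u v) 0 * R' (V0 u v) 0)
      ≤ S (V0 u v) 0 := by
  set n := Fintype.card V with hn
  set A := rm x (V0 u v) with hAdef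
  have hx := hh.hx
  have hA : MN A := rm_nonneg hx _
  have hrow : ∀ a, (A *ᵥ fun _ => 1) a ≤ 1 := rm_one_le hx _
  have hz := hh.haz hp hs
  have hF0u := Fv_nonneg hx hp.F0' u
  have hF0v := Fv_nonneg hx hp.F0' v
  have hσu := sigma_one hp hx (not_mem_V0_left u v)
  have hσv := sigma_one hp hx (not_mem_V0_right u v)
  have Iu := infl_one hh hp hs (not_mem_V0_left u v) hR n le_rfl
  have Iv := infl_one hh hp hs (not_mem_V0_right u v) hR' n le_rfl
  have hB0 : 0 ≤ p.B x u v := Bf_nonneg hx hp.F0' hp.ga.θ0 hp.t10 hp.t20 u v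
  have hBsymm : p.B x v u = p.B x u v := Bf_symm hx v u
  have hkey := decouple (Q := fun r => 2 * p.B x u v * kc p.ca (p.M s - p.M r))
    (Q' := fun r => -(2 * p.B x u v * (p.μ r * ((1 + p.ca * (p.M s - p.M r) ^ 3) *
      (al p.ca (p.M s - p.M r) * b2 p.ca (p.M s - p.M r))))))
    hh.nonneg (fun t a => hh.nonneg t u a) (fun t a => hh.nonneg t v a) hR hR' hS (V0 u v)
    (fun r hr => by
      have d0 : HasDerivAt (fun r => p.M s - p.M r) (-p.μ r) r := by
        simpa using (hz.Md r hr).const_sub (p.M s)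
      have d1 := ((kc_deriv p.ca (p.M s - p.M r)).comp r d0).const_mul (2 * p.B x u v)
      refine d1.congr_deriv ?_
      ring)
    (by simp [kc_zero])
    (by
      intro G hG r hr
      set m := p.M s - p.M r with hm
      have hmI : m ∈ Icc 0 p.m1 := hz.M1 r hr
      have hr2 : r ∈ Icc (0 : ℝ) (1 / 2) := ⟨hr.1, hr.2.trans hs.2⟩
      set Pu : V → ℝ := fun a => Real.exp ((Hc u a s - Hc u a r)
        + Yf p.ca p.κa p.θ A (Fv p.Fx x u) n m a) - 1 with hPu
      set Pv : V → ℝ := fun a => Real.exp ((Hc v a s - Hc v a r)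
        + Yf p.ca p.κa p.θ A (Fv p.Fx x v) n m a) - 1 with hPv
      set Nu : V → ℝ := Nf p.ca p.κa p.θ A (Fv p.Fx x u) n m with hNu
      set Nv : V → ℝ := Nf p.ca p.κa p.θ A (Fv p.Fx x v) n m with hNv
      have hHc0 : ∀ w a, 0 ≤ Hc w a s - Hc w a r := by
        intro w a
        have := nonneg_of_backward (U := fun t => Hc w a s - Hc w a t) (U' := fun t => -h t w a)
          (a := r) (s := s) (fun t ht => by
            simpa using (hh.Hd w a t ⟨hr.1.trans ht.1, ht.2.trans hs.2⟩).const_sub (Hc w a s))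
          (by simp) (fun t _ _ => by linarith [hh.nonneg t w a]) r ⟨le_rfl, hr.2⟩
        exact this
      have hPu0 : ∀ a, 0 ≤ Pu a := fun a => by
        have := Real.one_le_exp (add_nonneg (hHc0 u a) (Yf_nonneg hp.ga hA hF0u hmI n a))
        simp only [hPu]; linarith
      have hPv0 : ∀ a, 0 ≤ Pv a := fun a => by
        have := Real.one_le_exp (add_nonneg (hHc0 v a) (Yf_nonneg hp.ga hA hF0v hmI n a))
        simp only [hPv]; linarith
      have hNu0 : ∀ a, 0 ≤ Nu a := Nf_nonneg hp.ga hA hF0u hmI n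
      have hNv0 : ∀ a, 0 ≤ Nv a := Nf_nonneg hp.ga hA hF0v hmI n
      have hNu1 : ∀ a, Nu a ≤ 1 := Nf_le_one hp.ga hA hrow hσu hmI n
      have hNv1 : ∀ a, Nv a ≤ 1 := Nf_le_one hp.ga hA hrow hσv hmI n
      have hPuZ : ∀ a, Pu a ≤ al p.ca m * (Zn p.θ p.t2 A (n + 1) *ᵥ Fv p.Fx x u) a := fun a =>
        P_le_Z hp hx _ hF0u hmI n a (P_bound hp.ga hA hrow hF0u hσu hmI n a
          (hh.exp_le_F hp u a hr.1 hr.2 hs.2))
      have hPvZ : ∀ a, Pv a ≤ al p.ca m * (Zn p.θ p.t2 A (n + 1) *ᵥ Fv p.Fx x v) a := fun a =>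
        P_le_Z hp hx _ hF0v hmI n a (P_bound hp.ga hA hrow hF0v hσv hmI n a
          (hh.exp_le_F hp v a hr.1 hr.2 hs.2))
      have hNuZ : ∀ a, Nu a ≤ b2 p.ca m * ((A * Zn p.θ p.t1 A (n + 1)) *ᵥ Fv p.Fx x u) a :=
        fun a => N_le_Z hp hx _ hF0u hmI n a
      have hNvZ : ∀ a, Nv a ≤ b2 p.ca m * ((A * Zn p.θ p.t1 A (n + 1)) *ᵥ Fv p.Fx x v) a :=
        fun a => N_le_Z hp hx _ hF0v hmI n a
      have hal := al_nonneg hp.ga.c0 hmI.1
      have hb2 := b2_nonneg hp.ga.c0 hmI.1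
      have hcm : 0 ≤ p.ca * m ^ 3 := mul_nonneg hp.ga.c0 (pow_nonneg hmI.1 3)
      -- pairwise product bound
      have hpair : ∀ (w : V) (Rw : Finset V → ℝ → ℝ), IsBack h (fun t z => h t w z) s Rw →
          w ∉ V0 u v → (∀ G ⊆ V0 u v, ∀ a ∈ G, ∀ r ∈ Icc 0 s,
            Rw (G.erase a) r ≤ Real.exp ((Hc w a s - Hc w a r)
              + Yf p.ca p.κa p.θ A (Fv p.Fx x w) n (p.M s - p.M r) a) * Rw G r ∧
            (1 - Nf p.ca p.κa p.θ A (Fv p.Fx x w) n (p.M s - p.M r) a) * Rw G r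
              ≤ Rw (G.erase a) r) →
          ∀ a ∈ G, ∀ b ∈ G, a ≠ b → x a b ≠ 0 →
          Rw ((G.erase a).erase b) r - Rw G r
            ≤ (1 + p.ca * m ^ 3) * ((Real.exp ((Hc w a s - Hc w a r)
              + Yf p.ca p.κa p.θ A (Fv p.Fx x w) n m a) - 1) + (Real.exp ((Hc w b s - Hc w b r)
              + Yf p.ca p.κa p.θ A (Fv p.Fx x w) n m b) - 1)) * Rw G r ∧
          -((Nf p.ca p.κa p.θ A (Fv p.Fx x w) n m a + Nf p.ca p.κa p.θ A (Fv p.Fx x w) n m b)
            * Rw G r) ≤ Rw ((G.erase a).erase b) r - Rw G r := by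
        intro w Rw hRw hw I a ha b hb hab hxab
        have hF0w := Fv_nonneg hx hp.F0' w
        have hσw := sigma_one hp hx hw
        have hb' : b ∈ G.erase a := Finset.mem_erase.2 ⟨fun e => hab e.symm, hb⟩
        obtain ⟨i1, i2⟩ := I G hG a ha r hr
        obtain ⟨j1, j2⟩ := I (G.erase a) ((Finset.erase_subset _ _).trans hG) b hb' r hr
        rw [← hm] at i1 i2 j1 j2
        set Pa := Real.exp ((Hc w a s - Hc w a r) + Yf p.ca p.κa p.θ A (Fv p.Fx x w) n m a) - 1
          with hPa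
        set Pb := Real.exp ((Hc w b s - Hc w b r) + Yf p.ca p.κa p.θ A (Fv p.Fx x w) n m b) - 1
          with hPb
        have i1' : Rw (G.erase a) r ≤ (1 + Pa) * Rw G r := by rw [hPa]; linarith
        have j1' : Rw ((G.erase a).erase b) r ≤ (1 + Pb) * Rw (G.erase a) r := by
          rw [hPb]; linarith
        have hPa0 : 0 ≤ Pa := by
          have := Real.one_le_exp (add_nonneg (hHc0 w a) (Yf_nonneg hp.ga hA hF0w hmI n a))
          rw [hPa]; linarith
        have hPb0 : 0 ≤ Pb := by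
          have := Real.one_le_exp (add_nonneg (hHc0 w b) (Yf_nonneg hp.ga hA hF0w hmI n b))
          rw [hPb]; linarith
        have hRG := hRw.nonneg G r hr
        have hRGa := hRw.nonneg (G.erase a) r hr
        have hprod : Pa * Pb ≤ p.ca * m ^ 3 * (Pa + Pb) := by
          -- one of the two has no direct killing
          by_cases hwa : x w a = 0
          · have : Pa ≤ p.ca * m ^ 3 := by
              have e : Hc w a s - Hc w a r = 0 := by
                rw [hh.Hzero hp hwa hs, hh.Hzero hp hwa hr2, sub_zero]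
              rw [hPa, e, zero_add]
              exact P_small hp.ga hA hrow hF0w hσw hmI n a
            nlinarith
          · have hwb : x w b = 0 := hx.tri w a b hwa hxab
            have : Pb ≤ p.ca * m ^ 3 := by
              have e : Hc w b s - Hc w b r = 0 := by
                rw [hh.Hzero hp hwb hs, hh.Hzero hp hwb hr2, sub_zero]
              rw [hPb, e, zero_add]
              exact P_small hp.ga hA hrow hF0w hσw hmI n b
            nlinarith
        have hNa1 := Nf_le_one hp.ga hA hrow hσw hmI n a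
        have hNb1 := Nf_le_one hp.ga hA hrow hσw hmI n b
        have hNa0 := Nf_nonneg hp.ga hA hF0w hmI n a
        have hNb0 := Nf_nonneg hp.ga hA hF0w hmI n b
        constructor
        · have e1 : Rw ((G.erase a).erase b) r ≤ (1 + Pb) * ((1 + Pa) * Rw G r) :=
            j1'.trans (mul_le_mul_of_nonneg_left i1' (by linarith))
          have e2 := mul_le_mul_of_nonneg_right hprod hRG
          nlinarith
        · have e1 : (1 - Nf p.ca p.κa p.θ A (Fv p.Fx x w) n m b) *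
              ((1 - Nf p.ca p.κa p.θ A (Fv p.Fx x w) n m a) * Rw G r)
              ≤ Rw ((G.erase a).erase b) r :=
            (mul_le_mul_of_nonneg_left i2 (by linarith)).trans j2
          have e2 := mul_nonneg (mul_nonneg hNa0 hNb0) hRG
          nlinarith
      have pu := hpair u R hR (not_mem_V0_left u v) Iu
      have pv := hpair v R' hR' (not_mem_V0_right u v) Iv
      have hRG := hR.nonneg G r hr
      have hR'G := hR'.nonneg G r hr
      have hRR : 0 ≤ R G r * R' G r := mul_nonneg hRG hR'G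
      have hμ := hp.μ0 r hr2
      -- termwise bound
      have hterm : ∀ a ∈ G, ∀ b ∈ G,
          -(p.μ r * (1 + p.ca * m ^ 3) * (x a b * ((Pu a + Pu b) * (Nv a + Nv b))
            + x a b * ((Pv a + Pv b) * (Nu a + Nu b))) * (R G r * R' G r))
          ≤ h r a b * ((R ((G.erase a).erase b) r - R G r) * (R' ((G.erase a).erase b) r - R' G r)) := by
        intro a ha b hb
        have hxab0 := hx.nonneg a b
        have hPPu := add_nonneg (hPu0 a) (hPu0 b)
        have hPPv := add_nonneg (hPv0 a) (hPv0 b)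
        have hNNu := add_nonneg (hNu0 a) (hNu0 b)
        have hNNv := add_nonneg (hNv0 a) (hNv0 b)
        have hhab := hh.nonneg r a b
        by_cases hxab : x a b = 0
        · rw [hh.zero hp hxab hr2, hxab]; simp
        have hab : a ≠ b := fun e => hxab (by rw [e, hx.diag])
        obtain ⟨q1, q2⟩ := pu a ha b hb hab hxab
        obtain ⟨q3, q4⟩ := pv a ha b hb hab hxab
        have hc1 : 0 ≤ 1 + p.ca * m ^ 3 := by linarith
        have key := prod_ge (p := (1 + p.ca * m ^ 3) * (Pu a + Pu b))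
          (q := (1 + p.ca * m ^ 3) * (Pv a + Pv b)) (n := Nu a + Nu b) (m := Nv a + Nv b)
          hRG hR'G (mul_nonneg hc1 hPPu) (mul_nonneg hc1 hPPv) hNNu hNNv q2 q1 q4 q3
        have hle := hz.le r hr a b
        have hC : 0 ≤ ((1 + p.ca * m ^ 3) * (Pu a + Pu b) * (Nv a + Nv b)
            + (Nu a + Nu b) * ((1 + p.ca * m ^ 3) * (Pv a + Pv b))) * (R G r * R' G r) := by
          positivity
        have k1 := mul_le_mul_of_nonneg_left key hhab
        have k2 := mul_le_mul_of_nonneg_right hle hC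
        have e : -(p.μ r * (1 + p.ca * m ^ 3) * (x a b * ((Pu a + Pu b) * (Nv a + Nv b))
            + x a b * ((Pv a + Pv b) * (Nu a + Nu b))) * (R G r * R' G r))
            = -((x a b * p.μ r) * (((1 + p.ca * m ^ 3) * (Pu a + Pu b) * (Nv a + Nv b)
            + (Nu a + Nu b) * ((1 + p.ca * m ^ 3) * (Pv a + Pv b))) * (R G r * R' G r))) := by ring
        rw [e]
        rw [mul_neg] at k1
        rw [mul_comm (x a b) (p.μ r)]
        exact (neg_le_neg k2).trans k1
      have hsum : -(p.μ r * (1 + p.ca * m ^ 3) * (∑ a ∈ G, ∑ b ∈ G, x a b * ((Pu a + Pu b) * (Nv a + Nv b))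
            + ∑ a ∈ G, ∑ b ∈ G, x a b * ((Pv a + Pv b) * (Nu a + Nu b))) * (R G r * R' G r))
          ≤ ∑ a ∈ G, ∑ b ∈ G, h r a b *
            ((R ((G.erase a).erase b) r - R G r) * (R' ((G.erase a).erase b) r - R' G r)) := by
        have e : -(p.μ r * (1 + p.ca * m ^ 3) * (∑ a ∈ G, ∑ b ∈ G, x a b * ((Pu a + Pu b) * (Nv a + Nv b))
            + ∑ a ∈ G, ∑ b ∈ G, x a b * ((Pv a + Pv b) * (Nu a + Nu b))) * (R G r * R' G r))
            = ∑ a ∈ G, ∑ b ∈ G, -(p.μ r * (1 + p.ca * m ^ 3) *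
            (x a b * ((Pu a + Pu b) * (Nv a + Nv b))
            + x a b * ((Pv a + Pv b) * (Nu a + Nu b))) * (R G r * R' G r)) := by
          rw [← Finset.sum_add_distrib, Finset.mul_sum, Finset.sum_mul, ← Finset.sum_neg_distrib]
          refine Finset.sum_congr rfl fun a _ => ?_
          rw [← Finset.sum_add_distrib, Finset.mul_sum, Finset.sum_mul, ← Finset.sum_neg_distrib]
        rw [e]
        exact Finset.sum_le_sum fun a ha => Finset.sum_le_sum fun b hb => hterm a ha b hb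
      have c1 := cost_le (n := n + 1) (u := u) (v := v) hx hp.F0' hp.ga.θ0 hp.t10 hp.t20 hG hal hb2
        hPu0 hNv0 hPuZ hNvZ
      have c2 := cost_le (n := n + 1) (u := v) (v := u) (G := G) hx hp.F0' hp.ga.θ0 hp.t10 hp.t20
        (by rw [V0_comm]; exact hG) hal hb2 hPv0 hNu0 (by rw [V0_comm]; exact hPvZ)
        (by rw [V0_comm]; exact hNuZ)
      have c3 : Bf p.θ p.t1 p.t2 (n + 1) p.Fx x u v = p.B x u v := rfl
      have c4 : Bf p.θ p.t1 p.t2 (n + 1) p.Fx x v u = p.B x u v := hBsymm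
      rw [c3] at c1
      rw [c4] at c2
      have hW : 0 ≤ p.μ r * (1 + p.ca * m ^ 3) * (R G r * R' G r) :=
        mul_nonneg (mul_nonneg hμ (by linarith)) hRR
      have d1 := mul_le_mul_of_nonneg_left (add_le_add c1 c2) hW
      generalize (∑ a ∈ G, ∑ b ∈ G, x a b * ((Pu a + Pu b) * (Nv a + Nv b))) = S1 at hsum d1
      generalize (∑ a ∈ G, ∑ b ∈ G, x a b * ((Pv a + Pv b) * (Nu a + Nu b))) = S2 at hsum d1
      have e1 : -((-(-(2 * p.B x u v * (p.μ r * ((1 + p.ca * m ^ 3) *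
          (al p.ca m * b2 p.ca m)))))) * (R G r * R' G r))
          = -(p.μ r * (1 + p.ca * m ^ 3) * (R G r * R' G r) *
            (al p.ca m * b2 p.ca m * p.B x u v + al p.ca m * b2 p.ca m * p.B x u v)) := by ring
      have e2 : (1 / 2) * -(p.μ r * (1 + p.ca * m ^ 3) * (S1 + S2) * (R G r * R' G r))
          = -(p.μ r * (1 + p.ca * m ^ 3) * (R G r * R' G r) * (1 / 2 * S1 + 1 / 2 * S2)) := by ring
      rw [e1]
      linarith)
    (V0 u v) Finset.Subset.rfl 0 ⟨le_rfl, hs.1⟩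
  simpa [hp.M0] using hkey

end Pool.Agent.RCRSHalf
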