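import Pool.Agent.RCRSHalf.Inst

/-! The certificate satisfies all numerical conditions, part 2 (MP_73ccd0_lc, exact 1/2). -/

namespace Pool.Agent.RCRSHalf

set_option linter.unusedSimpArgs false
set_option linter.ambiguousOpen false

open Set Poly Poly.PE

theorem x_only {e : PE} {n : ℕ} (h : nonnegB n 0 0 e = true) {y : ℝ} (h0 : 0 ≤ y) (h1 : y ≤ 1) :
    0 ≤ eval y 0 0 e :=
  nonneg_of_check h h0 h1 le_rfl (by norm_num) le_rfl (by norm_num : (0 : ℝ) ≤ 1 / 2)

theorem xt_only {e : PE} {n m : ℕ} (h : nonnegB n m 0 e = true) {x t : ℝ}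
    (hx : x ∈ Icc (0 : ℝ) 1) (ht : t ∈ Icc (0 : ℝ) (1 / 2)) : 0 ≤ eval x t 0 e :=
  nonneg_of_check h hx.1 hx.2 ht.1 ht.2 le_rfl (by norm_num : (0 : ℝ) ≤ 1 / 2)

theorem P0_ok : P0.Ok where
  Gd x _ t _ := hasDerivAt x 0 eG t
  G0 x := by
    simp only [P0, eG, eT, eg2, ev_add', ev_mul', ev_sub', ev_q, ev_pw, ev_X, ev_T]
    norm_num
  G1 x hx t ht := G1_0 hx ht
  G'0 x hx t ht := by
    simp only [P0]
    rw [G'_0 hx ht]
    exact mul_nonneg hx.1 (dG_nonneg hx ht)
  Md t _ := hasDerivAt 0 0 eM t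
  M0 := by
    simp only [P0, eM, eT, ev_add', ev_mul', ev_sub', ev_q, ev_pw, ev_X, ev_T]
    norm_num
  μ0 t ht := M'_nonneg ht
  M1 := M1_0
  eta x hx t ht := by
    simp only [P0]
    rw [G'_0 hx ht]
    have := xt_only ck_eta hx ht
    rw [ev_sub', ev_mul', diff_indep ev_M] at this
    have h2 := mul_nonneg hx.1 this
    linarith
  GF x hx r s hr hrs hs := by
    simp only [P0]
    have hs0 : 0 ≤ s := hr.trans hrs
    have hr2 : r ≤ 1 / 2 := hrs.trans hs
    have e1 := eq_of_check ck_DG hx.1 hx.2 hr hr2 hs0 hs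
    have e2 := eq_of_check ck_DM hx.1 hx.2 hr hr2 hs0 hs
    have e3 := nonneg_of_check ck_F hx.1 hx.2 hr hr2 hs0 hs
    simp only [ev_sub', ev_mul', ev_add', eval_subS, ev_X, ev_T, ev_S, ev_q] at e1 e2 e3
    rw [ev_M x s s, ev_M x r s] at e2
    rw [ev_fh x r s] at e3
    have g1 : ∀ y t' s', eval y t' s' eG = eval y t' 0 eG := fun y t' s' => by
      simp only [eG, eT, eg2, ev_add', ev_mul', ev_sub', ev_q, ev_pw, ev_X, ev_T]
    rw [g1 x s s, g1 x r s] at e1
    rw [g1 x r s] at e3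
    rw [e1, e2]
    have h4 := mul_nonneg (mul_nonneg hx.1 (sub_nonneg.2 hrs)) e3
    push_cast at h4 ⊢
    nlinarith
  Fge y h0 h1 := by
    simp only [P0]
    have := x_only ck_F1 h0 h1
    rw [ev_sub', ev_q] at this
    push_cast at this
    nlinarith
  Fle y h0 h1 := by
    simp only [P0]
    have := x_only ck_Fb h0 h1
    rw [ev_sub', ev_q] at this
    push_cast at this
    nlinarith
  F0 := by simp [P0]
  Fb1 := by norm_num [P0]
  ρ0 := by norm_num [P0]
  hw y h0 h1 := by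
    simp only [P0]
    have := x_only ck_hw h0 h1
    have e : eval y 0 0 ew = (1 - y) * eval y 0 0 ewr := by
      simp only [ew, ev_mul', ev_sub', ev_q, ev_X]; norm_num
    rw [ev_sub', ev_pw] at this
    rw [e]
    have h2 := mul_nonneg (mul_nonneg (sq_nonneg y) (sub_nonneg.2 h1)) this
    nlinarith
  hρ y h0 h1 := by
    simp only [P0]
    have := x_only ck_hrho h0 h1
    rw [ev_sub', ev_mul', ev_pw, ev_sub', ev_q, ev_X] at this
    push_cast at this
    have h2 := mul_nonneg (sq_nonneg y) this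
    nlinarith
  hρw y h0 h1 := by
    simp only [P0]
    have := x_only ck_wr h0 h1
    have e : eval y 0 0 ew = (1 - y) * eval y 0 0 ewr := by
      simp only [ew, ev_mul', ev_sub', ev_q, ev_X]; norm_num
    rw [ev_sub', ev_q] at this
    rw [e]
    push_cast at this
    have h2 := mul_nonneg (sub_nonneg.2 h1) this
    linarith
  hcF y h0 h1 := by
    simp only [P0]
    have := x_only ck_cF h0 h1
    simp only [ev_sub', ev_mul', ev_q, ev_X] at this
    push_cast at this
    linarith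
  ga := goodA
  gb := goodB
  ht2 m hm := by
    obtain ⟨h0, h1, h2⟩ := scaled hm
    have := nonneg_of_check ck_t2 le_rfl zero_le_one h0 h1 le_rfl (by norm_num : (0 : ℝ) ≤ 1 / 2)
    simp only [ev_sub', ev_mul', ev_add', ev_q, ev_pw, h2] at this
    have h3 := mul_nonneg hm.1 this
    simp only [P0, g3, al]
    push_cast at h3
    linarith
  ht1 m hm := by
    obtain ⟨h0, h1, h2⟩ := scaled hm
    have := nonneg_of_check ck_t1 le_rfl zero_le_one h0 h1 le_rfl (by norm_num : (0 : ℝ) ≤ 1 / 2)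
    simp only [ev_sub', ev_mul', ev_add', ev_q, ev_pw, h2] at this
    have h3 := mul_nonneg (sq_nonneg m) this
    simp only [P0, b4, b2]
    push_cast at h3
    linarith
  t1θ := by norm_num [P0]
  t20 := by norm_num [P0]

/-- the further data -/
noncomputable def C0 : Cert where
  A t := eval 0 t 0 eA
  E t := eval 0 t 0 eE
  A' t := eval 0 t 0 (diff eA)
  E' t := eval 0 t 0 (diff eE)
  IG x t := eval x t 0 eIG
  IA x t := eval x t 0 eIA
  IE x t := eval x t 0 eIE
  IE' x t := eval x t 0 (diff eIE)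
  J x t := eval x t 0 (eKj * eJ0)
  J' x t := eval x t 0 (diff (eKj * eJ0))
  dn x t := eval x t 0 edn
  n0 := 136 / 100
  wm := 306 / 1000
  dm := 13 / 10
  δ := 4 / 100

theorem E_nonneg {t : ℝ} (ht : t ∈ Icc (0 : ℝ) (1 / 2)) : 0 ≤ eval 0 t 0 eE :=
  xt_only ck_E ⟨le_rfl, zero_le_one⟩ ht

theorem lin_ge {a b l ω c : ℝ} (h0 : c ≤ a) (h1 : c ≤ a + l * b) (hω0 : 0 ≤ ω) (hω : ω ≤ l) :
    c ≤ a + ω * b := by
  rcases le_total 0 b with hb | hb
  · have := mul_nonneg hω0 hb; linarith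
  · have := mul_le_mul_of_nonpos_right hω hb; linarith

theorem cf_eq (x t ω : ℝ) : cf P0 C0 x t ω = eval x t 0 ec0 + ω * eval 0 t 0 (diff eE) := by
  simp only [cf, P0, C0, ec0, ev_sub', ev_mul', ev_q, ev_X, ev_w x t 0, diff_indep ev_A x t 0]
  norm_num

theorem bet_ge {x t ω : ℝ} (hx : x ∈ Icc (0 : ℝ) 1) (ht : t ∈ Icc (0 : ℝ) (1 / 2)) :
    eval x t 0 eb0 + ω * (eval x t 0 ee - eval x t 0 ej) ≤ bet P0 C0 x t ω := by
  have hcE := xt_only ck_cE hx ht
  simp only [ev_sub', ev_mul', ev_q, ev_X] at hcE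
  have hE := E_nonneg ht
  simp only [bet, P0, C0, eb0, ee, ej, el, en0, ewm, eIE, ev_sub', ev_mul', ev_q, ev_X, ev_pw]
  rw [ev_E x t 0]
  rw [ev_w x t 0] at hcE
  have h2 := mul_nonneg (mul_nonneg (sq_nonneg x) hE) hcE
  push_cast at h2 ⊢
  nlinarith

theorem alg {b e j D k ω l : ℝ} (hb : 0 ≤ b) (he : 0 ≤ e) (hj : 0 ≤ j) (hD : 0 ≤ D) (hk : 0 ≤ k)
    (hω : 0 ≤ ω) (hωl : ω ≤ l) (hkω : 0 ≤ 1 - ω * k) :
    b ^ 2 + ω * (2 * b * (e - j + D) - 2 * l * D * j - k * b ^ 2 - 2 * l * k * b * (e + D))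
      ≤ (1 - ω * k) * ((b + ω * (e - j)) ^ 2 + 2 * (b + ω * (e - j)) * ω * D) := by
  set a := 2 * b * (e - j + D) - 2 * l * D * j with ha
  have hl : 0 ≤ l := hω.trans hωl
  have h1 : b ^ 2 + ω * a ≤ (b + ω * (e - j)) ^ 2 + 2 * (b + ω * (e - j)) * ω * D := by
    have q1 : 0 ≤ (ω * (e - j)) ^ 2 := sq_nonneg _
    have q2 : 0 ≤ ω ^ 2 * D * e := by positivity
    have q3 : 0 ≤ ω * (l - ω) * (D * j) := by
      have : 0 ≤ l - ω := by linarith
      positivity
    rw [ha]
    nlinarith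
  have h2 : (1 - ω * k) * (b ^ 2 + ω * a) ≤
      (1 - ω * k) * ((b + ω * (e - j)) ^ 2 + 2 * (b + ω * (e - j)) * ω * D) :=
    mul_le_mul_of_nonneg_left h1 hkω
  refine le_trans ?_ h2
  have h3 : a ≤ 2 * b * (e + D) := by
    have q1 : 0 ≤ b * j := by positivity
    have q2 : 0 ≤ l * D * j := by positivity
    rw [ha]; nlinarith
  have h4 : ω ^ 2 * k * a ≤ ω ^ 2 * k * (2 * b * (e + D)) :=
    mul_le_mul_of_nonneg_left h3 (by positivity)
  have h5 : ω ^ 2 * k * (2 * b * (e + D)) ≤ ω * l * k * (2 * b * (e + D)) := by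
    refine mul_le_mul_of_nonneg_right ?_ (by positivity)
    refine mul_le_mul_of_nonneg_right ?_ hk
    nlinarith
  nlinarith

theorem LB_ge {x t ω : ℝ} (hx : x ∈ Icc (0 : ℝ) 1) (ht : t ∈ Icc (0 : ℝ) (1 / 2))
    (hω : ω ∈ Icc 0 (C0.wm * (1 - x))) :
    eval x t 0 (pw eb0 2) + ω * eval x t 0 eL ≤ LBf P0 C0 x t ω ∧ 0 ≤ bet P0 C0 x t ω := by
  have hl : eval x t 0 el = C0.wm * (1 - x) := by
    simp only [el, ewm, C0, ev_sub', ev_mul', ev_q, ev_X]; norm_num
  have hE := E_nonneg ht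
  have hG := G1_0 hx ht
  have he : 0 ≤ eval x t 0 ee := by
    simp only [ee, eIE, ev_mul', ev_X, ev_E x t 0]
    exact mul_nonneg hx.1 (mul_nonneg hE (by linarith))
  have hJ0 : 0 ≤ eval x t 0 eJ0 := by
    have h1 := nonneg_of_forward (U := fun t => eval x t 0 eJ0) (U' := fun t => eval x t 0 (diff eJ0))
      (a := 0) (s := t) (fun r _ => hasDerivAt x 0 eJ0 r)
      (by simp only [eJ0, ev_add', ev_mul', ev_q, ev_pw, ev_X, ev_T]; norm_num)
      (fun r hr _ => by
        have hr' : r ∈ Icc (0 : ℝ) (1 / 2) := ⟨hr.1, hr.2.trans ht.2⟩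
        rw [eq_of_check ck_J0 hx.1 hx.2 hr'.1 hr'.2 le_rfl (by norm_num : (0 : ℝ) ≤ 1 / 2)]
        rw [ev_mul']
        refine mul_nonneg ?_ (by linarith [G1_0 hx hr'])
        simp only [eP3, ev_add', ev_mul', ev_q, ev_pw, ev_T]
        have := hr.1
        push_cast
        positivity) t ⟨ht.1, le_rfl⟩
    exact h1
  have hj : 0 ≤ eval x t 0 ej := by
    simp only [ej, en0, eKj, ev_mul', ev_q]
    push_cast
    positivity
  have hD := xt_only ck_Dp hx ht
  have hb0j := xt_only ck_b0 hx ht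
  rw [ev_sub', ev_mul', hl] at hb0j
  have hl0 : 0 ≤ C0.wm * (1 - x) := hω.1.trans hω.2
  have hb0 : 0 ≤ eval x t 0 eb0 := by
    have := mul_nonneg hl0 hj; linarith
  have hk0 : 0 ≤ eval x t 0 ek := by
    have hM0 : 0 ≤ eval x t 0 eM := by
      have := P0_ok.Mmono le_rfl ht.1 ht.2
      rw [P0_ok.M0] at this
      rw [ev_M]; exact this
    have := xt_only ck_P4 hx ht
    simp only [ev_sub', ev_add', ev_mul', ev_q, ev_pw] at this
    simp only [ek, en0, ev_mul', ev_q]
    have h2 : 0 ≤ eval x t 0 eP4 := by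
      refine le_trans ?_ (sub_nonneg.1 this)
      push_cast
      positivity
    push_cast
    positivity
  have hkl := xt_only ck_kl hx ht
  rw [ev_sub', ev_mul', ev_q, hl] at hkl
  push_cast at hkl
  have hkω : 0 ≤ 1 - ω * eval x t 0 ek := by
    have := mul_le_mul_of_nonneg_right hω.2 hk0
    linarith
  have hB : 0 ≤ eval x t 0 eb0 + ω * (eval x t 0 ee - eval x t 0 ej) := by
    have q1 := mul_nonneg hω.1 he
    have q2 := mul_le_mul_of_nonneg_right hω.2 hj
    linarith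
  have hbet := bet_ge (ω := ω) hx ht
  have hbet0 := hB.trans hbet
  refine ⟨?_, hbet0⟩
  have key := alg hb0 he hj hD hk0 hω.1 hω.2 hkω
  have e1 : eval x t 0 (pw eb0 2) + ω * eval x t 0 eL = eval x t 0 eb0 ^ 2 + ω *
      (2 * eval x t 0 eb0 * (eval x t 0 ee - eval x t 0 ej + eval x t 0 eDp)
        - 2 * (C0.wm * (1 - x)) * eval x t 0 eDp * eval x t 0 ej - eval x t 0 ek * eval x t 0 eb0 ^ 2
        - 2 * (C0.wm * (1 - x)) * eval x t 0 ek * eval x t 0 eb0
          * (eval x t 0 ee + eval x t 0 eDp)) := by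
    simp only [eL, ev_add', ev_sub', ev_mul', ev_pw, ev_q, hl]
    push_cast
    ring
  rw [e1]
  refine key.trans ?_
  unfold LBf
  have hexp : 1 - ω * eval x t 0 ek ≤ Real.exp (-(2 * C0.n0 * ω * kc P0.ca (P0.M t))) := by
    have h1 := Real.add_one_le_exp (-(2 * C0.n0 * ω * kc P0.ca (P0.M t)))
    have h2 : kc P0.ca (P0.M t) ≤ eval x t 0 eP4 := by
      have := xt_only ck_P4 hx ht
      simp only [ev_sub', ev_add', ev_mul', ev_q, ev_pw, ev_M x t 0] at this
      simp only [kc, P0]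
      push_cast at this
      linarith
    have h3 : 2 * C0.n0 * ω * kc P0.ca (P0.M t) ≤ ω * eval x t 0 ek := by
      have e2 : eval x t 0 ek = 2 * C0.n0 * eval x t 0 eP4 := by
        simp only [ek, en0, C0, ev_mul', ev_q]; norm_num
      rw [e2]
      have h4 : 0 ≤ 2 * C0.n0 * ω := by
        have := hω.1
        simp only [C0]
        positivity
      have := mul_le_mul_of_nonneg_left h2 h4
      linarith
    linarith
  have hDp : Dp C0 x t = eval x t 0 eDp := by
    simp only [Dp, C0, eDp, ev_add', ev_sub']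
  rw [hDp]
  have hω0 := hω.1
  refine mul_le_mul hexp ?_ (by positivity) (Real.exp_pos _).le
  have h6 := pow_le_pow_left₀ hB hbet 2
  have h7 : 2 * (eval x t 0 eb0 + ω * (eval x t 0 ee - eval x t 0 ej)) * ω * eval x t 0 eDp
      ≤ 2 * bet P0 C0 x t ω * ω * eval x t 0 eDp := by
    refine mul_le_mul_of_nonneg_right (mul_le_mul_of_nonneg_right ?_ hω0) hD
    linarith
  linarith

theorem C0_ok : C0.Ok P0 where
  Ad t := hasDerivAt 0 0 eA t
  Ed t := hasDerivAt 0 0 eE t
  A0 := by simp only [C0, eA, ev_mul', ev_sub', ev_q, ev_pw, ev_T]; norm_num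
  E0 := by simp only [C0, eE, ev_mul', ev_sub', ev_add', ev_q, ev_pw, ev_T]; norm_num
  A'c := continuous_eval 0 0 (diff eA)
  E'c := continuous_eval 0 0 (diff eE)
  Gc x _ := continuous_eval x 0 eG
  G'c x _ := continuous_eval x 0 (diff eG)
  IGd x hx t ht := by
    have h1 := hasDerivAt x 0 eIG t
    rw [eq_of_check ck_IG hx.1 hx.2 ht.1 ht.2 le_rfl (by norm_num : (0 : ℝ) ≤ 1 / 2)] at h1
    exact h1
  IAd x hx t ht := by
    have h1 := hasDerivAt x 0 eIA t
    rw [eq_of_check ck_IA hx.1 hx.2 ht.1 ht.2 le_rfl (by norm_num : (0 : ℝ) ≤ 1 / 2), ev_mul',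
      diff_indep ev_A] at h1
    exact h1
  IEd x _ t _ := hasDerivAt x 0 eIE t
  IE'ge x hx t ht := by
    have e1 : eval x t 0 (diff eIE) = eval x t 0 (diff eE) * eval x t 0 eG
        + eval x t 0 eE * eval x t 0 (diff eG) := rfl
    simp only [C0, P0]
    rw [e1, diff_indep ev_E x t 0, ev_E x t 0, G'_0 hx ht]
    have := mul_nonneg (E_nonneg ht) (mul_nonneg hx.1 (dG_nonneg hx ht))
    linarith
  Jd x _ t _ := hasDerivAt x 0 (eKj * eJ0) t
  IG0 x := by simp only [C0, eIG, ev_add', ev_mul', ev_q, ev_pw, ev_X, ev_T]; norm_num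
  IA0 x := by simp only [C0, eIA, ev_add', ev_mul', ev_q, ev_pw, ev_X, ev_T]; norm_num
  IE0 x := by simp only [C0, eIE, eE, ev_add', ev_mul', ev_sub', ev_q, ev_pw, ev_X, ev_T]; norm_num
  J0 x := by simp only [C0, eJ0, ev_add', ev_mul', ev_q, ev_pw, ev_X, ev_T]; norm_num
  IGn x hx t ht := xt_only ck_IGn hx ht
  IEn x hx t ht := by
    simp only [C0, eIE, ev_mul', ev_E x t 0]
    exact mul_nonneg (E_nonneg ht) (by linarith [G1_0 hx ht])
  dnn x hx t ht := by
    simp only [C0, edn, ev_mul', ev_q, ev_X, ev_T, ev_pw]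
    have := hx.1
    have := ht.1
    push_cast
    positivity
  Dpn x hx t ht := by
    have := xt_only ck_Dp hx ht
    simp only [Dp, C0]
    simp only [eDp, ev_add', ev_sub'] at this
    exact this
  J'ge x hx t ht := by
    have e1 : eval x t 0 (diff (eKj * eJ0)) = eval x t 0 (diff eKj) * eval x t 0 eJ0
        + eval x t 0 eKj * eval x t 0 (diff eJ0) := rfl
    have e2 : eval x t 0 (diff eKj) = 0 := by
      have : ∀ x t s, eval x t s (diff eKj) = 0 := by
        intro x t s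
        have e : diff eKj = add (mul (add (mul (c 0 1) (q 112 100)) (mul (q 13 10) (c 0 1)))
          (q 1107 1000)) (mul (q 13 10 * q 112 100) (c 0 1)) := rfl
        rw [e]
        simp [eval]
      exact this _ _ _
    simp only [C0, P0]
    rw [e1, e2, zero_mul, zero_add,
      eq_of_check ck_J0 hx.1 hx.2 ht.1 ht.2 le_rfl (by norm_num : (0 : ℝ) ≤ 1 / 2), ev_mul']
    have hP3 := xt_only ck_P3 hx ht
    simp only [ev_sub', ev_add', ev_mul', ev_q, ev_pw, ev_M x t 0] at hP3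
    have hG := G1_0 hx ht
    have h1 : g3 (175 / 1000) (eval 0 t 0 eM) ≤ eval x t 0 eP3 := by
      unfold g3
      push_cast at hP3
      linarith
    have hK : eval x t 0 eKj = 112 / 100 * (13 / 10) * (1107 / 1000) := by
      simp only [eKj, ev_mul', ev_q]; norm_num
    rw [hK]
    have h2 := mul_le_mul_of_nonneg_right h1 (by linarith : 0 ≤ eval x t 0 eG)
    nlinarith
  n0p := by norm_num [C0]
  n0z := by norm_num [C0, P0, nz]
  wm0 y hy := by
    have := x_only ck_wm hy.1 hy.2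
    simp only [ewm, ev_sub', ev_mul', ev_q, ev_X] at this
    simp only [P0, C0]
    push_cast at this
    linarith
  δp := by norm_num [C0]
  cfn x hx t ht ω hω := by
    rw [cf_eq]
    have h1 := xt_only ck_cf1 hx ht
    have h2 := xt_only ck_cf2 hx ht
    have hl : eval x t 0 el = C0.wm * (1 - x) := by
      simp only [el, ewm, C0, ev_sub', ev_mul', ev_q, ev_X]; norm_num
    rw [ev_sub', ev_q] at h1 h2
    rw [ev_add', ev_mul', hl, diff_indep ev_E] at h2
    push_cast at h1 h2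
    exact lin_ge (by linarith) (by linarith) hω.1 hω.2
  cfd x hx t ht ω hω := by
    rw [cf_eq]
    have h1 := xt_only ck_cf3 hx ht
    have h2 := xt_only ck_cf4 hx ht
    have hl : eval x t 0 el = C0.wm * (1 - x) := by
      simp only [el, ewm, C0, ev_sub', ev_mul', ev_q, ev_X]; norm_num
    simp only [ev_sub', ev_q, ev_mul', hl, diff_indep ev_E x t 0] at h1 h2
    push_cast at h1 h2
    have h3 := lin_ge (a := 13 / 10 - eval x t 0 ec0) (b := -eval 0 t 0 (diff eE)) (c := 0)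
      (by linarith) (by linarith) hω.1 hω.2
    simp only [C0]
    linarith
  betn x hx t ht ω hω := (LB_ge hx ht hω).2
  C1 x hx t ht ω hω := by
    rw [cf_eq]
    refine le_trans ?_ (LB_ge hx ht hω).1
    have h1 := xt_only ck_C1a hx ht
    have h2 := xt_only ck_C1b hx ht
    have hl : eval x t 0 el = C0.wm * (1 - x) := by
      simp only [el, ewm, C0, ev_sub', ev_mul', ev_q, ev_X]; norm_num
    have hq : eval x t 0 eqq = (1 - t) ^ 2 := by
      simp only [eqq, ev_pw, ev_sub', ev_q, ev_T]; norm_num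
    simp only [ev_sub', ev_add', ev_mul', hl, hq, diff_indep ev_E x t 0] at h1 h2
    have h3 := lin_ge (a := eval x t 0 (pw eb0 2) - (1 - t) ^ 2 * eval x t 0 ec0)
      (b := eval x t 0 eL - (1 - t) ^ 2 * eval 0 t 0 (diff eE)) (c := 0) h1 h2 hω.1 hω.2
    linarith
  C2 x hx t ht ω hω := by
    rw [cf_eq]
    have h0 := (LB_ge hx ht hω).1
    have hdG := dG_nonneg hx ht
    have h1 := xt_only ck_C2a hx ht
    have h2 := xt_only ck_C2b hx ht
    have hl : eval x t 0 el = C0.wm * (1 - x) := by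
      simp only [el, ewm, C0, ev_sub', ev_mul', ev_q, ev_X]; norm_num
    simp only [ev_sub', ev_add', ev_mul', hl, diff_indep ev_E x t 0] at h1 h2
    have h3 := lin_ge (a := eval x t 0 edG * eval x t 0 (pw eb0 2)
        - eval x t 0 ec0 * eval x t 0 (pw eG 2))
      (b := eval x t 0 edG * eval x t 0 eL - eval 0 t 0 (diff eE) * eval x t 0 (pw eG 2)) (c := 0)
      h1 h2 hω.1 hω.2
    rw [ev_pw x t 0 eG] at h3
    have h4 := mul_le_mul_of_nonneg_left h0 hdG
    have h5 : (eval x t 0 ec0 + ω * eval 0 t 0 (diff eE)) * eval x t 0 eG ^ 2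
        ≤ eval x t 0 edG * LBf P0 C0 x t ω := by
      refine le_trans ?_ h4
      linarith
    have h6 := mul_le_mul_of_nonneg_left h5 hx.1
    simp only [P0]
    rw [G'_0 hx ht]
    simp only [P0] at h6
    linarith
  C3 x hx t ht ω hω := by
    have h0 : (1 - t) ^ 2 * cf P0 C0 x t ω ≤ LBf P0 C0 x t ω := by
      rw [cf_eq]
      refine le_trans ?_ (LB_ge hx ht hω).1
      have h1 := xt_only ck_C1a hx ht
      have h2 := xt_only ck_C1b hx ht
      have hl : eval x t 0 el = C0.wm * (1 - x) := by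
        simp only [el, ewm, C0, ev_sub', ev_mul', ev_q, ev_X]; norm_num
      have hq : eval x t 0 eqq = (1 - t) ^ 2 := by
        simp only [eqq, ev_pw, ev_sub', ev_q, ev_T]; norm_num
      simp only [ev_sub', ev_add', ev_mul', hl, hq, diff_indep ev_E x t 0] at h1 h2
      have h3 := lin_ge (a := eval x t 0 (pw eb0 2) - (1 - t) ^ 2 * eval x t 0 ec0)
        (b := eval x t 0 eL - (1 - t) ^ 2 * eval 0 t 0 (diff eE)) (c := 0) h1 h2 hω.1 hω.2
      linarith
    refine le_trans ?_ h0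
    have h1 := xt_only ck_cf1 hx ht
    have h2 := xt_only ck_cf2 hx ht
    have hl : eval x t 0 el = C0.wm * (1 - x) := by
      simp only [el, ewm, C0, ev_sub', ev_mul', ev_q, ev_X]; norm_num
    rw [ev_sub', ev_q] at h1 h2
    rw [ev_add', ev_mul', hl, diff_indep ev_E] at h2
    push_cast at h1 h2
    have h3 : 4 / 10 ≤ cf P0 C0 x t ω := by
      rw [cf_eq]
      exact lin_ge (by linarith) (by linarith) hω.1 hω.2
    have h4 := xt_only ck_G25 hx ht
    rw [ev_sub', ev_q] at h4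
    push_cast at h4
    have h5 : (1 / 4 : ℝ) ≤ (1 - t) ^ 2 := by nlinarith [ht.1, ht.2]
    have h6 : (1 / 4 : ℝ) * (4 / 10) ≤ (1 - t) ^ 2 * cf P0 C0 x t ω :=
      mul_le_mul h5 h3 (by norm_num) (by positivity)
    simp only [C0, P0] at *
    linarith

end Pool.Agent.RCRSHalf
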