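import Pool.Agent.RCRSHalf.Cert

/-! Construction of the hazards (MP_73ccd0_lc, exact 1/2). -/

namespace Pool.Agent.RCRSHalf

open Set Finset Matrix

set_option linter.unusedSectionVars false

/-- clamp to `[0, 1/2]` -/
noncomputable def clh (t : ℝ) : ℝ := max 0 (min (1 / 2) t)

theorem clh_mem (t : ℝ) : clh t ∈ Icc (0 : ℝ) (1 / 2) :=
  ⟨le_max_left _ _, max_le (by norm_num) (min_le_left _ _)⟩

theorem clh_of_mem {t : ℝ} (ht : t ∈ Icc (0 : ℝ) (1 / 2)) : clh t = t := by
  unfold clh
  rw [min_eq_right ht.2, max_eq_right ht.1]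

theorem continuous_clh : Continuous clh := by unfold clh; fun_prop

theorem bdd_clh {f : ℝ → ℝ} (hf : ContinuousOn f (Icc (0 : ℝ) (1 / 2))) :
    ∃ C, ∀ t, |f (clh t)| ≤ C := by
  obtain ⟨C, hC⟩ := isCompact_Icc.exists_bound_of_continuousOn hf
  exact ⟨C, fun t => by simpa using hC _ (clh_mem t)⟩

theorem cont_clh {f : ℝ → ℝ} (hf : ContinuousOn f (Icc (0 : ℝ) (1 / 2))) :
    Continuous fun t => f (clh t) :=
  hf.comp_continuous continuous_clh clh_mem

variable {V : Type*} [Fintype V] [DecidableEq V]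

/-- coordinatewise clamp -/
noncomputable def clv (y : Finset V → ℝ) (F : Finset V) : ℝ := max 0 (min 1 (y F))

theorem UBL.pr (W : Finset V) : UBL fun (_ : ℝ) (y : Finset V → ℝ) => pr (clv y) W := by
  unfold RCRSHalf.pr clv
  exact UBL.sum _ fun F _ => (UBL.coord F).mul (UBL.const _)

/-- the nonlinear hazards -/
noncomputable def hzf (p : Prof) (c : Cert) (x : V → V → ℝ) (t : ℝ) (y : Finset V → ℝ) (a b : V) :
    ℝ :=
  min (p.G' (x a b) (clh t) / p.G (x a b) (clh t))
    ((x a b * cf p c (x a b) (clh t) (om p c x a b)) * (max (pr (clv y) {a, b}) c.δ)⁻¹)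

section

variable {p : Prof} {c : Cert} {x : V → V → ℝ}

theorem cf_cont (hc : c.Ok p) (y ω : ℝ) : Continuous fun t => cf p c y t ω := by
  have h1 := hc.A'c
  have h2 := hc.E'c
  unfold cf
  fun_prop

theorem hzf_symm (hx : IsW x) (t : ℝ) (y : Finset V → ℝ) (a b : V) :
    hzf p c x t y a b = hzf p c x t y b a := by
  unfold hzf
  rw [hx.symm a b, om_symm hx a b, Finset.pair_comm a b]

theorem hzf_nonneg (hp : p.Ok) (hc : c.Ok p) (hx : IsW x) (t : ℝ) (y : Finset V → ℝ) (a b : V) :
    0 ≤ hzf p c x t y a b := by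
  have hxI : x a b ∈ Icc (0 : ℝ) 1 := ⟨hx.nonneg _ _, hx.le_one _ _⟩
  have ht := clh_mem t
  unfold hzf
  refine le_min (div_nonneg (hp.G'0 _ hxI _ ht) (by linarith [hp.G1 _ hxI _ ht])) ?_
  refine mul_nonneg (mul_nonneg hxI.1 (hc.cfn _ hxI _ ht _
    ⟨om_nonneg hp hc hx a b, om_le hp hc hx a b⟩)) (inv_nonneg.2 ?_)
  exact hc.δp.le.trans (le_max_right _ _)

theorem hzf_ubl (hp : p.Ok) (hc : c.Ok p) (hx : IsW x) (a b : V) :
    UBL fun t y => hzf p c x t y a b := by
  have hxI : x a b ∈ Icc (0 : ℝ) 1 := ⟨hx.nonneg _ _, hx.le_one _ _⟩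
  unfold hzf
  refine UBL.min ?_ (UBL.mul ?_ ((UBL.pr _).inv hc.δp))
  · have hcont : ContinuousOn (fun t => p.G' (x a b) t / p.G (x a b) t) (Icc (0 : ℝ) (1 / 2)) :=
      (hc.G'c _ hxI).continuousOn.div (hc.Gc _ hxI).continuousOn
        (fun t ht => by linarith [hp.G1 _ hxI t ht])
    obtain ⟨C, hC⟩ := bdd_clh hcont
    exact UBL.ofTime (cont_clh hcont) hC
  · have hcont : ContinuousOn (fun t => x a b * cf p c (x a b) t (om p c x a b))
        (Icc (0 : ℝ) (1 / 2)) := ((cf_cont hc _ _).const_mul _).continuousOn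
    obtain ⟨C, hC⟩ := bdd_clh hcont
    exact UBL.ofTime (cont_clh hcont) hC

theorem clv_law {h : ℝ → V → V → ℝ} {U : Finset V} {μ : ℝ → Finset V → ℝ}
    (hμ : IsLaw h U (1 / 2) μ) {t : ℝ} (ht : t ∈ Icc (0 : ℝ) (1 / 2)) : clv (μ t) = μ t := by
  funext F
  have h0 := hμ.nonneg F t ht
  have h1 : μ t F ≤ 1 := by
    rw [← hμ.total t ht]
    exact Finset.single_le_sum (f := fun F => μ t F) (fun G _ => hμ.nonneg G t ht)
      (Finset.mem_univ F)
  unfold clv
  rw [min_eq_right h1, max_eq_right h0]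

/-- existence of the hazards with the prescribed selection densities -/
theorem exists_hazards (hp : p.Ok) (hc : c.Ok p) (hx : IsW x) :
    ∃ (h : ℝ → V → V → ℝ) (Hc : V → V → ℝ → ℝ) (μf : ℝ → Finset V → ℝ),
      HazP p x h Hc ∧ IsLaw h Finset.univ (1 / 2) μf ∧
      ∀ t ∈ Icc (0 : ℝ) (1 / 2), ∀ u v, x u v ≠ 0 →
        h t u v * pr (μf t) {u, v} = x u v * cf p c (x u v) t (om p c x u v) ∧
        0 < pr (μf t) {u, v} ∧
        (1 - t) ^ 2 * cf p c (x u v) t (om p c x u v)
          ≤ Real.exp (Hc u v t) * pr (μf t) {u, v} := by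
  obtain ⟨μf, hμ0, hμc⟩ := exists_law (hz := fun t y a b => hzf p c x t y a b)
    (hzf_ubl hp hc hx) (hzf_nonneg hp hc hx) Finset.univ (T := 1 / 2) ⟨by norm_num, by norm_num⟩
  -- the hazards
  set h : ℝ → V → V → ℝ := fun t a b => hzf p c x t (μf (clh t)) a b with hh
  have hdef : ∀ t a b, h t a b = hzf p c x t (μf (clh t)) a b := fun _ _ _ => rfl
  have hf : IsLaw h Finset.univ (1 / 2) μf :=
    ⟨hμ0.start, fun F t ht => by
      have := hμ0.deriv F t ht
      simp only [hh, clh_of_mem ht]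
      exact this, hμ0.nonneg, hμ0.total⟩
  have hxI : ∀ a b, x a b ∈ Icc (0 : ℝ) 1 := fun a b => ⟨hx.nonneg _ _, hx.le_one _ _⟩
  have hom : ∀ a b, om p c x a b ∈ Icc 0 (c.wm * (1 - x a b)) := fun a b =>
    ⟨om_nonneg hp hc hx a b, om_le hp hc hx a b⟩
  have hprc : ∀ W : Finset V, Continuous fun t => pr (clv (μf (clh t))) W := by
    intro W
    unfold pr clv
    refine continuous_finsetSum _ fun F _ => ?_
    have := hμc F
    have h2 : Continuous fun t => μf (clh t) F := this
    exact (continuous_const.max (continuous_const.min h2)).mul continuous_const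
  have hcont : ∀ a b, Continuous fun t => h t a b := by
    intro a b
    simp only [hh]
    unfold hzf
    refine Continuous.min ?_ (Continuous.mul ?_ ?_)
    · have hcont : ContinuousOn (fun t => p.G' (x a b) t / p.G (x a b) t) (Icc (0 : ℝ) (1 / 2)) :=
        (hc.G'c _ (hxI a b)).continuousOn.div (hc.Gc _ (hxI a b)).continuousOn
          (fun t ht => by linarith [hp.G1 _ (hxI a b) t ht])
      exact cont_clh hcont
    · have hcont : ContinuousOn (fun t => x a b * cf p c (x a b) t (om p c x a b))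
        (Icc (0 : ℝ) (1 / 2)) := ((cf_cont hc _ _).const_mul _).continuousOn
      exact cont_clh hcont
    · refine Continuous.inv₀ ((hprc _).max continuous_const) fun t => ?_
      exact (hc.δp.trans_le (le_max_right _ _)).ne'
  have hbdd : ∃ C, ∀ t a b, h t a b ≤ C := by
    have h1 : ∀ a b, ∃ C, ∀ t, h t a b ≤ C := by
      intro a b
      obtain ⟨K, C, _, _, _, hb⟩ := (hzf_ubl (p := p) (c := c) hp hc hx a b).ex
      exact ⟨C, fun t => (le_abs_self _).trans (hb t _)⟩
    choose C hC using h1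
    refine ⟨∑ a, ∑ b, |C a b|, fun t a b => (hC a b t).trans ((le_abs_self _).trans ?_)⟩
    refine (Finset.single_le_sum (f := fun b => |C a b|) (fun _ _ => abs_nonneg _)
      (Finset.mem_univ b)).trans ?_
    exact Finset.single_le_sum (f := fun a => ∑ b, |C a b|)
      (fun _ _ => Finset.sum_nonneg fun _ _ => abs_nonneg _) (Finset.mem_univ a)
  set Hc : V → V → ℝ → ℝ := fun a b t => ∫ τ in (0 : ℝ)..t, h τ a b with hHc
  have hhaz : HazP p x h Hc := by
    refine ⟨hx, fun t a b => hzf_symm hx _ _ _ _, fun t a => ?_,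
      fun t a b => hzf_nonneg hp hc hx _ _ _ _, hcont, hbdd, fun t ht a b => ?_,
      fun a b t _ => ?_, fun a b => ?_⟩
    · refine le_antisymm ?_ (hzf_nonneg hp hc hx _ _ _ _)
      refine (min_le_right _ _).trans (le_of_eq ?_)
      rw [hx.diag]; ring
    · simp only [hh]
      have e := clh_of_mem ht
      unfold hzf
      rw [e]
      exact min_le_left _ _
    · simp only [hHc]
      exact intervalIntegral.integral_hasDerivAt_right ((hcont a b).intervalIntegrable _ _)
        ((hcont a b).stronglyMeasurableAtFilter _ _) (hcont a b).continuousAt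
    · simp [hHc]
  -- the selection rates never exceed the target
  have hch : ∀ t ∈ Icc (0 : ℝ) (1 / 2), ∀ a b, x a b ≠ 0 →
      h t a b * pr (μf t) {a, b} ≤ x a b * cf p c (x a b) t (om p c x a b) := by
    intro t ht a b _
    have e := clh_of_mem ht
    have hpr0 := hf.pr_nonneg {a, b} ht
    have hcf := mul_nonneg (hxI a b).1 (hc.cfn _ (hxI a b) t ht _ (hom a b))
    have h1 : h t a b ≤ (x a b * cf p c (x a b) t (om p c x a b)) *
        (max (pr (μf t) {a, b}) c.δ)⁻¹ := by
      simp only [hh]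
      unfold hzf
      rw [e, clv_law hf ht]
      exact min_le_right _ _
    have hm : 0 < max (pr (μf t) {a, b}) c.δ := hc.δp.trans_le (le_max_right _ _)
    have h2 : (max (pr (μf t) {a, b}) c.δ)⁻¹ * pr (μf t) {a, b} ≤ 1 := by
      rw [inv_mul_le_iff₀ hm, mul_one]
      exact le_max_left _ _
    calc h t a b * pr (μf t) {a, b}
        ≤ (x a b * cf p c (x a b) t (om p c x a b)) * (max (pr (μf t) {a, b}) c.δ)⁻¹
          * pr (μf t) {a, b} := mul_le_mul_of_nonneg_right h1 hpr0
      _ = (x a b * cf p c (x a b) t (om p c x a b)) *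
          ((max (pr (μf t) {a, b}) c.δ)⁻¹ * pr (μf t) {a, b}) := by ring
      _ ≤ (x a b * cf p c (x a b) t (om p c x a b)) * 1 := mul_le_mul_of_nonneg_left h2 hcf
      _ = _ := mul_one _
  refine ⟨h, Hc, μf, hhaz, hf, fun t ht u v huv => ?_⟩
  have huv' : u ≠ v := fun e => huv (by rw [e, hx.diag])
  -- laws without an end point
  have hlin : ∀ w : V, ∃ μ : ℝ → Finset V → ℝ, IsLaw h (Finset.univ.erase w) (1 / 2) μ := by
    intro w
    obtain ⟨C, hC⟩ := hbdd
    obtain ⟨μ, hμ, _⟩ := exists_law (hz := fun t (_ : Finset V → ℝ) a b => h t a b)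
      (fun a b => UBL.ofTime (hcont a b) (C := |C|) fun t => by
        rw [abs_of_nonneg (hhaz.nonneg t a b)]; exact (hC t a b).trans (le_abs_self C))
      (fun t _ a b => hhaz.nonneg t a b) (Finset.univ.erase w) (T := 1 / 2)
      ⟨by norm_num, by norm_num⟩
    exact ⟨μ, hμ⟩
  obtain ⟨μu, hu⟩ := hlin u
  obtain ⟨μv, hv⟩ := hlin v
  obtain ⟨R, hR⟩ := exists_back_pair hhaz {u} ht
  obtain ⟨R', hR'⟩ := exists_back_pair hhaz {v} ht
  obtain ⟨S, hS⟩ := exists_back_pair hhaz {u, v} ht
  have hRs : IsBack h (fun t z => h t u z) t R := by simpa using hR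
  have hRs' : IsBack h (fun t z => h t v z) t R' := by simpa using hR'
  have hSs : IsBack h (fun t z => h t u z + h t v z) t S := by
    have e : (fun t z => h t u z + h t v z) = fun t z => ∑ w ∈ ({u, v} : Finset V), h t w z := by
      funext t z
      rw [Finset.sum_pair huv']
    rw [e]; exact hS
  have hSge := S_ge hhaz hp hc ht huv hf hu hv hRs hRs' hSs hch
  have hdual := duality hhaz.symm hf (W := {u, v}) (Finset.subset_univ _) ht hS
    (Hi := Hc u v) (by
      intro r hr
      refine (hhaz.Hd u v r ⟨hr.1, hr.2.trans ht.2⟩).congr_deriv ?_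
      rw [Finset.sum_pair huv', Finset.sum_pair huv', Finset.sum_pair huv', hhaz.diag, hhaz.diag,
        hhaz.symm r v u]
      ring)
  have eV : (Finset.univ : Finset V) \ {u, v} = V0 u v := rfl
  rw [eV, hhaz.H0, sub_zero] at hdual
  have hexp := hhaz.exp_le hp u v le_rfl ht.1 ht.2
  rw [hhaz.H0, sub_zero, hp.G0, div_one] at hexp
  have hG1 := hp.G1 _ (hxI u v) t ht
  have hGpos : 0 < p.G (x u v) t := by linarith
  have hLB := hc.C3 _ (hxI u v) t ht _ (hom u v)
  have hδG : 0 < c.δ * p.G (x u v) t := mul_pos hc.δp hGpos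
  have hSpos : 0 < S (V0 u v) 0 := lt_of_lt_of_le (lt_of_lt_of_le hδG hLB) hSge
  have hprS : Real.exp (Hc u v t) * pr (μf t) {u, v} = S (V0 u v) 0 := by
    rw [hdual, ← mul_assoc, ← Real.exp_add, add_neg_cancel, Real.exp_zero, one_mul]
  have hppos : 0 < pr (μf t) {u, v} := by
    rw [hdual]; exact mul_pos (Real.exp_pos _) hSpos
  -- LB ≤ G * p
  have hGp : LBf p c (x u v) t (om p c x u v) ≤ p.G (x u v) t * pr (μf t) {u, v} := by
    refine hSge.trans ?_
    rw [← hprS]
    exact mul_le_mul_of_nonneg_right hexp hppos.le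
  have hpδ : c.δ ≤ pr (μf t) {u, v} := by
    have h1 : c.δ * p.G (x u v) t ≤ pr (μf t) {u, v} * p.G (x u v) t := by
      rw [mul_comm (pr (μf t) {u, v})]; exact hLB.trans hGp
    exact le_of_mul_le_mul_right h1 hGpos
  refine ⟨?_, hppos, ?_⟩
  · -- the minimum is attained by the second term
    have e := clh_of_mem ht
    have hh2 : h t u v = (x u v * cf p c (x u v) t (om p c x u v)) * (pr (μf t) {u, v})⁻¹ := by
      simp only [hh]
      unfold hzf
      rw [e, clv_law hf ht, max_eq_left hpδ]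
      refine min_eq_right ?_
      rw [← div_eq_mul_inv, div_le_div_iff₀ hppos hGpos]
      have h2 := hc.C2 _ (hxI u v) t ht _ (hom u v)
      have h3 := mul_le_mul_of_nonneg_left hGp (hp.G'0 _ (hxI u v) t ht)
      have h4 : (x u v * cf p c (x u v) t (om p c x u v) * p.G (x u v) t) * p.G (x u v) t
          ≤ (p.G' (x u v) t * pr (μf t) {u, v}) * p.G (x u v) t := by
        calc _ = x u v * cf p c (x u v) t (om p c x u v) * p.G (x u v) t ^ 2 := by ring
          _ ≤ _ := h2
          _ ≤ _ := h3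
          _ = _ := by ring
      exact le_of_mul_le_mul_right h4 hGpos
    rw [hh2, mul_assoc, inv_mul_cancel₀ hppos.ne', mul_one]
  · rw [hprS]
    exact (hc.C1 _ (hxI u v) t ht _ (hom u v)).trans hSge

end

end Pool.Agent.RCRSHalf
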