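import Pool.Agent.RCRSHalf.RingEq
import Pool.Agent.RCRSHalf.Main

/-! Uniqueness for the hierarchy of free probabilities, and the hierarchy for the law of the
matching process after a change of time (MP_73ccd0_lc, exact 1/2). -/

set_option linter.unusedSectionVars false

namespace Pool.Agent.RCRSHalf

open MeasureTheory Set

section Uniq

variable {ι V : Type*} [Fintype ι] [DecidableEq ι] [Fintype V] [DecidableEq V] (en : ι → Finset V)

/-- the integral hierarchy -/
def Hier (h : ι → ℝ → ℝ) (X : Finset V → ℝ → ℝ) : Prop :=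
  ∀ W, ∀ s ∈ Icc (0:ℝ) 1, X W s = 1 - ∑ f ∈ Finset.univ.filter (fun f => ¬ Disjoint (en f) W),
    ∫ t in Ico 0 s, h f t * X (W ∪ en f) t

theorem hier_unique {h : ι → ℝ → ℝ} {C : ℝ} (hC0 : 0 ≤ C) (hC : ∀ f t, |h f t| ≤ C)
    {X Y : Finset V → ℝ → ℝ} (hX : Hier en h X) (hY : Hier en h Y)
    (hXi : ∀ f W, ∀ s ∈ Icc (0:ℝ) 1, IntegrableOn (fun t => h f t * X W t) (Ico 0 s))
    (hYi : ∀ f W, ∀ s ∈ Icc (0:ℝ) 1, IntegrableOn (fun t => h f t * Y W t) (Ico 0 s))
    (hb : ∀ W, ∀ s ∈ Icc (0:ℝ) 1, |X W s - Y W s| ≤ 2) :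
    ∀ W, ∀ s ∈ Icc (0:ℝ) 1, X W s = Y W s := by
  set K : ℝ := Fintype.card ι * C with hK
  have hK0 : 0 ≤ K := by positivity
  have key : ∀ n : ℕ, ∀ W, ∀ s ∈ Icc (0:ℝ) 1, |X W s - Y W s| ≤ 2 * (K * s) ^ n / n.factorial := by
    intro n
    induction n with
    | zero => intro W s hs; simpa using hb W s hs
    | succ n ih =>
      intro W s hs
      have e1 : X W s - Y W s = -∑ f ∈ Finset.univ.filter (fun f => ¬ Disjoint (en f) W),
          ∫ t in Ico 0 s, h f t * (X (W ∪ en f) t - Y (W ∪ en f) t) := by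
        rw [hX W s hs, hY W s hs]
        rw [sub_sub_sub_cancel_left, ← Finset.sum_sub_distrib, ← Finset.sum_neg_distrib]
        refine Finset.sum_congr rfl fun f _ => ?_
        rw [← integral_sub (hYi f _ s hs) (hXi f _ s hs), ← integral_neg]
        refine integral_congr_ae (Filter.Eventually.of_forall fun t => ?_)
        simp only []
        ring
      rw [e1, abs_neg]
      refine (Finset.abs_sum_le_sum_abs _ _).trans ?_
      have hterm : ∀ f ∈ Finset.univ.filter (fun f => ¬ Disjoint (en f) W),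
          |∫ t in Ico 0 s, h f t * (X (W ∪ en f) t - Y (W ∪ en f) t)|
          ≤ C * (2 * K ^ n / n.factorial) * (s ^ (n + 1) / (n + 1)) := by
        intro f _
        have hint : ∫ t in Ico 0 s, C * (2 * K ^ n / n.factorial) * t ^ n
            = C * (2 * K ^ n / n.factorial) * (s ^ (n + 1) / (n + 1)) := by
          rw [integral_const_mul, integral_Ico_eq_integral_Ioc,
            ← intervalIntegral.integral_of_le hs.1, integral_pow]
          simp
        rw [← hint, ← Real.norm_eq_abs]
        refine norm_integral_le_of_norm_le ?_ ?_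
        · have : IntegrableOn (fun t : ℝ => C * (2 * K ^ n / n.factorial) * t ^ n) (Icc 0 s) :=
            (by fun_prop : Continuous fun t : ℝ => C * (2 * K ^ n / n.factorial) * t ^ n)
              |>.continuousOn.integrableOn_Icc
          exact this.mono_set Ico_subset_Icc_self
        · filter_upwards [ae_restrict_mem measurableSet_Ico] with t ht
          have ht1 : t ∈ Icc (0:ℝ) 1 := ⟨ht.1, ht.2.le.trans hs.2⟩
          rw [Real.norm_eq_abs, abs_mul]
          have h1 := ih (W ∪ en f) t ht1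
          calc |h f t| * |X (W ∪ en f) t - Y (W ∪ en f) t|
              ≤ C * (2 * (K * t) ^ n / n.factorial) :=
                mul_le_mul (hC f t) h1 (abs_nonneg _) hC0
            _ = _ := by rw [mul_pow]; ring
      refine (Finset.sum_le_sum hterm).trans ?_
      rw [Finset.sum_const, nsmul_eq_mul]
      have hcard : ((Finset.univ.filter (fun f => ¬ Disjoint (en f) W)).card : ℝ)
          ≤ Fintype.card ι := by
        exact_mod_cast Finset.card_le_univ _
      have hnn : 0 ≤ C * (2 * K ^ n / n.factorial) * (s ^ (n + 1) / (n + 1)) := by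
        have := hs.1
        positivity
      refine (mul_le_mul_of_nonneg_right hcard hnn).trans (le_of_eq ?_)
      rw [Nat.factorial_succ]
      push_cast
      rw [hK]
      have h1 : (n.factorial : ℝ) ≠ 0 := by positivity
      have h2 : (n : ℝ) + 1 ≠ 0 := by positivity
      field_simp
      ring
  intro W s hs
  have hlim : Filter.Tendsto (fun n : ℕ => 2 * (K * s) ^ n / n.factorial) Filter.atTop (nhds 0) := by
    have := (FloorSemiring.tendsto_pow_div_factorial_atTop (K * s)).const_mul 2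
    simpa [mul_div_assoc] using this
  have h0 : |X W s - Y W s| ≤ 0 := ge_of_tendsto' hlim fun n => key n W s hs
  have := abs_nonpos_iff.1 h0
  linarith

end Uniq

/-- change of time -/
noncomputable def sg (t : ℝ) : ℝ := t / (1 + t)

theorem sg_zero : sg 0 = 0 := by simp [sg]

theorem sg_one : sg 1 = 1 / 2 := by norm_num [sg]

theorem sg_mem {t : ℝ} (ht : t ∈ Icc (0:ℝ) 1) : sg t ∈ Icc (0:ℝ) (1 / 2) := by
  have h1 : 0 < 1 + t := by linarith [ht.1]
  refine ⟨div_nonneg ht.1 h1.le, ?_⟩
  unfold sg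
  rw [div_le_iff₀ h1]
  linarith [ht.2]

theorem one_sub_sg {t : ℝ} (ht : t ∈ Icc (0:ℝ) 1) : (1 - sg t) ^ 2 = 1 / (1 + t) ^ 2 := by
  have h1 : 1 + t ≠ 0 := by linarith [ht.1]
  unfold sg
  field_simp
  ring

theorem sg_deriv {t : ℝ} (ht : t ∈ Icc (0:ℝ) 1) : HasDerivAt sg (1 / (1 + t) ^ 2) t := by
  have h1 : 1 + t ≠ 0 := by linarith [ht.1]
  have h2 := (hasDerivAt_id' t).div ((hasDerivAt_id' t).const_add 1) h1
  refine h2.congr_deriv ?_
  field_simp
  ring

theorem sg_contOn : ContinuousOn sg (Icc 0 1) := fun _ ht => (sg_deriv ht).continuousAt.continuousWithinAt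

section Law

variable {V : Type*} [Fintype V] [DecidableEq V]

/-- integrated flux identity in the physical time -/
theorem law_hier {h : ℝ → V → V → ℝ} (hcont : ∀ a b, Continuous fun t => h t a b)
    {μ : ℝ → Finset V → ℝ} (hμ : IsLaw h Finset.univ (1 / 2) μ) (W : Finset V) {s : ℝ}
    (hs : s ∈ Icc (0:ℝ) 1) :
    pr (μ (sg s)) W = 1 - ∫ t in Ico 0 s, (1 / 2) * ∑ a, ∑ b, if a ∈ W ∨ b ∈ W then
      (h (sg t) a b * (1 / (1 + t) ^ 2)) * pr (μ (sg t)) (insert a (insert b W)) else 0 := by
  set g : ℝ → ℝ := fun t => (1 / 2) * ∑ a, ∑ b, if a ∈ W ∨ b ∈ W then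
      (h (sg t) a b * (1 / (1 + t) ^ 2)) * pr (μ (sg t)) (insert a (insert b W)) else 0 with hg
  have hd : ∀ t ∈ Icc (0:ℝ) 1, HasDerivAt (fun t => pr (μ (sg t)) W) (-g t) t := by
    intro t ht
    have h1 := (hμ.deriv_pr W (sg_mem ht)).comp t (sg_deriv ht)
    refine h1.congr_deriv ?_
    simp only [hg]
    rw [neg_mul, mul_assoc, Finset.sum_mul]
    congr 2
    refine Finset.sum_congr rfl fun a _ => ?_
    rw [Finset.sum_mul]
    refine Finset.sum_congr rfl fun b _ => ?_
    split_ifs <;> ring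
  have hprc : ∀ W : Finset V, ContinuousOn (fun t => pr (μ (sg t)) W) (Icc 0 1) := fun W t ht =>
    ((hμ.deriv_pr W (sg_mem ht)).comp t (sg_deriv ht)).continuousAt.continuousWithinAt
  have hgc : ContinuousOn g (Icc 0 1) := by
    refine continuousOn_const.mul (continuousOn_finsetSum _ fun a _ =>
      continuousOn_finsetSum _ fun b _ => ?_)
    split_ifs
    · refine ContinuousOn.mul (ContinuousOn.mul ?_ ?_) (hprc _)
      · exact (hcont a b).comp_continuousOn sg_contOn
      · refine continuousOn_const.div (by fun_prop) fun t ht => ?_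
        have : 0 < 1 + t := by linarith [ht.1]
        positivity
    · exact continuousOn_const
  have hsub : Icc 0 s ⊆ Icc (0:ℝ) 1 := Icc_subset_Icc_right hs.2
  have hFTC := intervalIntegral.integral_eq_sub_of_hasDerivAt (a := 0) (b := s)
    (f := fun t => pr (μ (sg t)) W) (f' := fun t => -g t)
    (fun t ht => hd t (hsub (by rwa [uIcc_of_le hs.1] at ht)))
    ((hgc.mono hsub).neg.intervalIntegrable_of_Icc hs.1)
  rw [intervalIntegral.integral_neg] at hFTC
  have h0 : pr (μ (sg 0)) W = 1 := by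
    rw [sg_zero, hμ.pr_start, if_pos (Finset.subset_univ _)]
  rw [integral_Ico_eq_integral_Ioc, ← intervalIntegral.integral_of_le hs.1]
  simp only [h0] at hFTC
  linarith

end Law

end Pool.Agent.RCRSHalf
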