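import Pool.Agent.RCRSHalf.Pairs
import Pool.Agent.RCRSHalf.Uniq
import Pool.Agent.RCRSHalf.Inst2

/-! The scheme (MP_73ccd0_lc, exact 1/2). -/

set_option linter.unusedSectionVars false

namespace Pool.Agent.RCRSHalf

open MeasureTheory Set Pool.Agent.RCRS

/-- ring law of an item that never rings before time one -/
theorem ringLaw_dirac : RingLaw (Measure.dirac (2:ℝ)) (fun _ => 0) (fun _ => 0) where
  dens B hB hBs := by
    have h2 : (2:ℝ) ∉ B := fun h => by have := (hBs h).2; norm_num at this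
    have : Measure.dirac (2:ℝ) B = 0 := by
      rw [Measure.dirac_apply' _ hB, Set.indicator_of_notMem h2]
    unfold Measure.real
    rw [this]; simp
  neg := by
    rw [Measure.dirac_apply' _ measurableSet_Iio, Set.indicator_of_notMem]
    simp
  surv τ _ := by simp
  h_meas := measurable_const
  h_nonneg _ := le_rfl
  φ_nonneg _ := le_rfl
  h_int := integrableOn_zero
  φ_int := integrableOn_zero

section Final

variable {V : Type} [Fintype V] [DecidableEq V] {G : SimpleGraph V} [Fintype G.edgeSet]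
  [DecidableEq G.edgeSet] (x : G.edgeSet → ℝ)
  (h : ℝ → V → V → ℝ) (Hc : V → V → ℝ → ℝ)

/-- hazard of an edge in the physical time -/
noncomputable def hp0 (e : G.edgeSet) (t : ℝ) : ℝ := h (sg t) (fe e) (se e) * (1 / (1 + t) ^ 2)

/-- cumulative hazard of an edge in the physical time -/
noncomputable def Hp (e : G.edgeSet) (t : ℝ) : ℝ := Hc (fe e) (se e) (clh (sg t))

/-- acceptance probability of an edge -/
noncomputable def acc (e : G.edgeSet) : ℝ → ℝ :=
  cut fun t => hp0 h e t * Real.exp (-Hp Hc e t) / x e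

variable {x h Hc} {p : Prof}

theorem clh_sg {t : ℝ} (ht : t ∈ Icc (0:ℝ) 1) : clh (sg t) = sg t := clh_of_mem (sg_mem ht)

theorem measurable_sg : Measurable sg := by
  unfold sg
  exact measurable_id.div (measurable_const.add measurable_id)

theorem measurable_hp0 (hh : HazP p (xw x) h Hc) (e : G.edgeSet) : Measurable (hp0 h e) := by
  unfold hp0
  refine ((hh.cont (fe e) (se e)).measurable.comp measurable_sg).mul ?_
  exact measurable_const.div ((measurable_const.add measurable_id).pow_const 2)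

theorem Hc_cont (hh : HazP p (xw x) h Hc) (a b : V) :
    Continuous fun t => Hc a b (clh t) :=
  cont_clh fun t ht => (hh.Hd a b t ht).continuousAt.continuousWithinAt

theorem measurable_Hp (hh : HazP p (xw x) h Hc) (e : G.edgeSet) : Measurable (Hp Hc e) := by
  unfold Hp
  exact (Hc_cont hh (fe e) (se e)).measurable.comp measurable_sg

theorem hp0_cont (hh : HazP p (xw x) h Hc) (e : G.edgeSet) : ContinuousOn (hp0 h e) (Icc 0 1) := by
  unfold hp0
  refine ContinuousOn.mul ((hh.cont _ _).comp_continuousOn sg_contOn) ?_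
  refine continuousOn_const.div (by fun_prop) fun t ht => ?_
  have : 0 < 1 + t := by linarith [ht.1]
  positivity

theorem hp0_nonneg (hh : HazP p (xw x) h Hc) (e : G.edgeSet) (t : ℝ) : 0 ≤ hp0 h e t :=
  mul_nonneg (hh.nonneg _ _ _) (by positivity)

theorem Hc_deriv (hh : HazP p (xw x) h Hc) (e : G.edgeSet) {t : ℝ} (ht : t ∈ Icc (0:ℝ) 1) :
    HasDerivAt (fun t => Hc (fe e) (se e) (sg t)) (hp0 h e t) t :=
  (hh.Hd (fe e) (se e) (sg t) (sg_mem ht)).comp t (sg_deriv ht)

/-- integral of the hazard -/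
theorem int_hp0 (hh : HazP p (xw x) h Hc) (e : G.edgeSet) {τ : ℝ} (hτ : τ ∈ Icc (0:ℝ) 1) :
    ∫ t in Ico 0 τ, cut (hp0 h e) t = Hc (fe e) (se e) (sg τ) := by
  rw [integral_cut _ hτ.2, integral_Ico_eq_integral_Ioc, ← intervalIntegral.integral_of_le hτ.1]
  have hsub : Icc 0 τ ⊆ Icc (0:ℝ) 1 := Icc_subset_Icc_right hτ.2
  rw [intervalIntegral.integral_eq_sub_of_hasDerivAt
    (f := fun t => Hc (fe e) (se e) (sg t))
    (fun t ht => Hc_deriv hh e (hsub (by rwa [uIcc_of_le hτ.1] at ht)))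
    (((hp0_cont hh e).mono hsub).intervalIntegrable_of_Icc hτ.1)]
  simp only [sg_zero, hh.H0, sub_zero]

/-- the density -/
theorem int_dens (hh : HazP p (xw x) h Hc) (e : G.edgeSet) {τ : ℝ} (hτ : τ ∈ Icc (0:ℝ) 1) :
    ∫ t in Ico 0 τ, hp0 h e t * Real.exp (-Hp Hc e t)
      = 1 - Real.exp (-Hc (fe e) (se e) (sg τ)) := by
  have hsub : Icc 0 τ ⊆ Icc (0:ℝ) 1 := Icc_subset_Icc_right hτ.2
  have e1 : ∫ t in Ico 0 τ, hp0 h e t * Real.exp (-Hp Hc e t)
      = ∫ t in Ico 0 τ, hp0 h e t * Real.exp (-Hc (fe e) (se e) (sg t)) :=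
    setIntegral_congr_fun measurableSet_Ico fun t ht => by
      have : t ∈ Icc (0:ℝ) 1 := ⟨ht.1, ht.2.le.trans hτ.2⟩
      simp only [Hp, clh_sg this]
  rw [e1, integral_Ico_eq_integral_Ioc, ← intervalIntegral.integral_of_le hτ.1]
  have hc : ContinuousOn (fun t => Hc (fe e) (se e) (sg t)) (Icc 0 1) := fun t ht =>
    (Hc_deriv hh e ht).continuousAt.continuousWithinAt
  have hFTC := intervalIntegral.integral_eq_sub_of_hasDerivAt (a := 0) (b := τ)
    (f := fun t => -Real.exp (-Hc (fe e) (se e) (sg t)))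
    (f' := fun t => hp0 h e t * Real.exp (-Hc (fe e) (se e) (sg t)))
    (fun t ht => by
      have h1 := (Hc_deriv hh e (hsub (by rwa [uIcc_of_le hτ.1] at ht))).neg.exp.neg
      refine h1.congr_deriv ?_
      show -(Real.exp (-Hc (fe e) (se e) (sg t)) * -hp0 h e t) = _
      ring)
    (ContinuousOn.intervalIntegrable_of_Icc hτ.1 (((hp0_cont hh e).mono hsub).mul
      (Real.continuous_exp.comp_continuousOn (hc.mono hsub).neg)))
  rw [hFTC]
  simp only [sg_zero, hh.H0]
  simp
  ring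

variable (hp : p.Ok)
include hp

/-- weight times acceptance probability -/
theorem mul_acc (hh : HazP p (xw x) h Hc) (e : G.edgeSet) {t : ℝ} (ht : t ∈ Ico (0:ℝ) 1) :
    x e * acc x h Hc e t = hp0 h e t * Real.exp (-Hp Hc e t) := by
  unfold acc
  rw [cut_of_mem ht]
  by_cases hx : x e = 0
  · have h0 : hp0 h e t = 0 := by
      unfold hp0
      rw [hh.zero hp (by rw [xw_rep]; exact hx) (sg_mem ⟨ht.1, ht.2.le⟩), zero_mul]
    rw [h0]; simp
  · field_simp

/-- the acceptance probabilities are at most one -/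
theorem acc_le_one (hh : HazP p (xw x) h Hc) {c : Cert} {μf : ℝ → Finset V → ℝ}
    (hx0 : ∀ e, 0 ≤ x e)
    (hprop : ∀ t ∈ Icc (0 : ℝ) (1 / 2), ∀ u v, xw x u v ≠ 0 →
        h t u v * pr (μf t) {u, v} = xw x u v * cf p c (xw x u v) t (om p c (xw x) u v) ∧
        0 < pr (μf t) {u, v} ∧
        (1 - t) ^ 2 * cf p c (xw x u v) t (om p c (xw x) u v)
          ≤ Real.exp (Hc u v t) * pr (μf t) {u, v}) (e : G.edgeSet) (t : ℝ) :
    0 ≤ acc x h Hc e t ∧ acc x h Hc e t ≤ 1 := by
  unfold acc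
  by_cases ht : t ∈ Ico (0:ℝ) 1
  · rw [cut_of_mem ht]
    refine ⟨div_nonneg (mul_nonneg (hp0_nonneg hh e t) (Real.exp_pos _).le) (hx0 e), ?_⟩
    by_cases hx : x e = 0
    · rw [hx, div_zero]; exact zero_le_one
    have ht' : t ∈ Icc (0:ℝ) 1 := ⟨ht.1, ht.2.le⟩
    have hxe : 0 < x e := lt_of_le_of_ne (hx0 e) (Ne.symm hx)
    obtain ⟨h1, h2, h3⟩ := hprop (sg t) (sg_mem ht') (fe e) (se e) (by rw [xw_rep]; exact hx)
    rw [div_le_one hxe]
    rw [xw_rep] at h1 h3
    unfold hp0 Hp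
    rw [clh_sg ht', ← one_sub_sg ht']
    set P := pr (μf (sg t)) {fe e, se e}
    set H := Hc (fe e) (se e) (sg t)
    set q := (1 - sg t) ^ 2
    set cc := cf p c (x e) (sg t) (om p c (xw x) (fe e) (se e))
    have hE : Real.exp H * Real.exp (-H) = 1 := by
      rw [← Real.exp_add, add_neg_cancel, Real.exp_zero]
    have h4 : (h (sg t) (fe e) (se e) * q * Real.exp (-H)) * P ≤ x e * P := by
      calc (h (sg t) (fe e) (se e) * q * Real.exp (-H)) * P
          = x e * (q * cc) * Real.exp (-H) := by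
            calc _ = (h (sg t) (fe e) (se e) * P) * q * Real.exp (-H) := by ring
              _ = _ := by rw [h1]; ring
        _ ≤ x e * (Real.exp H * P) * Real.exp (-H) := by
            refine mul_le_mul_of_nonneg_right (mul_le_mul_of_nonneg_left h3 hxe.le)
              (Real.exp_pos _).le
        _ = x e * P * (Real.exp H * Real.exp (-H)) := by ring
        _ = x e * P := by rw [hE, mul_one]
    exact le_of_mul_le_mul_right h4 h2
  · unfold cut
    rw [Set.indicator_of_notMem ht]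
    exact ⟨le_rfl, zero_le_one⟩

theorem acc_measurable (hh : HazP p (xw x) h Hc) (e : G.edgeSet) :
    Measurable (acc x h Hc e) := by
  unfold acc
  exact measurable_cut (((measurable_hp0 hh e).mul
    (Real.measurable_exp.comp (measurable_Hp hh e).neg)).div_const (x e))

/-- ring law of an edge -/
theorem ringLaw_edge' (hh : HazP p (xw x) h Hc) (hx0 : ∀ e, 0 ≤ x e) (e : G.edgeSet)
    (hacc : ∀ t, 0 ≤ acc x h Hc e t ∧ acc x h Hc e t ≤ 1) :
    RingLaw (mixture (x e) (acc x h Hc e)) (fun t => x e * acc x h Hc e t)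
      (cut (hp0 h e)) := by
  refine ringLaw_mixture (hx0 e) (acc_measurable hp hh e) (fun t => (hacc t).1)
    (fun t => (hacc t).2) (measurable_cut (measurable_hp0 hh e)) (fun t => ?_) ?_ (fun τ hτ => ?_)
  · unfold cut
    exact Set.indicator_nonneg (fun t _ => hp0_nonneg hh e t) t
  · have h2 : IntegrableOn (hp0 h e) (Ico 0 1) :=
      (hp0_cont hh e).integrableOn_Icc.mono_set Ico_subset_Icc_self
    refine h2.congr_fun (fun t ht => ?_) measurableSet_Ico
    rw [cut_of_mem ht]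
  · rw [int_hp0 hh e hτ, ← int_dens hh e hτ]
    exact setIntegral_congr_fun measurableSet_Ico fun t ht =>
      mul_acc hp hh e ⟨ht.1, ht.2.trans_le hτ.2⟩

/-- all hazards -/
noncomputable def hzI (h : ℝ → V → V → ℝ) : G.edgeSet ⊕ V → ℝ → ℝ :=
  Sum.elim (fun e => cut (hp0 h e)) (fun _ _ => 0)

/-- all densities -/
noncomputable def dnI (x : G.edgeSet → ℝ) (h : ℝ → V → V → ℝ) (Hc : V → V → ℝ → ℝ) :
    G.edgeSet ⊕ V → ℝ → ℝ :=
  Sum.elim (fun e t => x e * acc x h Hc e t) (fun _ _ => 0)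

/-- all laws -/
noncomputable def lwI (x : G.edgeSet → ℝ) (h : ℝ → V → V → ℝ) (Hc : V → V → ℝ → ℝ) :
    G.edgeSet ⊕ V → Measure ℝ :=
  laws (acc x h Hc) x (fun _ => Measure.dirac 2)

theorem ringLawI (hh : HazP p (xw x) h Hc) (hx0 : ∀ e, 0 ≤ x e)
    (hacc : ∀ e t, 0 ≤ acc x h Hc e t ∧ acc x h Hc e t ≤ 1) (i : G.edgeSet ⊕ V) :
    RingLaw (lwI x h Hc i) (dnI x h Hc i) (hzI h i) := by
  rcases i with e | v
  · exact ringLaw_edge' hp hh hx0 e (hacc e)
  · exact ringLaw_dirac

theorem dn_eq (hh : HazP p (xw x) h Hc) (i : G.edgeSet ⊕ V) {t : ℝ} (ht : t ∈ Ico (0:ℝ) 1) :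
    dnI x h Hc i t = hzI h i t * Real.exp (-∫ q in Ico 0 t, hzI h i q) := by
  rcases i with e | v
  · simp only [dnI, hzI, Sum.elim_inl]
    rw [mul_acc hp hh e ht, int_hp0 hh e ⟨ht.1, ht.2.le⟩, cut_of_mem ht]
    unfold Hp
    rw [clh_sg ⟨ht.1, ht.2.le⟩]
  · simp [dnI, hzI]

end Final

end Pool.Agent.RCRSHalf
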