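import Pool.Agent.RCRSHalf.Walk

/-! The walk functional `B(u,v)` and its inequalities (MP_73ccd0_lc, exact 1/2). -/

namespace Pool.Agent.RCRSHalf

open Finset Matrix

set_option linter.unusedSectionVars false

variable {V : Type*} [Fintype V] [DecidableEq V]

/-- symmetric triangle-free substochastic weights -/
structure IsW (x : V → V → ℝ) : Prop where
  symm : ∀ a b, x a b = x b a
  nonneg : ∀ a b, 0 ≤ x a b
  diag : ∀ a, x a a = 0
  row : ∀ a, ∑ b, x a b ≤ 1
  tri : ∀ a b c, x a b ≠ 0 → x b c ≠ 0 → x a c = 0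

/-- restriction of the weights to a set -/
noncomputable def rm (x : V → V → ℝ) (H : Finset V) : Matrix V V ℝ :=
  fun a b => if a ∈ H ∧ b ∈ H then x a b else 0

/-- indicator of the neighbourhood -/
noncomputable def chi (x : V → V → ℝ) (v b : V) : ℝ := if x v b = 0 then 0 else 1

section rmlemmas

variable {x : V → V → ℝ}

theorem IsW.le_one (hx : IsW x) (a b : V) : x a b ≤ 1 :=
  (Finset.single_le_sum (f := fun b => x a b) (fun c _ => hx.nonneg a c) (Finset.mem_univ b)).trans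
    (hx.row a)

theorem rm_nonneg (hx : IsW x) (H : Finset V) : MN (rm x H) := fun a b => by
  unfold rm; split_ifs; exacts [hx.nonneg a b, le_rfl]

theorem rm_symm (hx : IsW x) (H : Finset V) : (rm x H)ᵀ = rm x H := by
  ext a b
  simp only [Matrix.transpose_apply, rm]
  rw [hx.symm b a]
  simp only [and_comm]

theorem rm_mono (hx : IsW x) {H K : Finset V} (h : H ⊆ K) : ML (rm x H) (rm x K) := fun a b => by
  unfold rm
  by_cases h1 : a ∈ H ∧ b ∈ H
  · rw [if_pos h1, if_pos ⟨h h1.1, h h1.2⟩]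
  · rw [if_neg h1]; split_ifs; exacts [hx.nonneg a b, le_rfl]

theorem rm_le (hx : IsW x) (H : Finset V) (a b : V) : rm x H a b ≤ x a b := by
  unfold rm; split_ifs; exacts [le_rfl, hx.nonneg a b]

theorem rm_mulVec (H : Finset V) (y : V → ℝ) {a : V} (ha : a ∈ H) :
    (rm x H *ᵥ y) a = ∑ b ∈ H, x a b * y b := by
  simp only [Matrix.mulVec, dotProduct, rm]
  rw [← Finset.sum_subset (Finset.subset_univ H)]
  · exact Finset.sum_congr rfl fun b hb => by rw [if_pos ⟨ha, hb⟩]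
  · intro b _ hb
    rw [if_neg (fun h => hb h.2), zero_mul]

theorem rm_mulVec_out (H : Finset V) (y : V → ℝ) {a : V} (ha : a ∉ H) :
    (rm x H *ᵥ y) a = 0 := by
  simp only [Matrix.mulVec, dotProduct, rm]
  exact Finset.sum_eq_zero fun b _ => by rw [if_neg (fun h => ha h.1), zero_mul]

theorem chi_nonneg (v b : V) : 0 ≤ chi x v b := by unfold chi; split_ifs <;> norm_num

theorem chi_le_one (v b : V) : chi x v b ≤ 1 := by unfold chi; split_ifs <;> norm_num

/-- row sums -/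
theorem rm_one_le (hx : IsW x) (H : Finset V) (a : V) : (rm x H *ᵥ fun _ => 1) a ≤ 1 := by
  simp only [Matrix.mulVec, dotProduct, mul_one]
  exact (Finset.sum_le_sum fun b _ => rm_le hx H a b).trans (hx.row a)

theorem rm_one_nonneg (hx : IsW x) (H : Finset V) (a : V) : 0 ≤ (rm x H *ᵥ fun _ => 1) a :=
  mulVec_nonneg (rm_nonneg hx H) (fun _ => zero_le_one) a

theorem rm_one_le_sub (hx : IsW x) {H : Finset V} {u : V} (hu : u ∉ H) (a : V) :
    (rm x H *ᵥ fun _ => 1) a ≤ 1 - x u a := by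
  simp only [Matrix.mulVec, dotProduct, mul_one]
  have h1 : ∑ b, rm x H a b ≤ ∑ b ∈ Finset.univ.erase u, x a b := by
    rw [← Finset.sum_erase_add _ _ (Finset.mem_univ u)]
    have : rm x H a u = 0 := by unfold rm; rw [if_neg (fun h => hu h.2)]
    rw [this, add_zero]
    exact Finset.sum_le_sum fun b _ => rm_le hx H a b
  have h2 : ∑ b ∈ Finset.univ.erase u, x a b + x a u = ∑ b, x a b :=
    Finset.sum_erase_add _ _ (Finset.mem_univ u)
  have h3 := hx.row a
  rw [hx.symm u a]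
  linarith

theorem rm_exc (hx : IsW x) (H : Finset V) (a : V) :
    (rm x H *ᵥ (rm x H *ᵥ fun _ => 1)) a ≤ (rm x H *ᵥ fun _ => 1) a :=
  mulVec_mono (rm_nonneg hx H) (rm_one_le hx H) a

/-- the key combinatorial inequality for triangle-free weights -/
theorem rm_key (hx : IsW x) (H : Finset V) (v a : V) :
    ((rm x H + rm x H * rm x H) *ᵥ chi x v) a ≤ (rm x H *ᵥ fun _ => 1) a := by
  rw [Matrix.add_mulVec, ← Matrix.mulVec_mulVec, ← Matrix.mulVec_add]
  refine mulVec_mono (rm_nonneg hx H) (fun c => ?_) a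
  rw [Pi.add_apply]
  by_cases hc : x v c = 0
  · have : chi x v c = 0 := by unfold chi; rw [if_pos hc]
    rw [this, zero_add]
    refine le_trans (mulVec_mono (rm_nonneg hx H) (fun b => chi_le_one v b) c) (rm_one_le hx H c)
  · have h1 : (rm x H *ᵥ chi x v) c = 0 := by
      simp only [Matrix.mulVec, dotProduct]
      refine Finset.sum_eq_zero fun b _ => ?_
      unfold rm chi
      by_cases hb : x v b = 0
      · rw [if_pos hb, mul_zero]
      · have : x c b = 0 := by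
          apply hx.tri c v b _ hb
          rw [hx.symm c v]; exact hc
        rw [this]; simp
    rw [h1, add_zero]
    exact chi_le_one v c

end rmlemmas

section B

variable {x : V → V → ℝ} {Fx : ℝ → ℝ} {θ t1 t2 : ℝ} {n : ℕ}

/-- the vector `F(x_u)` -/
noncomputable def Fv (Fx : ℝ → ℝ) (x : V → V → ℝ) (u : V) : V → ℝ := fun a => Fx (x u a)

/-- the universe without `u, v` -/
def V0 (u v : V) : Finset V := Finset.univ \ {u, v}

/-- the walk functional -/
noncomputable def Bf (θ t1 t2 : ℝ) (n : ℕ) (Fx : ℝ → ℝ) (x : V → V → ℝ) (u v : V) : ℝ :=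
  Fv Fx x u ⬝ᵥ (Wn θ t1 t2 (rm x (V0 u v)) n *ᵥ Fv Fx x v)

theorem V0_comm (u v : V) : V0 u v = V0 v u := by
  unfold V0; rw [Finset.pair_comm]

theorem not_mem_V0_left (u v : V) : u ∉ V0 u v := by simp [V0]

theorem not_mem_V0_right (u v : V) : v ∉ V0 u v := by simp [V0]

theorem mem_V0 {u v a : V} : a ∈ V0 u v ↔ a ≠ u ∧ a ≠ v := by simp [V0]

theorem Bf_symm (hx : IsW x) (u v : V) :
    Bf θ t1 t2 n Fx x u v = Bf θ t1 t2 n Fx x v u := by
  unfold Bf
  rw [V0_comm v u, Matrix.dotProduct_mulVec, ← Matrix.mulVec_transpose, Wn_symm (rm_symm hx _),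
    dotProduct_comm]

theorem Fv_nonneg (hx : IsW x) (hF : ∀ y, 0 ≤ y → y ≤ 1 → 0 ≤ Fx y) (u a : V) :
    0 ≤ Fv Fx x u a := hF _ (hx.nonneg _ _) (hx.le_one _ _)

theorem Bf_nonneg (hx : IsW x) (hF : ∀ y, 0 ≤ y → y ≤ 1 → 0 ≤ Fx y) (hθ : 0 ≤ θ) (h1 : 0 ≤ t1)
    (h2 : 0 ≤ t2) (u v : V) : 0 ≤ Bf θ t1 t2 n Fx x u v := by
  unfold Bf
  refine Finset.sum_nonneg fun a _ => mul_nonneg (Fv_nonneg hx hF u a) ?_
  exact mulVec_nonneg (Wn_nonneg hθ h1 h2 (rm_nonneg hx _) n) (Fv_nonneg hx hF v) a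

/-- the walk matrix applied to the indicator of a neighbourhood -/
theorem Wn_chi (hx : IsW x) (hθ : 0 ≤ θ) (hθ1 : θ < 1) (h1 : 0 ≤ t1) (h2 : 0 ≤ t2) (H : Finset V)
    (v a : V) : (Wn θ t1 t2 (rm x H) n *ᵥ chi x v) a ≤ nz θ t1 t2 * (rm x H *ᵥ fun _ => 1) a := by
  unfold Wn
  rw [← Matrix.mulVec_mulVec]
  have hA := rm_nonneg hx H
  refine (mulVec_mono ((Zn_nonneg hθ h2 hA n).mul (Zn_nonneg hθ h1 hA n)) (rm_key hx H v) a).trans ?_
  exact ZZ_exc hθ hθ1 h1 h2 hA (rm_one_nonneg hx H) (rm_exc hx H) n a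

theorem nz_nonneg (hθ1 : θ < 1) (h1 : 0 ≤ t1) (h2 : 0 ≤ t2) : 0 ≤ nz θ t1 t2 := by
  have : 0 < 1 - θ := by linarith
  unfold nz; positivity

/-- inequality (i) -/
theorem Bf_le (hx : IsW x) (hF : ∀ y, 0 ≤ y → y ≤ 1 → 0 ≤ Fx y) (hF0 : Fx 0 = 0) (hθ : 0 ≤ θ)
    (hθ1 : θ < 1) (h1 : 0 ≤ t1) (h2 : 0 ≤ t2) {w : ℝ → ℝ}
    (hw : ∀ y, 0 ≤ y → y ≤ 1 → Fx y ^ 2 * (1 - y) ≤ y ^ 2 * w y) (u v : V) :
    Bf θ t1 t2 n Fx x u v ≤ nz θ t1 t2 * ((1 / 2) *
      (∑ a ∈ V0 u v, x u a ^ 2 * w (x u a) + ∑ a ∈ V0 u v, x v a ^ 2 * w (x v a))) := by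
  set W := Wn θ t1 t2 (rm x (V0 u v)) n with hWdef
  have hW : MN W := Wn_nonneg hθ h1 h2 (rm_nonneg hx _) n
  have hWs : Wᵀ = W := Wn_symm (rm_symm hx _) n
  have hchi : ∀ u a, Fx (x u a) = Fx (x u a) * chi x u a := by
    intro u a
    unfold chi
    split_ifs with h
    · rw [h, hF0]; ring
    · ring
  have key : ∀ a b, Fx (x u a) * (W a b * Fx (x v b))
      ≤ (1 / 2) * (Fx (x u a) ^ 2 * (W a b * chi x v b)) + (1 / 2) * (Fx (x v b) ^ 2 * (W a b * chi x u a)) := by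
    intro a b
    have hp : 0 ≤ Fx (x u a) := Fv_nonneg hx hF u a
    have hq : 0 ≤ Fx (x v b) := Fv_nonneg hx hF v b
    have hWab := hW a b
    unfold chi
    by_cases ha : x u a = 0
    · rw [ha, hF0]
      have : 0 ≤ (1 / 2) * (Fx (x v b) ^ 2 * (W a b * if (0 : ℝ) = 0 then (0 : ℝ) else 1)) := by simp
      simp
    · by_cases hb : x v b = 0
      · rw [hb, hF0]; simp
      · rw [if_neg ha, if_neg hb]
        have := mul_nonneg hWab (sq_nonneg (Fx (x u a) - Fx (x v b)))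
        nlinarith
  have hsum : Bf θ t1 t2 n Fx x u v ≤ (1 / 2) * ∑ a, Fx (x u a) ^ 2 * (W *ᵥ chi x v) a
      + (1 / 2) * ∑ b, Fx (x v b) ^ 2 * (W *ᵥ chi x u) b := by
    have e1 : Bf θ t1 t2 n Fx x u v = ∑ a, ∑ b, Fx (x u a) * (W a b * Fx (x v b)) := by
      unfold Bf
      simp only [dotProduct, Matrix.mulVec, Fv, Finset.mul_sum, hWdef]
    have e2 : ∑ a, Fx (x u a) ^ 2 * (W *ᵥ chi x v) a
        = ∑ a, ∑ b, Fx (x u a) ^ 2 * (W a b * chi x v b) := by
      simp only [dotProduct, Matrix.mulVec, Finset.mul_sum]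
    have e3 : ∑ b, Fx (x v b) ^ 2 * (W *ᵥ chi x u) b
        = ∑ a, ∑ b, Fx (x v b) ^ 2 * (W a b * chi x u a) := by
      rw [Finset.sum_comm]
      refine Finset.sum_congr rfl fun b _ => ?_
      simp only [dotProduct, Matrix.mulVec, Finset.mul_sum]
      refine Finset.sum_congr rfl fun a _ => ?_
      have : W b a = W a b := by
        conv_lhs => rw [← hWs]
        rfl
      rw [this]
    rw [e1, e2, e3, Finset.mul_sum, Finset.mul_sum, ← Finset.sum_add_distrib]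
    refine Finset.sum_le_sum fun a _ => ?_
    rw [Finset.mul_sum, Finset.mul_sum, ← Finset.sum_add_distrib]
    exact Finset.sum_le_sum fun b _ => key a b
  have hbound : ∀ u' v', (u' = u ∨ u' = v) → ∑ a, Fx (x u' a) ^ 2 * (W *ᵥ chi x v') a
      ≤ nz θ t1 t2 * ∑ a ∈ V0 u v, x u' a ^ 2 * w (x u' a) := by
    intro u' v' hu'
    have hu'V : u' ∉ V0 u v := by
      rcases hu' with rfl | rfl
      · exact not_mem_V0_left _ _
      · exact not_mem_V0_right _ _
    have h3 : ∀ a, Fx (x u' a) ^ 2 * (W *ᵥ chi x v') a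
        ≤ if a ∈ V0 u v then nz θ t1 t2 * (x u' a ^ 2 * w (x u' a)) else 0 := by
      intro a
      have hWc := Wn_chi (n := n) hx hθ hθ1 h1 h2 (V0 u v) v' a
      have hsq : 0 ≤ Fx (x u' a) ^ 2 := sq_nonneg _
      have hnz := nz_nonneg (t1 := t1) (t2 := t2) hθ1 h1 h2
      split_ifs with ha
      · have h4 := rm_one_le_sub hx hu'V a
        have h5 := hw (x u' a) (hx.nonneg _ _) (hx.le_one _ _)
        calc Fx (x u' a) ^ 2 * (W *ᵥ chi x v') a
            ≤ Fx (x u' a) ^ 2 * (nz θ t1 t2 * (1 - x u' a)) := by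
              refine mul_le_mul_of_nonneg_left (hWc.trans ?_) hsq
              exact mul_le_mul_of_nonneg_left h4 hnz
          _ = nz θ t1 t2 * (Fx (x u' a) ^ 2 * (1 - x u' a)) := by ring
          _ ≤ _ := mul_le_mul_of_nonneg_left h5 hnz
      · rw [rm_mulVec_out _ _ ha, mul_zero] at hWc
        have hge : 0 ≤ (W *ᵥ chi x v') a := mulVec_nonneg hW (chi_nonneg v') a
        have : (W *ᵥ chi x v') a = 0 := le_antisymm hWc hge
        rw [this, mul_zero]
    refine (Finset.sum_le_sum fun a _ => h3 a).trans ?_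
    rw [Finset.mul_sum, Finset.sum_ite, Finset.sum_const_zero, add_zero, Finset.filter_mem_eq_inter,
      Finset.univ_inter]
  have b1 := hbound u v (Or.inl rfl)
  have b2 := hbound v u (Or.inr rfl)
  linarith

end B

end Pool.Agent.RCRSHalf
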