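import Pool.Agent.RCRSHalf.Func

/-! Further inequalities for the walk functional (MP_73ccd0_lc, exact 1/2). -/

namespace Pool.Agent.RCRSHalf

open Finset Matrix

set_option linter.unusedSectionVars false

variable {V : Type*} [Fintype V] [DecidableEq V] {x : V → V → ℝ} {Fx : ℝ → ℝ}
  {θ t1 t2 : ℝ} {n : ℕ}

theorem Wn_col_out (H : Finset V) (a : V) {b : V} (hb : b ∉ H) :
    Wn θ t1 t2 (rm x H) n a b = 0 := by
  unfold Wn
  rw [Matrix.mul_apply]
  refine Finset.sum_eq_zero fun c _ => ?_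
  have h1 : ∀ c, rm x H c b = 0 := fun c => by unfold rm; rw [if_neg (fun h => hb h.2)]
  have h2 : (rm x H + rm x H * rm x H) c b = 0 := by
    rw [Matrix.add_apply, Matrix.mul_apply, h1, zero_add]
    exact Finset.sum_eq_zero fun d _ => by rw [h1, mul_zero]
  rw [h2, mul_zero]

/-- the walk matrix applied to one more step and the indicator of a neighbourhood -/
theorem Wn_A_chi (hx : IsW x) (hθ : 0 ≤ θ) (hθ1 : θ < 1) (h1 : 0 ≤ t1) (h2 : 0 ≤ t2)
    (H : Finset V) (v a : V) :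
    (Wn θ t1 t2 (rm x H) n *ᵥ (rm x H *ᵥ chi x v)) a
      ≤ nz θ t1 t2 * (rm x H *ᵥ fun _ => 1) a := by
  have hA := rm_nonneg hx H
  have e : Wn θ t1 t2 (rm x H) n *ᵥ (rm x H *ᵥ chi x v)
      = (Zn θ t2 (rm x H) n * Zn θ t1 (rm x H) n) *ᵥ
        (rm x H *ᵥ ((rm x H + rm x H * rm x H) *ᵥ chi x v)) := by
    unfold Wn
    simp only [Matrix.mulVec_mulVec, Matrix.mul_assoc]
    congr 3
    simp only [add_mul, mul_add, Matrix.mul_assoc]
  rw [e]
  have hZZ : MN (Zn θ t2 (rm x H) n * Zn θ t1 (rm x H) n) :=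
    (Zn_nonneg hθ h2 hA n).mul (Zn_nonneg hθ h1 hA n)
  refine (mulVec_mono hZZ (fun b => mulVec_mono hA (rm_key hx H v) b) a).trans ?_
  refine (mulVec_mono hZZ (rm_exc hx H) a).trans ?_
  exact ZZ_exc hθ hθ1 h1 h2 hA (rm_one_nonneg hx H) (rm_exc hx H) n a

/-- inequality (ii) -/
theorem sum_Bf_le (hx : IsW x) (hF : ∀ y, 0 ≤ y → y ≤ 1 → 0 ≤ Fx y) (hF0 : Fx 0 = 0) (hθ : 0 ≤ θ)
    (hθ1 : θ < 1) (h1 : 0 ≤ t1) (h2 : 0 ≤ t2) {w : ℝ → ℝ} {ρ : ℝ} (hρ0 : 0 ≤ ρ)
    (hw : ∀ y, 0 ≤ y → y ≤ 1 → Fx y ^ 2 * (1 - y) ≤ y ^ 2 * w y)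
    (hρ : ∀ y, 0 ≤ y → y ≤ 1 → Fx y ^ 2 * (1 - y) ≤ ρ * y ^ 2)
    (hρw : ∀ y, 0 ≤ y → y ≤ 1 → ρ * (1 - y) ≤ w y) (u : V) :
    ∑ v, x u v * Bf θ t1 t2 n Fx x u v ≤ nz θ t1 t2 * ∑ v, x u v ^ 2 * w (x u v) := by
  set W : V → Matrix V V ℝ := fun v => Wn θ t1 t2 (rm x (V0 u v)) n with hWdef
  have hW : ∀ v, MN (W v) := fun v => Wn_nonneg hθ h1 h2 (rm_nonneg hx _) n
  have hWs : ∀ v a b, W v b a = W v a b := fun v a b => by
    have : (W v)ᵀ = W v := Wn_symm (rm_symm hx _) n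
    conv_lhs => rw [← this]
    rfl
  have hnz := nz_nonneg (t1 := t1) (t2 := t2) hθ1 h1 h2
  have key : ∀ v a b, x u v * (Fx (x u a) * (W v a b * Fx (x v b)))
      ≤ (1 / 2) * (Fx (x u a) ^ 2 * (W v a b * (x v b * chi x u v)))
        + (1 / 2) * (x u v ^ 2 * (Fx (x v b) ^ 2 / x v b * (W v a b * chi x u a))) := by
    intro v a b
    have hWab := hW v a b
    have hf := hx.nonneg u v
    unfold chi
    by_cases ha : x u a = 0
    · rw [ha, hF0]
      simp
    by_cases hb : x v b = 0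
    · rw [hb, hF0]
      simp
    by_cases hv : x u v = 0
    · rw [hv]
      simp
    rw [if_neg ha, if_neg hv]
    have hxb : 0 < x v b := lt_of_le_of_ne (hx.nonneg v b) (Ne.symm hb)
    have hsq := mul_nonneg hWab (mul_nonneg hxb.le (sq_nonneg (Fx (x u a) - x u v * Fx (x v b) / x v b)))
    have e : x v b * (Fx (x u a) - x u v * Fx (x v b) / x v b) ^ 2
        = Fx (x u a) ^ 2 * x v b - 2 * (Fx (x u a) * (x u v * Fx (x v b)))
          + x u v ^ 2 * (Fx (x v b) ^ 2 / x v b) := by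
      field_simp
      ring
    rw [e] at hsq
    nlinarith
  have e1 : ∑ v, x u v * Bf θ t1 t2 n Fx x u v
      = ∑ v, ∑ a, ∑ b, x u v * (Fx (x u a) * (W v a b * Fx (x v b))) := by
    refine Finset.sum_congr rfl fun v _ => ?_
    unfold Bf
    simp only [dotProduct, Matrix.mulVec, Fv, Finset.mul_sum, hWdef]
  have e2 : ∑ v, ∑ a, ∑ b, x u v * (Fx (x u a) * (W v a b * Fx (x v b)))
      ≤ (1 / 2) * (∑ v, ∑ a, ∑ b, Fx (x u a) ^ 2 * (W v a b * (x v b * chi x u v)))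
        + (1 / 2) * (∑ v, ∑ a, ∑ b, x u v ^ 2 * (Fx (x v b) ^ 2 / x v b * (W v a b * chi x u a))) := by
    simp only [Finset.mul_sum, ← Finset.sum_add_distrib]
    exact Finset.sum_le_sum fun v _ => Finset.sum_le_sum fun a _ => Finset.sum_le_sum fun b _ =>
      key v a b
  -- first sum
  have f1 : ∑ v, ∑ a, ∑ b, Fx (x u a) ^ 2 * (W v a b * (x v b * chi x u v))
      ≤ nz θ t1 t2 * ∑ a, x u a ^ 2 * w (x u a) := by
    rw [Finset.sum_comm, Finset.mul_sum]
    refine Finset.sum_le_sum fun a _ => ?_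
    simp only [← Finset.mul_sum]
    have hsq : 0 ≤ Fx (x u a) ^ 2 := sq_nonneg _
    by_cases hau : a = u
    · subst hau
      rw [hx.diag, hF0]
      have := hρw 0 le_rfl zero_le_one
      simp
    have g1 : ∑ v, ∑ b, W v a b * (x v b * chi x u v)
        ≤ (Wn θ t1 t2 (rm x (Finset.univ.erase u)) n *ᵥ
          (rm x (Finset.univ.erase u) *ᵥ chi x u)) a := by
      simp only [Matrix.mulVec, dotProduct, Finset.mul_sum]
      rw [Finset.sum_comm]
      refine Finset.sum_le_sum fun b _ => Finset.sum_le_sum fun v _ => ?_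
      have hsub : V0 u v ⊆ Finset.univ.erase u := fun c hc => by
        rw [Finset.mem_erase]; exact ⟨(mem_V0.1 hc).1, Finset.mem_univ _⟩
      have m1 := Wn_mono (n := n) hθ h1 h2 (rm_nonneg hx (V0 u v)) (rm_nonneg hx (Finset.univ.erase u))
        (rm_mono hx hsub) a b
      by_cases hbu : b = u
      · have : W v a b = 0 := Wn_col_out _ _ (by rw [hbu]; exact not_mem_V0_left _ _)
        rw [this, zero_mul]
        exact mul_nonneg (Wn_nonneg hθ h1 h2 (rm_nonneg hx _) n a b)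
          (mul_nonneg (rm_nonneg hx _ _ _) (chi_nonneg _ _))
      · refine mul_le_mul m1 ?_ (mul_nonneg (hx.nonneg _ _) (chi_nonneg _ _))
          (Wn_nonneg hθ h1 h2 (rm_nonneg hx _) n a b)
        by_cases hvu : v = u
        · have : chi x u v = 0 := by unfold chi; rw [hvu, hx.diag, if_pos rfl]
          rw [this]; simp
        · have : rm x (Finset.univ.erase u) b v = x v b := by
            unfold rm
            rw [if_pos (by simp [hbu, hvu]), hx.symm]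
          rw [this]
    have g2 := Wn_A_chi (n := n) hx hθ hθ1 h1 h2 (Finset.univ.erase u) u a
    have g3 := rm_one_le_sub hx (Finset.notMem_erase u Finset.univ) a
    have g4 := hw (x u a) (hx.nonneg _ _) (hx.le_one _ _)
    calc Fx (x u a) ^ 2 * ∑ v, ∑ b, W v a b * (x v b * chi x u v)
        ≤ Fx (x u a) ^ 2 * (nz θ t1 t2 * (1 - x u a)) := by
          refine mul_le_mul_of_nonneg_left (g1.trans (g2.trans ?_)) hsq
          exact mul_le_mul_of_nonneg_left g3 hnz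
      _ = nz θ t1 t2 * (Fx (x u a) ^ 2 * (1 - x u a)) := by ring
      _ ≤ _ := mul_le_mul_of_nonneg_left g4 hnz
  -- second sum
  have f2 : ∑ v, ∑ a, ∑ b, x u v ^ 2 * (Fx (x v b) ^ 2 / x v b * (W v a b * chi x u a))
      ≤ nz θ t1 t2 * ∑ v, x u v ^ 2 * w (x u v) := by
    rw [Finset.mul_sum]
    refine Finset.sum_le_sum fun v _ => ?_
    rw [Finset.sum_comm]
    simp only [← Finset.mul_sum]
    have g0 : ∀ b, ∑ a, W v a b * chi x u a = (W v *ᵥ chi x u) b := by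
      intro b
      simp only [Matrix.mulVec, dotProduct]
      exact Finset.sum_congr rfl fun a _ => by rw [hWs]
    simp only [g0]
    have g1 : ∀ b, Fx (x v b) ^ 2 / x v b * (W v *ᵥ chi x u) b
        ≤ if b ∈ V0 u v then nz θ t1 t2 * (ρ * x v b) else 0 := by
      intro b
      have hWc := Wn_chi (n := n) hx hθ hθ1 h1 h2 (V0 u v) u b
      have hge : 0 ≤ (W v *ᵥ chi x u) b := mulVec_nonneg (hW v) (chi_nonneg u) b
      have hq : 0 ≤ Fx (x v b) ^ 2 / x v b := div_nonneg (sq_nonneg _) (hx.nonneg _ _)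
      split_ifs with hb
      · have h4 := rm_one_le_sub hx (not_mem_V0_right u v) b
        have h5 := hρ (x v b) (hx.nonneg _ _) (hx.le_one _ _)
        have h6 : Fx (x v b) ^ 2 / x v b * (1 - x v b) ≤ ρ * x v b := by
          by_cases h0 : x v b = 0
          · rw [h0]; simp
          · have hpos : 0 < x v b := lt_of_le_of_ne (hx.nonneg v b) (Ne.symm h0)
            rw [div_mul_eq_mul_div, div_le_iff₀ hpos]
            nlinarith
        calc Fx (x v b) ^ 2 / x v b * (W v *ᵥ chi x u) b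
            ≤ Fx (x v b) ^ 2 / x v b * (nz θ t1 t2 * (1 - x v b)) := by
              refine mul_le_mul_of_nonneg_left (hWc.trans ?_) hq
              exact mul_le_mul_of_nonneg_left h4 hnz
          _ = nz θ t1 t2 * (Fx (x v b) ^ 2 / x v b * (1 - x v b)) := by ring
          _ ≤ _ := mul_le_mul_of_nonneg_left h6 hnz
      · rw [rm_mulVec_out _ _ hb, mul_zero] at hWc
        have : (W v *ᵥ chi x u) b = 0 := le_antisymm hWc hge
        rw [this, mul_zero]
    have g2 : ∑ b, Fx (x v b) ^ 2 / x v b * (W v *ᵥ chi x u) b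
        ≤ nz θ t1 t2 * (ρ * (1 - x u v)) := by
      refine (Finset.sum_le_sum fun b _ => g1 b).trans ?_
      rw [Finset.sum_ite, Finset.sum_const_zero, add_zero, Finset.filter_mem_eq_inter,
        Finset.univ_inter, ← Finset.mul_sum, ← Finset.mul_sum]
      refine mul_le_mul_of_nonneg_left (mul_le_mul_of_nonneg_left ?_ hρ0) hnz
      have h7 : ∑ b ∈ V0 u v, x v b ≤ ∑ b ∈ Finset.univ.erase u, x v b :=
        Finset.sum_le_sum_of_subset_of_nonneg (fun c hc => by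
          rw [Finset.mem_erase]; exact ⟨(mem_V0.1 hc).1, Finset.mem_univ _⟩)
          fun b _ _ => hx.nonneg _ _
      have h8 : ∑ b ∈ Finset.univ.erase u, x v b + x v u = ∑ b, x v b :=
        Finset.sum_erase_add _ _ (Finset.mem_univ u)
      have h9 := hx.row v
      rw [hx.symm u v]
      linarith
    have g3 := hρw (x u v) (hx.nonneg _ _) (hx.le_one _ _)
    calc x u v ^ 2 * ∑ b, Fx (x v b) ^ 2 / x v b * (W v *ᵥ chi x u) b
        ≤ x u v ^ 2 * (nz θ t1 t2 * (ρ * (1 - x u v))) :=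
          mul_le_mul_of_nonneg_left g2 (sq_nonneg _)
      _ = nz θ t1 t2 * (x u v ^ 2 * (ρ * (1 - x u v))) := by ring
      _ ≤ _ := mul_le_mul_of_nonneg_left (mul_le_mul_of_nonneg_left g3 (sq_nonneg _)) hnz
  rw [e1]
  linarith

/-- the cost of decoupling is bounded by the walk functional -/
theorem cost_le (hx : IsW x) (hF : ∀ y, 0 ≤ y → y ≤ 1 → 0 ≤ Fx y) (hθ : 0 ≤ θ) (h1 : 0 ≤ t1)
    (h2 : 0 ≤ t2) {u v : V} {G : Finset V} (hG : G ⊆ V0 u v) {α β : ℝ} (hα : 0 ≤ α) (hβ : 0 ≤ β)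
    {P N : V → ℝ} (hP0 : ∀ a, 0 ≤ P a) (hN0 : ∀ a, 0 ≤ N a)
    (hP : ∀ a, P a ≤ α * (Zn θ t2 (rm x (V0 u v)) n *ᵥ Fv Fx x u) a)
    (hN : ∀ a, N a ≤ β * ((rm x (V0 u v) * Zn θ t1 (rm x (V0 u v)) n) *ᵥ Fv Fx x v) a) :
    (1 / 2) * ∑ a ∈ G, ∑ b ∈ G, x a b * ((P a + P b) * (N a + N b))
      ≤ α * β * Bf θ t1 t2 n Fx x u v := by
  set A := rm x (V0 u v) with hAdef
  have hA : MN A := rm_nonneg hx _
  have s1 : ∑ a ∈ G, ∑ b ∈ G, x a b * ((P a + P b) * (N a + N b))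
      ≤ ∑ a, ∑ b, A a b * ((P a + P b) * (N a + N b)) := by
    have hnn : ∀ a b, 0 ≤ A a b * ((P a + P b) * (N a + N b)) := fun a b =>
      mul_nonneg (hA a b) (mul_nonneg (add_nonneg (hP0 a) (hP0 b)) (add_nonneg (hN0 a) (hN0 b)))
    refine le_trans ?_ (Finset.sum_le_sum_of_subset_of_nonneg (Finset.subset_univ G)
      fun a _ _ => Finset.sum_nonneg fun b _ => hnn a b)
    refine Finset.sum_le_sum fun a ha => ?_
    refine le_trans ?_ (Finset.sum_le_sum_of_subset_of_nonneg (Finset.subset_univ G)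
      fun b _ _ => hnn a b)
    refine Finset.sum_le_sum fun b hb => ?_
    have : A a b = x a b := by rw [hAdef]; unfold rm; rw [if_pos ⟨hG ha, hG hb⟩]
    rw [this]
  have hsym : ∀ a b, A b a = A a b := fun a b => by
    have : Aᵀ = A := rm_symm hx _
    conv_lhs => rw [← this]
    rfl
  have s2 : (1 / 2) * ∑ a, ∑ b, A a b * ((P a + P b) * (N a + N b))
      = ∑ a, P a * N a * (A *ᵥ fun _ => 1) a + ∑ a, P a * (A *ᵥ N) a := by
    have e1 : ∑ a, ∑ b, A a b * ((P a + P b) * (N a + N b))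
        = ∑ a, ∑ b, (A a b * (P a * N a)) + ∑ a, ∑ b, (A a b * (P b * N b))
          + ∑ a, ∑ b, (A a b * (P a * N b)) + ∑ a, ∑ b, (A a b * (P b * N a)) := by
      simp only [← Finset.sum_add_distrib]
      refine Finset.sum_congr rfl fun a _ => Finset.sum_congr rfl fun b _ => ?_
      ring
    have e2 : ∑ a, ∑ b, (A a b * (P b * N b)) = ∑ a, ∑ b, (A a b * (P a * N a)) := by
      rw [Finset.sum_comm]
      exact Finset.sum_congr rfl fun a _ => Finset.sum_congr rfl fun b _ => by rw [hsym]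
    have e3 : ∑ a, ∑ b, (A a b * (P b * N a)) = ∑ a, ∑ b, (A a b * (P a * N b)) := by
      rw [Finset.sum_comm]
      exact Finset.sum_congr rfl fun a _ => Finset.sum_congr rfl fun b _ => by rw [hsym]
    have e4 : ∑ a, ∑ b, (A a b * (P a * N a)) = ∑ a, P a * N a * (A *ᵥ fun _ => 1) a := by
      refine Finset.sum_congr rfl fun a _ => ?_
      simp only [Matrix.mulVec, dotProduct, mul_one, Finset.mul_sum]
      exact Finset.sum_congr rfl fun b _ => by ring
    have e5 : ∑ a, ∑ b, (A a b * (P a * N b)) = ∑ a, P a * (A *ᵥ N) a := by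
      refine Finset.sum_congr rfl fun a _ => ?_
      simp only [Matrix.mulVec, dotProduct, Finset.mul_sum]
      exact Finset.sum_congr rfl fun b _ => by ring
    rw [e1, e2, e3, e4, e5]; ring
  have s3 : ∑ a, P a * N a * (A *ᵥ fun _ => 1) a ≤ ∑ a, P a * N a := by
    refine Finset.sum_le_sum fun a _ => ?_
    have := rm_one_le hx (V0 u v) a
    have hpn := mul_nonneg (hP0 a) (hN0 a)
    nlinarith
  have s4 : ∑ a, P a * N a + ∑ a, P a * (A *ᵥ N) a
      ≤ α * β * Bf θ t1 t2 n Fx x u v := by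
    have e1 : Bf θ t1 t2 n Fx x u v = (Zn θ t2 A n *ᵥ Fv Fx x u) ⬝ᵥ
        (((A * Zn θ t1 A n) *ᵥ Fv Fx x v) + A *ᵥ ((A * Zn θ t1 A n) *ᵥ Fv Fx x v)) := by
      unfold Bf
      have e2 : Wn θ t1 t2 A n = Zn θ t2 A n * (A * Zn θ t1 A n + A * (A * Zn θ t1 A n)) := by
        have e3 : Zn θ t1 A n * (A * A) = A * (A * Zn θ t1 A n) := by
          rw [← Matrix.mul_assoc, ← Zn_comm, Matrix.mul_assoc, ← Zn_comm]
        unfold Wn
        rw [Matrix.mul_assoc, mul_add, ← Zn_comm, e3]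
      rw [e2, ← Matrix.mulVec_mulVec, Matrix.add_mulVec, Matrix.dotProduct_mulVec,
        ← Matrix.mulVec_transpose, Zn_symm (rm_symm hx _), ← Matrix.mulVec_mulVec _ A (A * _)]
    rw [e1, ← Finset.sum_add_distrib]
    simp only [dotProduct]
    rw [Finset.mul_sum]
    refine Finset.sum_le_sum fun a _ => ?_
    have hZ0 : 0 ≤ (Zn θ t2 A n *ᵥ Fv Fx x u) a :=
      mulVec_nonneg (Zn_nonneg hθ h2 hA n) (Fv_nonneg hx hF u) a
    have hAN : (A *ᵥ N) a ≤ β * (A *ᵥ ((A * Zn θ t1 A n) *ᵥ Fv Fx x v)) a := by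
      refine (mulVec_mono hA hN a).trans ?_
      have : (fun a => β * ((A * Zn θ t1 A n) *ᵥ Fv Fx x v) a)
          = β • ((A * Zn θ t1 A n) *ᵥ Fv Fx x v) := rfl
      rw [this, Matrix.mulVec_smul, Pi.smul_apply, smul_eq_mul]
    have hAN0 : 0 ≤ (A *ᵥ N) a := mulVec_nonneg hA hN0 a
    have hsum : N a + (A *ᵥ N) a ≤ β * (((A * Zn θ t1 A n) *ᵥ Fv Fx x v) a
        + (A *ᵥ ((A * Zn θ t1 A n) *ᵥ Fv Fx x v)) a) := by
      rw [mul_add]; exact add_le_add (hN a) hAN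
    calc P a * N a + P a * (A *ᵥ N) a = P a * (N a + (A *ᵥ N) a) := by ring
      _ ≤ (α * (Zn θ t2 A n *ᵥ Fv Fx x u) a) * (β * (((A * Zn θ t1 A n) *ᵥ Fv Fx x v) a
        + (A *ᵥ ((A * Zn θ t1 A n) *ᵥ Fv Fx x v)) a)) :=
          mul_le_mul (hP a) hsum (add_nonneg (hN0 a) hAN0) (mul_nonneg hα hZ0)
      _ = α * β * ((Zn θ t2 A n *ᵥ Fv Fx x u) a * (((A * Zn θ t1 A n) *ᵥ Fv Fx x v
        + A *ᵥ ((A * Zn θ t1 A n) *ᵥ Fv Fx x v)) a)) := by
          rw [Pi.add_apply]; ring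
  calc (1 / 2) * ∑ a ∈ G, ∑ b ∈ G, x a b * ((P a + P b) * (N a + N b))
      ≤ (1 / 2) * ∑ a, ∑ b, A a b * ((P a + P b) * (N a + N b)) :=
        mul_le_mul_of_nonneg_left s1 (by norm_num)
    _ = _ := s2
    _ ≤ ∑ a, P a * N a + ∑ a, P a * (A *ᵥ N) a := by linarith
    _ ≤ _ := s4

end Pool.Agent.RCRSHalf
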