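import Pool.Agent.RCRSHalf.Func2

/-! The walk functional bounds the influence of a vertex on the edges of its partner
(MP_73ccd0_lc, exact 1/2). -/

namespace Pool.Agent.RCRSHalf

open Finset Matrix

set_option linter.unusedSectionVars false

variable {V : Type*} [Fintype V] [DecidableEq V] {x : V → V → ℝ} {Fx : ℝ → ℝ}
  {θ t1 t2 : ℝ} {n : ℕ}

theorem Sn_succ_le {A : Matrix V V ℝ} (hθ : 0 ≤ θ) (hA : MN A) (n : ℕ) :
    ML (Sn θ A n) (Sn θ A (n + 1)) := by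
  induction n with
  | zero =>
    intro a b
    have : 0 ≤ (θ • (A * A * Sn θ A 0)) a b :=
      (((hA.mul hA).mul (Sn_nonneg hθ hA 0)).smul hθ) a b
    simp only [Sn, Matrix.add_apply] at *
    linarith
  | succ n ih =>
    exact (ML.refl _).add (((ML.refl (A * A)).mul ih (Sn_nonneg hθ hA n) (hA.mul hA)).smul hθ)

theorem Sn_le_Zn {A : Matrix V V ℝ} (hθ : 0 ≤ θ) (ht : θ ≤ t1) (hA : MN A) (n : ℕ) :
    ML (Sn θ A n) (Zn θ t1 A n) := by
  have ht0 : 0 ≤ t1 := hθ.trans ht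
  cases n with
  | zero =>
    intro a b
    have : 0 ≤ (t1 • (A * A * Sn θ A 0)) a b :=
      (((hA.mul hA).mul (Sn_nonneg hθ hA 0)).smul ht0) a b
    simp only [Sn, Zn, Matrix.add_apply] at *
    linarith
  | succ n =>
    refine (ML.refl _).add ?_
    intro a b
    have h1 : (A * A * Sn θ A n) a b ≤ (A * A * Sn θ A (n + 1)) a b :=
      ((ML.refl (A * A)).mul (Sn_succ_le hθ hA n) (Sn_nonneg hθ hA n) (hA.mul hA)) a b
    have h2 : 0 ≤ (A * A * Sn θ A n) a b := ((hA.mul hA).mul (Sn_nonneg hθ hA n)) a b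
    rw [Matrix.smul_apply, Matrix.smul_apply, smul_eq_mul, smul_eq_mul]
    exact mul_le_mul ht h1 h2 ht0

theorem tsum_le (hx : IsW x) (hF : ∀ y, 0 ≤ y → y ≤ 1 → y ≤ Fx y) {Fb : ℝ} (hFb : 1 ≤ Fb)
    (hFb' : ∀ y, 0 ≤ y → y ≤ 1 → Fx y ≤ Fb * y) (hθ : 0 ≤ θ) (ht : θ ≤ t1) (h2 : 0 ≤ t2)
    (u v : V) :
    ∑ z ∈ V0 u v, x u z * ∑ b, x v b * ((rm x ((V0 u v).erase z) *
        Sn θ (rm x ((V0 u v).erase z)) n) *ᵥ fun b => Fx (x u b) + Fx (x z b)) b
      ≤ Fb * Bf θ t1 t2 n Fx x v u := by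
  have hF0 : ∀ y, 0 ≤ y → y ≤ 1 → 0 ≤ Fx y := fun y h h' => h.trans (hF y h h')
  have ht0 : 0 ≤ t1 := hθ.trans ht
  set A := rm x (V0 u v) with hAdef
  have hA : MN A := rm_nonneg hx _
  set S := Sn θ A n with hSdef
  have hS : MN S := Sn_nonneg hθ hA n
  set Fz : V → V → ℝ := fun z b => Fx (x u b) + Fx (x z b) with hFz
  have hFz0 : ∀ z b, 0 ≤ Fz z b := fun z b =>
    add_nonneg (hF0 _ (hx.nonneg _ _) (hx.le_one _ _)) (hF0 _ (hx.nonneg _ _) (hx.le_one _ _))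
  -- step 1
  have s1 : ∀ z ∈ V0 u v, x u z * ∑ b, x v b * ((rm x ((V0 u v).erase z) *
        Sn θ (rm x ((V0 u v).erase z)) n) *ᵥ Fz z) b
      ≤ x u z * ∑ b, x v b * (S *ᵥ (A *ᵥ Fz z)) b := by
    intro z _
    refine mul_le_mul_of_nonneg_left (Finset.sum_le_sum fun b _ => ?_) (hx.nonneg _ _)
    refine mul_le_mul_of_nonneg_left ?_ (hx.nonneg _ _)
    have hAz : MN (rm x ((V0 u v).erase z)) := rm_nonneg hx _
    have hle : ML (rm x ((V0 u v).erase z)) A := rm_mono hx (Finset.erase_subset _ _)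
    have := (hle.mul (Sn_mono (n := n) hθ hAz hA hle) (Sn_nonneg hθ hAz n) hA)
    refine (mulVec_mono_mat this (hFz0 z) b).trans ?_
    rw [Sn_comm, ← Matrix.mulVec_mulVec]
  -- step 2
  have s2 : ∑ z ∈ V0 u v, x u z * ∑ b, x v b * (S *ᵥ (A *ᵥ Fz z)) b
      = ∑ b, x v b * (S *ᵥ (fun a => ∑ z ∈ V0 u v, x u z * (A *ᵥ Fz z) a)) b := by
    simp only [Finset.mul_sum]
    rw [Finset.sum_comm]
    refine Finset.sum_congr rfl fun b _ => ?_
    simp only [Matrix.mulVec, dotProduct, Finset.mul_sum]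
    rw [Finset.sum_comm]
    refine Finset.sum_congr rfl fun c _ => ?_
    refine Finset.sum_congr rfl fun z _ => ?_
    refine Finset.sum_congr rfl fun d _ => ?_
    ring
  -- step 3
  have s3 : ∀ a, ∑ z ∈ V0 u v, x u z * (A *ᵥ Fz z) a
      ≤ Fb * ((A + A * A) *ᵥ Fv Fx x u) a := by
    intro a
    by_cases ha : a ∈ V0 u v
    · have e1 : ∀ z, (A *ᵥ Fz z) a = ∑ b ∈ V0 u v, x a b * Fz z b := fun z => rm_mulVec _ _ ha
      simp only [e1, Finset.mul_sum]
      rw [Finset.sum_comm]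
      have e2 : ((A + A * A) *ᵥ Fv Fx x u) a
          = ∑ b ∈ V0 u v, x a b * (Fx (x u b) + (A *ᵥ Fv Fx x u) b) := by
        rw [Matrix.add_mulVec, ← Matrix.mulVec_mulVec, Pi.add_apply, hAdef, rm_mulVec _ _ ha,
          rm_mulVec _ _ ha, ← Finset.sum_add_distrib]
        exact Finset.sum_congr rfl fun b _ => by simp only [Fv]; ring
      rw [e2, Finset.mul_sum]
      refine Finset.sum_le_sum fun b hb => ?_
      have e3 : (A *ᵥ Fv Fx x u) b = ∑ z ∈ V0 u v, x b z * Fx (x u z) := rm_mulVec _ _ hb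
      rw [e3]
      have e4 : ∑ z ∈ V0 u v, x u z * (x a b * Fz z b)
          = x a b * ((∑ z ∈ V0 u v, x u z) * Fx (x u b) + ∑ z ∈ V0 u v, x u z * Fx (x z b)) := by
        rw [mul_add, Finset.sum_mul, Finset.mul_sum, Finset.mul_sum, ← Finset.sum_add_distrib]
        refine Finset.sum_congr rfl fun z _ => ?_
        simp only [hFz]; ring
      rw [e4, mul_left_comm]
      refine mul_le_mul_of_nonneg_left ?_ (hx.nonneg _ _)
      have r1 : ∑ z ∈ V0 u v, x u z ≤ 1 :=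
        (Finset.sum_le_sum_of_subset_of_nonneg (Finset.subset_univ _)
          fun z _ _ => hx.nonneg _ _).trans (hx.row u)
      have r0 : 0 ≤ ∑ z ∈ V0 u v, x u z := Finset.sum_nonneg fun z _ => hx.nonneg _ _
      have r2 : 0 ≤ Fx (x u b) := hF0 _ (hx.nonneg _ _) (hx.le_one _ _)
      have r3 : ∑ z ∈ V0 u v, x u z * Fx (x z b) ≤ Fb * ∑ z ∈ V0 u v, x b z * Fx (x u z) := by
        rw [Finset.mul_sum]
        refine Finset.sum_le_sum fun z _ => ?_
        have q1 := hFb' (x z b) (hx.nonneg _ _) (hx.le_one _ _)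
        have q2 := hF (x u z) (hx.nonneg _ _) (hx.le_one _ _)
        calc x u z * Fx (x z b) ≤ x u z * (Fb * x z b) :=
              mul_le_mul_of_nonneg_left q1 (hx.nonneg _ _)
          _ = (Fb * x z b) * x u z := by ring
          _ ≤ (Fb * x z b) * Fx (x u z) :=
              mul_le_mul_of_nonneg_left q2 (mul_nonneg (by linarith) (hx.nonneg _ _))
          _ = Fb * (x b z * Fx (x u z)) := by rw [hx.symm z b]; ring
      have r4 : (∑ z ∈ V0 u v, x u z) * Fx (x u b) ≤ Fb * Fx (x u b) :=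
        mul_le_mul_of_nonneg_right (r1.trans hFb) r2
      rw [mul_add]
      exact add_le_add r4 r3
    · have e1 : ∀ z, (A *ᵥ Fz z) a = 0 := fun z => rm_mulVec_out _ _ ha
      simp only [e1, mul_zero, Finset.sum_const_zero]
      exact mul_nonneg (by linarith) (mulVec_nonneg (hA.add (hA.mul hA)) (Fv_nonneg hx hF0 u) a)
  calc ∑ z ∈ V0 u v, x u z * ∑ b, x v b * ((rm x ((V0 u v).erase z) *
        Sn θ (rm x ((V0 u v).erase z)) n) *ᵥ Fz z) b
      ≤ ∑ z ∈ V0 u v, x u z * ∑ b, x v b * (S *ᵥ (A *ᵥ Fz z)) b := Finset.sum_le_sum s1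
    _ = ∑ b, x v b * (S *ᵥ (fun a => ∑ z ∈ V0 u v, x u z * (A *ᵥ Fz z) a)) b := s2
    _ ≤ ∑ b, Fv Fx x v b * (Fb * ((Zn θ t2 A n * Zn θ t1 A n * (A + A * A)) *ᵥ Fv Fx x u) b) := by
        refine Finset.sum_le_sum fun b _ => ?_
        have c0 : ∀ b, 0 ≤ ((A + A * A) *ᵥ Fv Fx x u) b :=
          mulVec_nonneg (hA.add (hA.mul hA)) (Fv_nonneg hx hF0 u)
        have c1 : (S *ᵥ (fun a => ∑ z ∈ V0 u v, x u z * (A *ᵥ Fz z) a)) b
            ≤ Fb * (S *ᵥ ((A + A * A) *ᵥ Fv Fx x u)) b := by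
          refine (mulVec_mono hS s3 b).trans ?_
          have : (fun a => Fb * ((A + A * A) *ᵥ Fv Fx x u) a)
              = Fb • ((A + A * A) *ᵥ Fv Fx x u) := rfl
          rw [this, Matrix.mulVec_smul, Pi.smul_apply, smul_eq_mul]
        have c2 : (S *ᵥ ((A + A * A) *ᵥ Fv Fx x u)) b
            ≤ (Zn θ t1 A n *ᵥ ((A + A * A) *ᵥ Fv Fx x u)) b :=
          mulVec_mono_mat (Sn_le_Zn hθ ht hA n) c0 b
        have c3 : (Zn θ t1 A n *ᵥ ((A + A * A) *ᵥ Fv Fx x u)) b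
            ≤ (Zn θ t2 A n *ᵥ (Zn θ t1 A n *ᵥ ((A + A * A) *ᵥ Fv Fx x u))) b := by
          have : 0 ≤ ((t2 • (A * A * Sn θ A n)) *ᵥ (Zn θ t1 A n *ᵥ ((A + A * A) *ᵥ Fv Fx x u))) b :=
            mulVec_nonneg (((hA.mul hA).mul hS).smul h2)
              (mulVec_nonneg (Zn_nonneg hθ ht0 hA n) c0) b
          have e : Zn θ t2 A n = 1 + t2 • (A * A * Sn θ A n) := rfl
          rw [e, Matrix.add_mulVec (1 : Matrix V V ℝ), Matrix.one_mulVec, Pi.add_apply]
          linarith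
        have c4 : 0 ≤ (S *ᵥ (fun a => ∑ z ∈ V0 u v, x u z * (A *ᵥ Fz z) a)) b :=
          mulVec_nonneg hS (fun a => Finset.sum_nonneg fun z _ => mul_nonneg (hx.nonneg _ _)
            (mulVec_nonneg hA (hFz0 z) a)) b
        rw [← Matrix.mulVec_mulVec, ← Matrix.mulVec_mulVec]
        refine mul_le_mul (hF _ (hx.nonneg _ _) (hx.le_one _ _)) ?_ c4 (Fv_nonneg hx hF0 v b)
        refine c1.trans (mul_le_mul_of_nonneg_left (c2.trans c3) (by linarith))
    _ = Fb * Bf θ t1 t2 n Fx x v u := by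
        unfold Bf
        rw [V0_comm v u]
        simp only [dotProduct, Finset.mul_sum, Wn, hAdef]
        refine Finset.sum_congr rfl fun b _ => ?_
        ring

end Pool.Agent.RCRSHalf
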