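import Pool.Agent.RCRSHalf.Ode

/-! Generator of the matching process on sets of free vertices, backward functions and forward
laws (MP_73ccd0_lc, exact 1/2). -/

namespace Pool.Agent.RCRSHalf

open Set Finset

set_option linter.unusedSectionVars false

variable {V : Type*} [Fintype V] [DecidableEq V]

/-- the generator of the matching process -/
noncomputable def gen (h : V → V → ℝ) (φ : Finset V → ℝ) (F : Finset V) : ℝ :=
  (1 / 2) * ∑ a ∈ F, ∑ b ∈ F, h a b * (φ ((F.erase a).erase b) - φ F)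

/-- point mass -/
def pt (F0 : Finset V) : Finset V → ℝ := fun F => if F = F0 then 1 else 0

/-- the forward field -/
noncomputable def fwd (h : V → V → ℝ) (y : Finset V → ℝ) (F0 : Finset V) : ℝ :=
  ∑ F : Finset V, y F * gen h (pt F0) F

/-- the generator as a linear map -/
noncomputable def genL (h : V → V → ℝ) (F : Finset V) : (Finset V → ℝ) →ₗ[ℝ] ℝ where
  toFun φ := gen h φ F
  map_add' φ ψ := by
    unfold gen
    rw [← mul_add, ← Finset.sum_add_distrib]
    congr 1
    refine Finset.sum_congr rfl fun a _ => ?_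
    rw [← Finset.sum_add_distrib]
    refine Finset.sum_congr rfl fun b _ => ?_
    simp only [Pi.add_apply]; ring
  map_smul' c φ := by
    unfold gen
    simp only [Pi.smul_apply, smul_eq_mul, RingHom.id_apply, Finset.mul_sum]
    refine Finset.sum_congr rfl fun a _ => ?_
    refine Finset.sum_congr rfl fun b _ => ?_
    ring

theorem gen_lin (h : V → V → ℝ) (φ : Finset V → ℝ) (F : Finset V) :
    gen h φ F = ∑ F0 : Finset V, φ F0 * gen h (pt F0) F := by
  have e : φ = ∑ F0 : Finset V, φ F0 • pt F0 := by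
    funext G; simp [pt]
  have : genL h F φ = ∑ F0 : Finset V, φ F0 * genL h F (pt F0) := by
    conv_lhs => rw [e]
    rw [map_sum]
    simp only [map_smul, smul_eq_mul]
  exact this

theorem gen_const (h : V → V → ℝ) (c : ℝ) (F : Finset V) : gen h (fun _ => c) F = 0 := by
  simp [gen]

theorem gen_congr {h : V → V → ℝ} {φ ψ : Finset V → ℝ} {F : Finset V}
    (e : ∀ G, G ⊆ F → φ G = ψ G) : gen h φ F = gen h ψ F := by
  unfold gen
  congr 1
  refine Finset.sum_congr rfl fun a _ => Finset.sum_congr rfl fun b _ => ?_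
  rw [e _ ((Finset.erase_subset _ _).trans (Finset.erase_subset _ _)), e F Finset.Subset.rfl]

/-- duality of the forward field and the generator -/
theorem sum_fwd (h : V → V → ℝ) (y : Finset V → ℝ) (φ : Finset V → ℝ) :
    ∑ F0 : Finset V, fwd h y F0 * φ F0 = ∑ F : Finset V, y F * gen h φ F := by
  unfold fwd
  simp_rw [Finset.sum_mul]
  rw [Finset.sum_comm]
  refine Finset.sum_congr rfl fun F _ => ?_
  rw [gen_lin h φ F, Finset.mul_sum]
  refine Finset.sum_congr rfl fun F0 _ => ?_
  ring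

section back

variable {h : ℝ → V → V → ℝ} {k : ℝ → V → ℝ}

/-- `R` is the backward function with horizon `s`, hazards `h` and killing rates `k`. -/
structure IsBack (h : ℝ → V → V → ℝ) (k : ℝ → V → ℝ) (s : ℝ) (R : Finset V → ℝ → ℝ) : Prop where
  end_ : ∀ F, R F s = 1
  deriv : ∀ F, ∀ r ∈ Icc 0 s, HasDerivAt (R F)
    (-(gen (h r) (fun G => R G r) F - (∑ a ∈ F, k r a) * R F r)) r
  nonneg : ∀ F, ∀ r ∈ Icc 0 s, 0 ≤ R F r
  le_one : ∀ F, ∀ r ∈ Icc 0 s, R F r ≤ 1

theorem exists_back (hc : ∀ a b, Continuous fun t => h t a b) {C : ℝ}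
    (hb : ∀ t a b, h t a b ≤ C) (h0 : ∀ t a b, 0 ≤ h t a b)
    (kc : ∀ a, Continuous fun t => k t a) (kb : ∀ t a, k t a ≤ C) (k0 : ∀ t a, 0 ≤ k t a)
    {s : ℝ} (hs : s ∈ Ico (0 : ℝ) 1) : ∃ R : Finset V → ℝ → ℝ, IsBack h k s R := by
  have hU : ∀ a b, UBL fun (t : ℝ) (_ : Finset V → ℝ) => h t a b := fun a b =>
    UBL.ofTime (hc a b) (C := C) fun t => by rw [abs_of_nonneg (h0 t a b)]; exact hb t a b
  have kU : ∀ a, UBL fun (t : ℝ) (_ : Finset V → ℝ) => k t a := fun a =>
    UBL.ofTime (kc a) (C := C) fun t => by rw [abs_of_nonneg (k0 t a)]; exact kb t a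
  let cl : (Finset V → ℝ) → Finset V → ℝ := fun y F => max 0 (min 1 (y F))
  let f : ℝ → (Finset V → ℝ) → (Finset V → ℝ) := fun t y F =>
    -(gen (h t) (cl y) F - (∑ a ∈ F, k t a) * cl y F)
  have hf : ∀ F, UBL fun t y => f t y F := by
    intro F
    refine UBL.neg (UBL.sub ?_ ?_)
    · refine (UBL.const (1 / 2)).mul ?_
      refine UBL.sum _ fun a _ => UBL.sum _ fun b _ => ?_
      exact (hU a b).mul ((UBL.coord _).sub (UBL.coord _))
    · exact (UBL.sum _ fun a _ => kU a).mul (UBL.coord F)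
  obtain ⟨α, hα0, hα⟩ := exists_sol f hf (t0 := s) ⟨by linarith [hs.1], hs.2.le⟩ (fun _ => 1)
  have hmem : ∀ r ∈ Icc 0 s, r ∈ Ioo (-1 : ℝ) 1 := fun r hr =>
    ⟨by linarith [hr.1], hr.2.trans_lt hs.2⟩
  have cl0 : ∀ y F, 0 ≤ cl y F := fun y F => le_max_left _ _
  have cl1 : ∀ y F, cl y F ≤ 1 := fun y F => max_le zero_le_one (min_le_left _ _)
  have hge : ∀ F, ∀ r ∈ Icc 0 s, 0 ≤ α r F := by
    intro F
    refine nonneg_of_backward (fun r hr => hα r (hmem r hr) F) (by rw [hα0]; exact zero_le_one) ?_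
    intro r hr hlt
    have hcl : cl (α r) F = 0 := by
      simp only [cl]; exact max_eq_left ((min_le_right _ _).trans hlt.le)
    have : 0 ≤ gen (h r) (cl (α r)) F := by
      unfold gen
      rw [hcl]
      refine mul_nonneg (by norm_num) (Finset.sum_nonneg fun a _ => Finset.sum_nonneg fun b _ => ?_)
      rw [sub_zero]
      exact mul_nonneg (h0 _ _ _) (cl0 _ _)
    simp only [f]
    rw [hcl]
    linarith
  have hle : ∀ F, ∀ r ∈ Icc 0 s, α r F ≤ 1 := by
    intro F r hr
    have := nonneg_of_backward (U := fun r => 1 - α r F) (U' := fun r => -f r (α r) F)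
      (a := 0) (s := s)
      (fun r hr => by simpa using (hα r (hmem r hr) F).const_sub 1)
      (by simp [hα0]) ?_ r hr
    · simpa using this
    · intro r hr hlt
      have hgt : 1 < α r F := by simpa using hlt
      have hcl : cl (α r) F = 1 := by
        simp only [cl]; rw [min_eq_left hgt.le]; exact max_eq_right zero_le_one
      have : gen (h r) (cl (α r)) F ≤ 0 := by
        unfold gen
        rw [hcl]
        refine mul_nonpos_of_nonneg_of_nonpos (by norm_num)
          (Finset.sum_nonpos fun a _ => Finset.sum_nonpos fun b _ => ?_)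
        exact mul_nonpos_of_nonneg_of_nonpos (h0 _ _ _) (by linarith [cl1 (α r) ((F.erase a).erase b)])
      have hk : 0 ≤ (∑ a ∈ F, k r a) * cl (α r) F :=
        mul_nonneg (Finset.sum_nonneg fun a _ => k0 _ _) (cl0 _ _)
      simp only [f]
      linarith
  have hcl : ∀ r ∈ Icc 0 s, cl (α r) = α r := by
    intro r hr
    funext F
    simp only [cl]
    rw [min_eq_right (hle F r hr), max_eq_right (hge F r hr)]
  refine ⟨fun F r => α r F, ⟨fun F => by rw [hα0], fun F r hr => ?_, hge, hle⟩⟩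
  have := hα r (hmem r hr) F
  simp only [f] at this
  rw [hcl r hr] at this
  exact this

end back

section law

/-- `μ` is a forward law started at `U` with hazards `h` on the time interval `[0, T]`. -/
structure IsLaw (h : ℝ → V → V → ℝ) (U : Finset V) (T : ℝ) (μ : ℝ → Finset V → ℝ) : Prop where
  start : μ 0 = pt U
  deriv : ∀ F, ∀ t ∈ Icc 0 T, HasDerivAt (fun t => μ t F) (fwd (h t) (μ t) F) t
  nonneg : ∀ F, ∀ t ∈ Icc 0 T, 0 ≤ μ t F
  total : ∀ t ∈ Icc 0 T, ∑ F : Finset V, μ t F = 1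

theorem exists_law {hz : ℝ → (Finset V → ℝ) → V → V → ℝ} (hU : ∀ a b, UBL fun t y => hz t y a b)
    (h0 : ∀ t y a b, 0 ≤ hz t y a b) (U : Finset V) {T : ℝ} (hT : T ∈ Ico (0 : ℝ) 1) :
    ∃ μ : ℝ → Finset V → ℝ, IsLaw (fun t => hz t (μ t)) U T μ ∧
      ∀ F, Continuous fun t => μ (max 0 (min T t)) F := by
  let cl : (Finset V → ℝ) → Finset V → ℝ := fun y F => max 0 (min 1 (y F))
  let f : ℝ → (Finset V → ℝ) → (Finset V → ℝ) := fun t y F => fwd (hz t y) (cl y) F
  have hgen : ∀ F0 F, UBL fun t y => gen (hz t y) (pt F0) F := by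
    intro F0 F
    refine (UBL.const (1 / 2)).mul (UBL.sum _ fun a _ => UBL.sum _ fun b _ => ?_)
    exact (hU a b).mul (UBL.const _)
  have hf : ∀ F, UBL fun t y => f t y F := by
    intro F
    exact UBL.sum _ fun G _ => (UBL.coord G).mul (hgen F G)
  obtain ⟨α, hα0, hα⟩ := exists_sol f hf (t0 := 0) ⟨by norm_num, by norm_num⟩ (pt U)
  have hmem : ∀ r ∈ Icc 0 T, r ∈ Ioo (-1 : ℝ) 1 := fun r hr =>
    ⟨by linarith [hr.1], hr.2.trans_lt hT.2⟩
  have cl0 : ∀ y F, 0 ≤ cl y F := fun y F => le_max_left _ _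
  have pt0 : ∀ F G : Finset V, 0 ≤ pt F G := fun F G => by unfold pt; split_ifs <;> norm_num
  have hge : ∀ F, ∀ r ∈ Icc 0 T, 0 ≤ α r F := by
    intro F0
    refine nonneg_of_forward (fun r hr => hα r (hmem r hr) F0) (by rw [hα0]; exact pt0 _ _) ?_
    intro r hr hlt
    have hcl : cl (α r) F0 = 0 := by
      simp only [cl]; exact max_eq_left ((min_le_right _ _).trans hlt.le)
    simp only [f]
    unfold fwd
    refine Finset.sum_nonneg fun F _ => ?_
    by_cases hF : F = F0
    · subst hF; rw [hcl, zero_mul]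
    · refine mul_nonneg (cl0 _ _) ?_
      unfold gen
      have : pt F0 F = 0 := by unfold pt; rw [if_neg hF]
      rw [this]
      refine mul_nonneg (by norm_num) (Finset.sum_nonneg fun a _ => Finset.sum_nonneg fun b _ => ?_)
      rw [sub_zero]
      exact mul_nonneg (h0 _ _ _ _) (pt0 _ _)
  have hsum : ∀ r ∈ Icc 0 T, HasDerivAt (fun t => ∑ F : Finset V, α t F) 0 r := by
    intro r hr
    have h1 : HasDerivAt (fun t => ∑ F : Finset V, α t F) (∑ F : Finset V, f r (α r) F) r :=
      HasDerivAt.fun_sum fun F _ => hα r (hmem r hr) F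
    have h2 : ∑ F : Finset V, f r (α r) F = 0 := by
      have := sum_fwd (hz r (α r)) (cl (α r)) (fun _ => 1)
      simp only [mul_one] at this
      simp only [f]
      rw [this]
      simp [gen_const]
    rwa [h2] at h1
  have h00 : ∑ F : Finset V, α 0 F = 1 := by rw [hα0]; simp [pt]
  have htot : ∀ r ∈ Icc 0 T, ∑ F : Finset V, α r F = 1 := by
    intro r hr
    have e1 := nonneg_of_forward (U := fun t => ∑ F : Finset V, α t F - 1) (U' := fun _ => 0)
      (a := 0) (s := T) (fun r hr => by simpa using (hsum r hr).sub_const 1)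
      (by simp [h00]) (fun _ _ _ => le_rfl) r hr
    have e2 := nonneg_of_forward (U := fun t => 1 - ∑ F : Finset V, α t F) (U' := fun _ => 0)
      (a := 0) (s := T) (fun r hr => by simpa using (hsum r hr).const_sub 1)
      (by simp [h00]) (fun _ _ _ => le_rfl) r hr
    linarith
  have hle : ∀ F, ∀ r ∈ Icc 0 T, α r F ≤ 1 := by
    intro F r hr
    rw [← htot r hr]
    exact Finset.single_le_sum (f := fun F => α r F) (fun G _ => hge G r hr) (Finset.mem_univ F)
  have hcl : ∀ r ∈ Icc 0 T, cl (α r) = α r := by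
    intro r hr
    funext F
    simp only [cl]
    rw [min_eq_right (hle F r hr), max_eq_right (hge F r hr)]
  refine ⟨α, ⟨hα0, fun F r hr => ?_, hge, htot⟩, fun F => ?_⟩
  · have := hα r (hmem r hr) F
    simp only [f] at this
    rw [hcl r hr] at this
    exact this
  · have hcl' : Continuous fun t : ℝ => max 0 (min T t) := by fun_prop
    rw [continuous_iff_continuousAt]
    intro t
    have hm : max 0 (min T t) ∈ Icc 0 T := ⟨le_max_left _ _, max_le hT.1 (min_le_left _ _)⟩
    exact ContinuousAt.comp (f := fun t => max 0 (min T t)) (g := fun s => α s F)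
      (hα _ (hmem _ hm) F).continuousAt hcl'.continuousAt

/-- weak form of the forward equation -/
theorem IsLaw.deriv_sum {h : ℝ → V → V → ℝ} {U : Finset V} {T : ℝ} {μ : ℝ → Finset V → ℝ}
    (hμ : IsLaw h U T μ) {φ φ' : ℝ → Finset V → ℝ} {t : ℝ} (ht : t ∈ Icc 0 T)
    (hφ : ∀ F, HasDerivAt (fun t => φ t F) (φ' t F) t) :
    HasDerivAt (fun t => ∑ F : Finset V, μ t F * φ t F)
      (∑ F : Finset V, μ t F * (gen (h t) (φ t) F + φ' t F)) t := by
  have h1 : HasDerivAt (fun t => ∑ F : Finset V, μ t F * φ t F)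
      (∑ F : Finset V, (fwd (h t) (μ t) F * φ t F + μ t F * φ' t F)) t :=
    HasDerivAt.fun_sum fun F _ => (hμ.deriv F t ht).mul (hφ F)
  refine h1.congr_deriv ?_
  rw [Finset.sum_add_distrib, sum_fwd, ← Finset.sum_add_distrib]
  exact Finset.sum_congr rfl fun F _ => by ring

end law

end Pool.Agent.RCRSHalf
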