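import Pool.Agent.RCRSHalf.Num2
import Pool.Agent.RCRSHalf.Main

/-! The certificate satisfies all numerical conditions (MP_73ccd0_lc, exact 1/2). -/

namespace Pool.Agent.RCRSHalf

set_option linter.unusedSimpArgs false
set_option linter.ambiguousOpen false

open Set Poly Poly.PE

namespace Poly.PE

theorem ev_add' (x t s : ℝ) (a b : PE) : eval x t s (a + b) = eval x t s a + eval x t s b := rfl
theorem ev_mul' (x t s : ℝ) (a b : PE) : eval x t s (a * b) = eval x t s a * eval x t s b := rfl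
theorem ev_sub' (x t s : ℝ) (a b : PE) : eval x t s (a - b) = eval x t s a - eval x t s b :=
  eval_sub x t s a b
theorem ev_q (x t s : ℝ) (n : ℤ) (d : ℕ) : eval x t s (q n d) = (n : ℝ) / (d : ℝ) := rfl
theorem ev_pw (x t s : ℝ) (a : PE) (n : ℕ) : eval x t s (pw a n) = eval x t s a ^ n := by
  induction n with
  | zero => simp [pw, eval]
  | succ n ih =>
    cases n with
    | zero => simp [pw]
    | succ n =>
      have : eval x t s (pw a (n + 2)) = eval x t s (pw a (n + 1)) * eval x t s a := rfl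
      rw [this, ih, pow_succ (eval x t s a) (n + 1)]
theorem ev_X (x t s : ℝ) : eval x t s X = x := rfl
theorem ev_T (x t s : ℝ) : eval x t s T = t := rfl
theorem ev_S (x t s : ℝ) : eval x t s S = s := rfl

theorem ev_M (x t s : ℝ) : eval x t s eM = eval 0 t 0 eM := by
  simp only [eM, eT, ev_add', ev_mul', ev_sub', ev_q, ev_pw, ev_X, ev_T]
theorem ev_A (x t s : ℝ) : eval x t s eA = eval 0 t 0 eA := by
  simp only [eA, ev_add', ev_mul', ev_sub', ev_q, ev_pw, ev_X, ev_T]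
theorem ev_E (x t s : ℝ) : eval x t s eE = eval 0 t 0 eE := by
  simp only [eE, ev_add', ev_mul', ev_sub', ev_q, ev_pw, ev_X, ev_T]
theorem ev_w (x t s : ℝ) : eval x t s ew = eval x 0 0 ew := by
  simp only [ew, ewr, ev_add', ev_mul', ev_sub', ev_q, ev_pw, ev_X, ev_T]
theorem ev_wr (x t s : ℝ) : eval x t s ewr = eval x 0 0 ewr := by
  simp only [ewr, ev_add', ev_mul', ev_sub', ev_q, ev_pw, ev_X, ev_T]
theorem ev_fh (x t s : ℝ) : eval x t s efh = eval x 0 0 efh := by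
  simp only [efh, ev_add', ev_mul', ev_sub', ev_q, ev_pw, ev_X, ev_T]

theorem diff_indep {e : PE} (h : ∀ x t s, eval x t s e = eval 0 t 0 e) (x t s : ℝ) :
    eval x t s (diff e) = eval 0 t 0 (diff e) := by
  have h1 := hasDerivAt x s e t
  have h2 := hasDerivAt 0 0 e t
  have e1 : (fun t => eval x t s e) = fun t => eval 0 t 0 e := by
    funext t; exact h x t s
  rw [e1] at h1
  exact h1.unique h2

theorem continuous_eval (x s : ℝ) (e : PE) : Continuous fun t => eval x t s e :=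
  continuous_iff_continuousAt.2 fun t => (hasDerivAt x s e t).continuousAt

end Poly.PE

/-- the profile -/
noncomputable def P0 : Prof where
  G x t := eval x t 0 eG
  G' x t := eval x t 0 (diff eG)
  M t := eval 0 t 0 eM
  μ t := eval 0 t 0 (diff eM)
  Fx y := y * eval y 0 0 efh
  w y := eval y 0 0 ew
  ca := 111 / 1000
  κa := 1076 / 1000
  cb := 175 / 1000
  κb := 112 / 100
  cF := 276 / 1000
  θ := 705 / 10000
  t1 := 1085 / 10000
  t2 := 2015 / 10000
  ρ := 1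
  Fb := 1107 / 1000
  m1 := 11207 / 10000

theorem G1_0 {x t : ℝ} (hx : x ∈ Icc (0 : ℝ) 1) (ht : t ∈ Icc (0 : ℝ) (1 / 2)) :
    1 ≤ eval x t 0 eG := by
  have := nonneg_of_check ck_G1 hx.1 hx.2 ht.1 ht.2 le_rfl (by norm_num : (0 : ℝ) ≤ 1 / 2)
  rw [ev_sub', ev_q] at this
  norm_num at this
  exact this

theorem G'_0 {x t : ℝ} (hx : x ∈ Icc (0 : ℝ) 1) (ht : t ∈ Icc (0 : ℝ) (1 / 2)) :
    eval x t 0 (diff eG) = x * eval x t 0 edG := by
  have := eq_of_check ck_dGX hx.1 hx.2 ht.1 ht.2 le_rfl (by norm_num : (0 : ℝ) ≤ 1 / 2)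
  rw [this]; rfl

theorem dG_nonneg {x t : ℝ} (hx : x ∈ Icc (0 : ℝ) 1) (ht : t ∈ Icc (0 : ℝ) (1 / 2)) :
    0 ≤ eval x t 0 edG :=
  nonneg_of_check ck_dG hx.1 hx.2 ht.1 ht.2 le_rfl (by norm_num : (0 : ℝ) ≤ 1 / 2)

theorem M'_nonneg {t : ℝ} (ht : t ∈ Icc (0 : ℝ) (1 / 2)) : 0 ≤ eval 0 t 0 (diff eM) :=
  nonneg_of_check ck_M' le_rfl zero_le_one ht.1 ht.2 le_rfl (by norm_num : (0 : ℝ) ≤ 1 / 2)

theorem M1_0 : eval 0 (1 / 2) 0 eM ≤ 11207 / 10000 := by
  simp only [eM, eT, ev_add', ev_mul', ev_q, ev_pw, ev_T]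
  norm_num

/-- the elementary conditions on the constants -/
theorem good_aux {c κ θ σ m1 Y : ℝ} (hc : 0 ≤ c) (hκ : 0 ≤ κ) (hθ : 0 ≤ θ) (hθ1 : θ < 1)
    (hσ : 0 ≤ σ) (hm1 : 0 ≤ m1)
    (hg5 : ∀ m ∈ Icc 0 m1, κ * (m ^ 2 / 120 + c * m ^ 5 / 1680) ≤ θ * (1 / 6 + c * m ^ 3 / 30))
    (hY : σ * (1 / 6 + c * m1 ^ 3 / 30) + σ / (1 - θ) * (κ * (m1 ^ 2 / 120 + c * m1 ^ 5 / 1680)) ≤ Y)
    (hY1 : κ * Y ≤ c) (hY2 : 1 + (Y * m1 ^ 3) / 2 + (Y * m1 ^ 3) ^ 2 / 6
      + (Y * m1 ^ 3) ^ 3 * (5 / 96) ≤ κ) (hY3 : Y * m1 ^ 3 ≤ 1)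
    (hn : σ * (m1 ^ 2 / 2 + c * m1 ^ 5 / 5) + σ / (1 - θ) * (κ * (m1 ^ 4 / 24 + c * m1 ^ 7 / 210)) ≤ 1) :
    Good c κ θ σ m1 where
  c0 := hc
  κ0 := hκ
  θ0 := hθ
  θ1 := hθ1
  σ0 := hσ
  g5le m hm := by
    have h := mul_le_mul_of_nonneg_right (hg5 m hm) (pow_nonneg hm.1 3)
    unfold g5 g3
    calc κ * (m ^ 5 / 120 + c * m ^ 8 / 1680) = κ * (m ^ 2 / 120 + c * m ^ 5 / 1680) * m ^ 3 := by
          ring
      _ ≤ _ := h
      _ = _ := by ring
  ey m hm y hy0 hy := by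
    have hsθ : 0 ≤ σ / (1 - θ) := div_nonneg hσ (by linarith)
    have hp : ∀ n : ℕ, m ^ n ≤ m1 ^ n := fun n => pow_le_pow_left₀ hm.1 hm.2 n
    have hY0 : 0 ≤ Y := by
      refine le_trans ?_ hY
      have : 0 ≤ σ / (1 - θ) * (κ * (m1 ^ 2 / 120 + c * m1 ^ 5 / 1680)) := by positivity
      positivity
    -- y ≤ Y m^3
    have h1 : y ≤ Y * m ^ 3 := by
      refine hy.trans ?_
      have e1 : σ * g3 c m + σ / (1 - θ) * g5 c κ m
          = (σ * (1 / 6 + c * m ^ 3 / 30) + σ / (1 - θ) * (κ * (m ^ 2 / 120 + c * m ^ 5 / 1680)))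
            * m ^ 3 := by
        unfold g3 g5; ring
      rw [e1]
      refine mul_le_mul_of_nonneg_right (le_trans ?_ hY) (pow_nonneg hm.1 3)
      have a1 : σ * (1 / 6 + c * m ^ 3 / 30) ≤ σ * (1 / 6 + c * m1 ^ 3 / 30) := by
        refine mul_le_mul_of_nonneg_left ?_ hσ
        have := mul_le_mul_of_nonneg_left (hp 3) hc
        linarith
      have a2 : σ / (1 - θ) * (κ * (m ^ 2 / 120 + c * m ^ 5 / 1680))
          ≤ σ / (1 - θ) * (κ * (m1 ^ 2 / 120 + c * m1 ^ 5 / 1680)) := by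
        refine mul_le_mul_of_nonneg_left (mul_le_mul_of_nonneg_left ?_ hκ) hsθ
        have := mul_le_mul_of_nonneg_left (hp 5) hc
        have := hp 2
        linarith
      linarith
    have hm3 : 0 ≤ m ^ 3 := pow_nonneg hm.1 3
    have h2 : y ≤ Y * m1 ^ 3 := h1.trans (mul_le_mul_of_nonneg_left (hp 3) hY0)
    constructor
    · have hy1 : y ≤ 1 := h2.trans hY3
      have hb := Real.exp_bound' hy0 hy1 (n := 4) (by norm_num)
      have hsum : ∑ m ∈ Finset.range 4, y ^ m / (m.factorial : ℝ) = 1 + y + y ^ 2 / 2 + y ^ 3 / 6 := by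
        simp [Finset.sum_range_succ, Nat.factorial]
      rw [hsum] at hb
      have hf : ((4 : ℕ).factorial : ℝ) = 24 := by norm_num [Nat.factorial]
      rw [hf] at hb
      have h3 : Real.exp y ≤ 1 + y * (1 + y / 2 + y ^ 2 / 6 + y ^ 3 * (5 / 96)) := by
        refine hb.trans (le_of_eq ?_)
        push_cast
        ring
      refine h3.trans ?_
      have h4 : 1 + y / 2 + y ^ 2 / 6 + y ^ 3 * (5 / 96) ≤ κ := by
        refine le_trans ?_ hY2
        have b2 := pow_le_pow_left₀ hy0 h2 2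
        have b3 := pow_le_pow_left₀ hy0 h2 3
        linarith
      have := mul_le_mul_of_nonneg_left h4 hy0
      linarith
    · calc κ * y ≤ κ * (Y * m ^ 3) := mul_le_mul_of_nonneg_left h1 hκ
        _ = (κ * Y) * m ^ 3 := by ring
        _ ≤ c * m ^ 3 := mul_le_mul_of_nonneg_right hY1 hm3
  n1 m hm := by
    refine le_trans ?_ hn
    have hsθ : 0 ≤ σ / (1 - θ) := div_nonneg hσ (by linarith)
    have hp : ∀ n : ℕ, m ^ n ≤ m1 ^ n := fun n => pow_le_pow_left₀ hm.1 hm.2 n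
    have a1 : σ * b2 c m ≤ σ * (m1 ^ 2 / 2 + c * m1 ^ 5 / 5) := by
      refine mul_le_mul_of_nonneg_left ?_ hσ
      unfold b2
      have := mul_le_mul_of_nonneg_left (hp 5) hc
      have := hp 2
      linarith
    have a2 : σ / (1 - θ) * b4 c κ m ≤ σ / (1 - θ) * (κ * (m1 ^ 4 / 24 + c * m1 ^ 7 / 210)) := by
      refine mul_le_mul_of_nonneg_left ?_ hsθ
      unfold b4
      refine mul_le_mul_of_nonneg_left ?_ hκ
      have := mul_le_mul_of_nonneg_left (hp 7) hc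
      have := hp 4
      linarith
    linarith

/-- the scaled variable -/
theorem scaled {m : ℝ} (hm : m ∈ Icc (0 : ℝ) (11207 / 10000)) :
    0 ≤ m / (22414 / 10000) ∧ m / (22414 / 10000) ≤ 1 / 2 ∧
      eval 0 (m / (22414 / 10000)) 0 PE.em = m := by
  refine ⟨div_nonneg hm.1 (by norm_num), ?_, ?_⟩
  · rw [div_le_iff₀ (by norm_num)]
    norm_num
    linarith [hm.2]
  · simp only [PE.em, ev_mul', ev_q, ev_T]
    push_cast
    field_simp

theorem goodA : Good P0.ca P0.κa P0.θ (2 * P0.cF) P0.m1 := by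
  refine good_aux (Y := 1017 / 10000) (by norm_num [P0]) (by norm_num [P0]) (by norm_num [P0])
    (by norm_num [P0]) (by norm_num [P0]) (by norm_num [P0]) (fun m hm => ?_)
    (by norm_num [P0]) (by norm_num [P0]) (by norm_num [P0]) (by norm_num [P0]) (by norm_num [P0])
  obtain ⟨h0, h1, h2⟩ := scaled hm
  have := nonneg_of_check ck_th_a le_rfl zero_le_one h0 h1 le_rfl (by norm_num : (0 : ℝ) ≤ 1 / 2)
  simp only [ev_sub', ev_mul', ev_add', ev_q, ev_pw, h2] at this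
  simp only [P0]
  push_cast at this
  linarith

theorem goodB : Good P0.cb P0.κb P0.θ (3 * P0.cF) P0.m1 := by
  refine good_aux (Y := 1555 / 10000) (by norm_num [P0]) (by norm_num [P0]) (by norm_num [P0])
    (by norm_num [P0]) (by norm_num [P0]) (by norm_num [P0]) (fun m hm => ?_)
    (by norm_num [P0]) (by norm_num [P0]) (by norm_num [P0]) (by norm_num [P0]) (by norm_num [P0])
  obtain ⟨h0, h1, h2⟩ := scaled hm
  have := nonneg_of_check ck_th_b le_rfl zero_le_one h0 h1 le_rfl (by norm_num : (0 : ℝ) ≤ 1 / 2)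
  simp only [ev_sub', ev_mul', ev_add', ev_q, ev_pw, h2] at this
  simp only [P0]
  push_cast at this
  linarith

end Pool.Agent.RCRSHalf
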