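import Pool.Agent.RCRSHalf.Poly

/-! The polynomials of the certificate (MP_73ccd0_lc, exact 1/2). -/

namespace Pool.Agent.RCRSHalf.Poly.PE

instance : Add PE := ⟨PE.add⟩
instance : Mul PE := ⟨PE.mul⟩
instance : Sub PE := ⟨PE.sub⟩

/-- power -/
def pw (a : PE) : ℕ → PE
  | 0 => c 1 1
  | 1 => a
  | n + 2 => mul (pw a (n + 1)) a

/-- rational constant -/
def q (n : ℤ) (d : ℕ) : PE := c n d

def eT : PE := T + q 102 100 * pw T 2 + q 32 10 * pw T 3 + q (-825) 100 * pw T 4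
  + q 132 10 * pw T 5
def eg2 : PE := q (-65) 10 * pw T 2 + q 3 1 * pw T 3 + q 301 10 * pw T 4
def eG : PE := q 1 1 + X * eT + pw X 2 * (q 1 1 - X) * eg2
def eM : PE := eT + q 22 10 * pw T 5
def eA : PE := pw T 2 * (q 1 1 - q 2 1 * T) * (q 64 10 - q 89 10 * T)
def eE : PE := pw T 3 * (q 1 1 - q 2 1 * T) * (q 75 100 + q 625 100 * T)
def ewr : PE := q 1 1 + q 78 100 * X - q 68 100 * pw X 2
def ew : PE := (q 1 1 - X) * ewr
def efh : PE := q 1 1 + q 37 100 * X - q 325 1000 * pw X 2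
/-- `∂G/∂t` divided by `x` -/
def edG : PE := diff eT + X * (q 1 1 - X) * diff eg2
def eIG : PE :=
  q (1) 1 * T + q (1) 2 * X * pw T 2 + q (17) 50 * X * pw T 3 + q (-13) 6 * pw X 2 * pw T 3
    + q (13) 6 * pw X 3 * pw T 3 + q (4) 5 * X * pw T 4 + q (3) 4 * pw X 2 * pw T 4
    + q (-3) 4 * pw X 3 * pw T 4 + q (-33) 20 * X * pw T 5 + q (301) 50 * pw X 2 * pw T 5
    + q (-301) 50 * pw X 3 * pw T 5 + q (11) 5 * X * pw T 6
def eIA : PE :=
  q (32) 5 * pw T 2 + q (-217) 10 * pw T 3 + q (64) 15 * X * pw T 3 + q (89) 5 * pw T 4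
    + q (-13011) 1000 * X * pw T 4 + q (-104) 5 * pw X 2 * pw T 4 + q (104) 5 * pw X 3 * pw T 4
    + q (22879) 2500 * X * pw T 5 + q (9231) 100 * pw X 2 * pw T 5
    + q (-9231) 100 * pw X 3 * pw T 5 + q (-5027) 125 * X * pw T 6
    + q (-4547) 100 * pw X 2 * pw T 6 + q (4547) 100 * pw X 3 * pw T 6 + q (7471) 56 * X * pw T 7
    + q (-174591) 700 * pw X 2 * pw T 7 + q (174591) 700 * pw X 3 * pw T 7
    + q (-4521) 25 * X * pw T 8 + q (26789) 100 * pw X 2 * pw T 8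
    + q (-26789) 100 * pw X 3 * pw T 8 + q (7832) 75 * X * pw T 9
def eJ0 : PE :=
  q (1) 16 * pw T 4 + q (1) 20 * X * pw T 5 + q (17) 400 * X * pw T 6
    + q (-13) 48 * pw X 2 * pw T 6 + q (13) 48 * pw X 3 * pw T 6 + q (73) 35 * pw T 7
    + q (4) 35 * X * pw T 7 + q (3) 28 * pw X 2 * pw T 7 + q (-3) 28 * pw X 3 * pw T 7
    + q (1003) 640 * X * pw T 8 + q (301) 320 * pw X 2 * pw T 8 + q (-301) 320 * pw X 3 * pw T 8
    + q (758) 375 * X * pw T 9 + q (-949) 90 * pw X 2 * pw T 9 + q (949) 90 * pw X 3 * pw T 9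
    + q (584) 125 * X * pw T 10 + q (219) 50 * pw X 2 * pw T 10 + q (-219) 50 * pw X 3 * pw T 10
    + q (-219) 20 * X * pw T 11 + q (21973) 550 * pw X 2 * pw T 11
    + q (-21973) 550 * pw X 3 * pw T 11 + q (803) 50 * X * pw T 12

/-- upper bound of `g3 (M t)` -/
def eP3 : PE := pw T 3 * (q 25 100 + q 146 10 * pw T 3)
/-- upper bound of `kc (M t)` -/
def eP4 : PE := pw T 4 * (q 274 100 - q 445 10 * T + q 281 1 * pw T 2 - q 730 1 * pw T 3
  + q 7112 10 * pw T 4)

def ewm : PE := q 306 1000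
def en0 : PE := q 136 100
def eKj : PE := q 13 10 * q 112 100 * q 1107 1000
def edn : PE := q 675 100 * X * pw T 6
def eIE : PE := eE * eG
def eDp : PE := eIA - eIE + edn
def el : PE := ewm * (q 1 1 - X)
def ek : PE := q 2 1 * en0 * eP4
def ej : PE := en0 * (eKj * eJ0)
def ee : PE := X * eIE
def eb0 : PE := q 1 1 - (q 1 1 - X) * eIG - pw X 2 * (q 1 1 - X) * (q 231 100 * eE) - el * edn
def ec0 : PE := q 1 1 - X * ew * diff eA
def eL : PE := q 2 1 * eb0 * (ee - ej + eDp) - q 2 1 * el * eDp * ej - ek * pw eb0 2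
  - q 2 1 * el * ek * eb0 * (ee + eDp)
def eqq : PE := pw (q 1 1 - T) 2

set_option maxRecDepth 100000

theorem ck_IG : eqB (diff eIG) eG = true := by decide +kernel
theorem ck_IA : eqB (diff eIA) (diff eA * eG) = true := by decide +kernel
theorem ck_J0 : eqB (diff eJ0) (eP3 * eG) = true := by decide +kernel
theorem ck_M' : nonnegB 0 3 0 (diff eM) = true := by decide +kernel
theorem ck_dG : nonnegB 3 3 0 edG = true := by decide +kernel
theorem ck_eta : nonnegB 3 4 0 (diff eM * eG - edG) = true := by decide +kernel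
theorem ck_G1 : nonnegB 3 3 0 (eG - q 1 1) = true := by decide +kernel
theorem ck_IGn : nonnegB 3 3 0 eIG = true := by decide +kernel
theorem ck_Dp : nonnegB 4 4 0 eDp = true := by decide +kernel
theorem ck_E : nonnegB 3 3 0 eE = true := by decide +kernel
theorem ck_cE : nonnegB 4 4 0 (q 231 100 * (q 1 1 - X) - ew * eG) = true := by decide +kernel
theorem ck_b0 : nonnegB 2 2 0 (eb0 - el * ej) = true := by decide +kernel
theorem ck_kl : nonnegB 2 2 0 (q 1 1 - ek * el) = true := by decide +kernel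
theorem ck_C1a : nonnegB 2 2 0 (pw eb0 2 - eqq * ec0) = true := by decide +kernel
theorem ck_C1b : nonnegB 2 2 0 (pw eb0 2 - eqq * ec0 + el * (eL - eqq * diff eE)) = true := by
  decide +kernel
theorem ck_C2a : nonnegB 3 3 0 (edG * pw eb0 2 - ec0 * pw eG 2) = true := by decide +kernel
theorem ck_C2b : nonnegB 3 3 0 (edG * pw eb0 2 - ec0 * pw eG 2
    + el * (edG * eL - diff eE * pw eG 2)) = true := by decide +kernel

end Pool.Agent.RCRSHalf.Poly.PE
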