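import Pool.Agent.RCRSHalf.Num

/-! The polynomials of the certificate, part 2 (MP_73ccd0_lc, exact 1/2). -/

namespace Pool.Agent.RCRSHalf.Poly.PE

/-- substitute `s` for `t` -/
def subS : PE → PE
  | c n d => c n d
  | X => X
  | T => S
  | S => S
  | add a b => add (subS a) (subS b)
  | mul a b => mul (subS a) (subS b)

theorem eval_subS (x t s : ℝ) (e : PE) : eval x t s (subS e) = eval x s s e := by
  induction e with
  | c n d => rfl
  | X => rfl
  | T => rfl
  | S => rfl
  | add a b iha ihb => simp only [subS, eval, iha, ihb]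
  | mul a b iha ihb => simp only [subS, eval, iha, ihb]

/-- divided differences of `eT`, `eg2`, `eM` -/
def eDT : PE :=
  q (1) 1 + q (51) 50 * S + q (51) 50 * T + q (16) 5 * pw S 2 + q (16) 5 * T * S
    + q (16) 5 * pw T 2 + q (-33) 4 * pw S 3 + q (-33) 4 * T * pw S 2 + q (-33) 4 * pw T 2 * S
    + q (-33) 4 * pw T 3 + q (66) 5 * pw S 4 + q (66) 5 * T * pw S 3 + q (66) 5 * pw T 2 * pw S 2
    + q (66) 5 * pw T 3 * S + q (66) 5 * pw T 4
def eDg : PE :=
  q (-13) 2 * S + q (-13) 2 * T + q (3) 1 * pw S 2 + q (3) 1 * T * S + q (3) 1 * pw T 2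
    + q (301) 10 * pw S 3 + q (301) 10 * T * pw S 2 + q (301) 10 * pw T 2 * S
    + q (301) 10 * pw T 3
def eDM : PE :=
  q (1) 1 + q (51) 50 * S + q (51) 50 * T + q (16) 5 * pw S 2 + q (16) 5 * T * S
    + q (16) 5 * pw T 2 + q (-33) 4 * pw S 3 + q (-33) 4 * T * pw S 2 + q (-33) 4 * pw T 2 * S
    + q (-33) 4 * pw T 3 + q (77) 5 * pw S 4 + q (77) 5 * T * pw S 3 + q (77) 5 * pw T 2 * pw S 2
    + q (77) 5 * pw T 3 * S + q (77) 5 * pw T 4

/-- scaled variable for the range of `M` -/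
def em : PE := q 22414 10000 * T

set_option maxRecDepth 100000

theorem ck_DG : eqB (subS eG - eG) ((S - T) * (X * (eDT + X * (q 1 1 - X) * eDg))) = true := by
  decide +kernel
theorem ck_DM : eqB (subS eM - eM) ((S - T) * eDM) = true := by decide +kernel
theorem ck_F : nonnegB 3 3 3 (efh * eG * eDM - (eDT + X * (q 1 1 - X) * eDg)) = true := by
  decide +kernel
theorem ck_dGX : eqB (diff eG) (X * edG) = true := by decide +kernel
-- one-variable conditions in `x`
theorem ck_F1 : nonnegB 3 0 0 (efh - q 1 1) = true := by decide +kernel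
theorem ck_Fb : nonnegB 3 0 0 (q 1107 1000 - efh) = true := by decide +kernel
theorem ck_hw : nonnegB 8 0 0 (ewr - pw efh 2) = true := by decide +kernel
theorem ck_hrho : nonnegB 4 0 0 (q 1 1 - pw efh 2 * (q 1 1 - X)) = true := by decide +kernel
theorem ck_wr : nonnegB 4 0 0 (ewr - q 1 1) = true := by decide +kernel
theorem ck_cF : nonnegB 8 0 0 (q 276 1000 - (q 1 1 - X) * (X * efh)) = true := by decide +kernel
theorem ck_wm : nonnegB 8 0 0 (ewm - X * ew) = true := by decide +kernel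
-- one-variable conditions in `m`
theorem ck_th_b : nonnegB 0 4 0 (q 705 10000 * (q 1 6 + q 175 1000 * q 1 30 * pw em 3)
    - q 112 100 * (q 1 120 * pw em 2 + q 175 1000 * q 1 1680 * pw em 5)) = true := by
  decide +kernel
theorem ck_th_a : nonnegB 0 4 0 (q 705 10000 * (q 1 6 + q 111 1000 * q 1 30 * pw em 3)
    - q 1076 1000 * (q 1 120 * pw em 2 + q 111 1000 * q 1 1680 * pw em 5)) = true := by
  decide +kernel
theorem ck_t2 : nonnegB 0 4 0 (q 2015 10000 * (q 1 1 + q 111 1000 * pw em 3)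
    - q 1076 1000 * (q 1 6 * pw em 2 + q 111 1000 * q 1 30 * pw em 5)) = true := by
  decide +kernel
theorem ck_t1 : nonnegB 0 4 0 (q 1085 10000 * (q 1 2 + q 111 1000 * q 1 5 * pw em 3)
    - q 1076 1000 * (q 1 24 * pw em 2 + q 111 1000 * q 1 210 * pw em 5)) = true := by
  decide +kernel
-- upper bounds for `kc (M t)`, `g3 (M t)`
theorem ck_P3 : nonnegB 0 4 0 (eP3 - (q 1 6 * pw eM 3 + q 175 1000 * q 1 30 * pw eM 6)) = true := by
  decide +kernel
theorem ck_P4 : nonnegB 0 4 0 (eP4 - (q 1 8 * pw eM 4 + q 6 35 * q 111 1000 * pw eM 7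
    + q 9 100 * pw (q 111 1000) 2 * pw eM 10 + pw (q 111 1000) 3 * q 1 65 * pw eM 13)) = true := by
  decide +kernel
-- bounds for `1 - x w A' + ω E'`
theorem ck_cf1 : nonnegB 3 5 0 (ec0 - q 4 10) = true := by decide +kernel
theorem ck_cf2 : nonnegB 3 5 0 (ec0 + el * diff eE - q 4 10) = true := by decide +kernel
theorem ck_cf3 : nonnegB 7 5 0 (q 13 10 - ec0) = true := by decide +kernel
theorem ck_cf4 : nonnegB 3 5 0 (q 13 10 - ec0 - el * diff eE) = true := by decide +kernel
theorem ck_G25 : nonnegB 3 3 0 (q 25 10 - eG) = true := by decide +kernel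

end Pool.Agent.RCRSHalf.Poly.PE
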