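import Pool.Agent.RCRSHalf.Func
import Pool.Agent.RCRS.Setup

/-! Edge weights as a function of two vertices, sums over edges and over pairs of vertices
(MP_73ccd0_lc, exact 1/2). -/

set_option linter.unusedSectionVars false

namespace Pool.Agent.RCRSHalf

open Pool.Agent.RCRS

variable {V : Type} [Fintype V] [DecidableEq V] {G : SimpleGraph V} [Fintype G.edgeSet]
  [DecidableEq G.edgeSet]

theorem exists_rep (e : Sym2 V) : ∃ p : V × V, s(p.1, p.2) = e := by
  induction e with
  | _ a b => exact ⟨(a, b), rfl⟩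

/-- first end point -/
noncomputable def fe (e : G.edgeSet) : V := (exists_rep (e : Sym2 V)).choose.1
/-- second end point -/
noncomputable def se (e : G.edgeSet) : V := (exists_rep (e : Sym2 V)).choose.2

theorem rep (e : G.edgeSet) : s(fe e, se e) = (e : Sym2 V) := (exists_rep (e : Sym2 V)).choose_spec

theorem adj_rep (e : G.edgeSet) : G.Adj (fe e) (se e) := by
  have := e.2
  rw [← rep e] at this
  exact this

theorem ne_rep (e : G.edgeSet) : fe e ≠ se e := (adj_rep e).ne

theorem ends_rep (e : G.edgeSet) : ends G (Sum.inl e) = {fe e, se e} := by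
  ext v
  rw [ends_inl, ← rep e, Sym2.mem_iff, Finset.mem_insert, Finset.mem_singleton]

/-- weights as a function of two vertices -/
noncomputable def xw (x : G.edgeSet → ℝ) (a b : V) : ℝ := by
  classical exact if h : G.Adj a b then x ⟨s(a, b), h⟩ else 0

theorem xw_adj (x : G.edgeSet → ℝ) {a b : V} (h : G.Adj a b) : xw x a b = x ⟨s(a, b), h⟩ := by
  unfold xw; rw [dif_pos h]

theorem xw_nadj (x : G.edgeSet → ℝ) {a b : V} (h : ¬ G.Adj a b) : xw x a b = 0 := by
  unfold xw; rw [dif_neg h]

theorem xw_rep (x : G.edgeSet → ℝ) (e : G.edgeSet) : xw x (fe e) (se e) = x e := by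
  rw [xw_adj x (adj_rep e)]
  congr 1
  exact Subtype.ext (rep e)

theorem xw_symm (x : G.edgeSet → ℝ) (a b : V) : xw x a b = xw x b a := by
  by_cases h : G.Adj a b
  · rw [xw_adj x h, xw_adj x h.symm]
    congr 1
    exact Subtype.ext Sym2.eq_swap
  · rw [xw_nadj x h, xw_nadj x fun h' => h h'.symm]

theorem sum_pairs (g : V → V → ℝ) (hg : ∀ a b, ¬ G.Adj a b → g a b = 0) :
    ∑ a, ∑ b, g a b = ∑ e : G.edgeSet, (g (fe e) (se e) + g (se e) (fe e)) := by
  have h1 : ∀ a b, g a b = ∑ e : G.edgeSet, if s(a, b) = (e : Sym2 V) then g a b else 0 := by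
    intro a b
    by_cases hab : G.Adj a b
    · rw [Finset.sum_eq_single (⟨s(a, b), hab⟩ : G.edgeSet)]
      · simp
      · intro e _ he
        rw [if_neg]
        intro h
        exact he (Subtype.ext h.symm)
      · intro h; exact absurd (Finset.mem_univ _) h
    · rw [hg a b hab]
      simp
  have h2 : ∑ a, ∑ b, g a b
      = ∑ e : G.edgeSet, ∑ a, ∑ b, if s(a, b) = (e : Sym2 V) then g a b else 0 := by
    calc ∑ a, ∑ b, g a b
        = ∑ a, ∑ b, ∑ e : G.edgeSet, (if s(a, b) = (e : Sym2 V) then g a b else 0) :=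
          Finset.sum_congr rfl fun a _ => Finset.sum_congr rfl fun b _ => h1 a b
      _ = ∑ a, ∑ e : G.edgeSet, ∑ b, (if s(a, b) = (e : Sym2 V) then g a b else 0) :=
          Finset.sum_congr rfl fun a _ => Finset.sum_comm
      _ = _ := Finset.sum_comm
  rw [h2]
  refine Finset.sum_congr rfl fun e _ => ?_
  have h3 : ∀ a b, (if s(a, b) = (e : Sym2 V) then g a b else 0)
      = (if a = fe e then (if b = se e then g a b else 0) else 0)
        + (if a = se e then (if b = fe e then g a b else 0) else 0) := by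
    intro a b
    have hiff : s(a, b) = (e : Sym2 V) ↔ (a = fe e ∧ b = se e) ∨ (a = se e ∧ b = fe e) := by
      rw [← rep e, Sym2.eq_iff]
    have hne := ne_rep e
    by_cases h1 : a = fe e
    · have h2 : a ≠ se e := fun h => hne (h1.symm.trans h)
      rw [if_pos h1, if_neg h2, add_zero]
      refine if_congr ?_ rfl rfl
      rw [hiff]; tauto
    · by_cases h2 : a = se e
      · rw [if_neg h1, if_pos h2, zero_add]
        refine if_congr ?_ rfl rfl
        rw [hiff]; tauto
      · rw [if_neg h1, if_neg h2, add_zero, if_neg]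
        rw [hiff]; tauto
  simp_rw [h3, Finset.sum_add_distrib]
  simp

theorem xw_row (x : G.edgeSet → ℝ) (a : V) :
    ∑ b, xw x a b = ∑ e : G.edgeSet, if a ∈ (e : Sym2 V) then x e else 0 := by
  have h1 : ∑ b, xw x a b = ∑ c, ∑ b, if c = a then xw x c b else 0 := by
    rw [Finset.sum_comm]
    simp
  rw [h1, sum_pairs (G := G) _ (fun c b h => by rw [xw_nadj x h]; simp)]
  refine Finset.sum_congr rfl fun e _ => ?_
  rw [xw_symm x (se e) (fe e), xw_rep]
  have hne := ne_rep e
  have hmem : a ∈ (e : Sym2 V) ↔ a = fe e ∨ a = se e := by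
    rw [← rep e, Sym2.mem_iff]
  by_cases h2 : fe e = a
  · have h3 : se e ≠ a := fun h => hne (h2.trans h.symm)
    rw [if_pos h2, if_neg h3, if_pos (hmem.2 (Or.inl h2.symm)), add_zero]
  · by_cases h3 : se e = a
    · rw [if_neg h2, if_pos h3, if_pos (hmem.2 (Or.inr h3.symm)), zero_add]
    · rw [if_neg h2, if_neg h3, if_neg, add_zero]
      rw [hmem]
      rintro (h | h)
      · exact h2 h.symm
      · exact h3 h.symm

theorem xw_isW {x : G.edgeSet → ℝ} (hG : G.CliqueFree 3) (hx : IsFractionalMatching G x) :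
    IsW (xw x) where
  symm := xw_symm x
  nonneg a b := by
    by_cases h : G.Adj a b
    · rw [xw_adj x h]; exact (hx.1 _).1
    · rw [xw_nadj x h]
  diag a := xw_nadj x (G.loopless.irrefl a)
  row a := by
    rw [xw_row]
    exact hx.2 a
  tri a b c hab hbc := by
    have h1 : G.Adj a b := by
      by_contra h; exact hab (xw_nadj x h)
    have h2 : G.Adj b c := by
      by_contra h; exact hbc (xw_nadj x h)
    refine xw_nadj x fun h3 => ?_
    exact hG {a, b, c} (SimpleGraph.is3Clique_triple_iff.2 ⟨h1, h3, h2⟩)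

end Pool.Agent.RCRSHalf
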