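import Mathlib

/-! Reflective verification of polynomial inequalities on boxes by the Bernstein method
(MP_73ccd0_lc, exact 1/2). -/

namespace Pool.Agent.RCRSHalf.Poly

/-- operations on a type of coefficients -/
structure Ops (α : Type) where
  zero : α
  add : α → α → α
  smul : ℤ → α → α
  mul : α → α → α
  nn : α → Bool

/-- interpretation of the coefficients -/
structure Hom {α : Type} (o : Ops α) (f : α → ℝ) : Prop where
  zero : f o.zero = 0
  add : ∀ a b, f (o.add a b) = f a + f b
  smul : ∀ n a, f (o.smul n a) = n * f a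
  mul : ∀ a b, f (o.mul a b) = f a * f b
  nn : ∀ a, o.nn a = true → 0 ≤ f a

def isNN : ℤ → Bool
  | .ofNat _ => true
  | .negSucc _ => false

def opsZ : Ops ℤ := ⟨0, fun a b => a + b, fun a b => a * b, fun a b => a * b, isNN⟩

theorem homZ : Hom opsZ (fun a : ℤ => (a : ℝ)) where
  zero := by simp [opsZ]
  add a b := by simp [opsZ]
  smul a b := by simp [opsZ]
  mul a b := by simp [opsZ]
  nn a h := by
    simp only [opsZ, isNN] at h
    cases a with
    | ofNat n => simp
    | negSucc n => simp at h

variable {α : Type} (o : Ops α) (f : α → ℝ)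

def addL : List α → List α → List α
  | [], l => l
  | a :: l, [] => a :: l
  | a :: l, b :: m => o.add a b :: addL l m

def smulL (n : ℤ) : List α → List α
  | [] => []
  | a :: l => o.smul n a :: smulL n l

def scaleL (c : α) : List α → List α
  | [] => []
  | a :: l => o.mul c a :: scaleL c l

def mulL : List α → List α → List α
  | [], _ => []
  | a :: l, m => addL o (scaleL o a m) (o.zero :: mulL l m)

def ev (l : List α) (t : ℝ) : ℝ :=
  match l with
  | [] => 0
  | a :: l => f a + t * ev l t

variable {o f}

theorem ev_add (h : Hom o f) (l m : List α) (t : ℝ) :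
    ev f (addL o l m) t = ev f l t + ev f m t := by
  induction l generalizing m with
  | nil => simp [addL, ev]
  | cons a l ih =>
    cases m with
    | nil => simp [addL, ev]
    | cons b m => simp only [addL, ev, ih, h.add]; ring

theorem ev_smul (h : Hom o f) (n : ℤ) (l : List α) (t : ℝ) :
    ev f (smulL o n l) t = n * ev f l t := by
  induction l with
  | nil => simp [smulL, ev]
  | cons a l ih => simp only [smulL, ev, ih, h.smul]; ring

theorem ev_scale (h : Hom o f) (c : α) (l : List α) (t : ℝ) :
    ev f (scaleL o c l) t = f c * ev f l t := by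
  induction l with
  | nil => simp [scaleL, ev]
  | cons a l ih => simp only [scaleL, ev, ih, h.mul]; ring

theorem ev_mul (h : Hom o f) (l m : List α) (t : ℝ) :
    ev f (mulL o l m) t = ev f l t * ev f m t := by
  induction l with
  | nil => simp [mulL, ev]
  | cons a l ih => simp only [mulL, ev, ev_add h, ev_scale h, ih, h.zero]; ring

/-- homogeneous evaluation: `Σ b_k u^k w^(n-k)`, `n = length - 1` -/
def hv (f : α → ℝ) (l : List α) (u w : ℝ) : ℝ :=
  match l with
  | [] => 0
  | a :: l => f a * w ^ l.length + u * hv f l u w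

/-- binomial expansion of `c (u + w)^n` (length `n+1`) times the previous coefficients:
multiply the homogeneous polynomial by `(a u + b w)` -/
def mulLin (o : Ops α) (a b : ℤ) (prev : α) : List α → List α
  | [] => [o.smul a prev]
  | c :: l => o.add (o.smul a prev) (o.smul b c) :: mulLin o a b c l

/-- multiply by `a u + b w` -/
def mulLin' (o : Ops α) (a b : ℤ) : List α → List α
  | [] => []
  | c :: l => o.smul b c :: mulLin o a b c l

theorem length_mulLin (a b : ℤ) (prev : α) (l : List α) :
    (mulLin o a b prev l).length = l.length + 1 := by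
  induction l generalizing prev with
  | nil => simp [mulLin]
  | cons c l ih => simp [mulLin, ih]

theorem hv_mulLin (h : Hom o f) (a b : ℤ) (prev : α) (l : List α) (u w : ℝ) :
    hv f (mulLin o a b prev l) u w = a * f prev * w ^ l.length + (a * u + b * w) * hv f l u w := by
  induction l generalizing prev with
  | nil => simp [mulLin, hv, h.smul]
  | cons c l ih =>
    simp only [mulLin, hv, ih, h.add, h.smul, length_mulLin, List.length_cons]
    ring

theorem hv_mulLin' (h : Hom o f) (a b : ℤ) {l : List α} (hl : l ≠ []) (u w : ℝ) :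
    hv f (mulLin' o a b l) u w = (a * u + b * w) * hv f l u w := by
  cases l with
  | nil => exact absurd rfl hl
  | cons c l =>
    simp only [mulLin', hv, hv_mulLin h, h.smul, length_mulLin]
    ring

theorem length_mulLin' (a b : ℤ) {l : List α} (hl : l ≠ []) :
    (mulLin' o a b l).length = l.length + 1 := by
  cases l with
  | nil => exact absurd rfl hl
  | cons c l => simp [mulLin', length_mulLin]


/-- add a coefficient at the last position -/
def addLast (o : Ops α) (c : α) : List α → List α
  | [] => [c]
  | [a] => [o.add a c]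
  | a :: b :: l => a :: addLast o c (b :: l)

theorem length_addLast (c : α) {l : List α} (hl : l ≠ []) : (addLast o c l).length = l.length := by
  induction l with
  | nil => exact absurd rfl hl
  | cons a l ih =>
    cases l with
    | nil => simp [addLast]
    | cons b l => simp only [addLast, List.length_cons]; rw [ih (by simp)]; simp

theorem hv_addLast (h : Hom o f) (c : α) {l : List α} (hl : l ≠ []) (u w : ℝ) :
    hv f (addLast o c l) u w = hv f l u w + f c * u ^ (l.length - 1) := by
  induction l with
  | nil => exact absurd rfl hl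
  | cons a l ih =>
    cases l with
    | nil => simp [addLast, hv, h.add]
    | cons b l =>
      have e : addLast o c (a :: b :: l) = a :: addLast o c (b :: l) := rfl
      rw [e]
      simp only [hv] at ih ⊢
      rw [ih (by simp), length_addLast c (by simp)]
      simp only [List.length_cons, Nat.add_sub_cancel]
      ring

/-- monomial basis to (scaled) Bernstein basis -/
def trAux (o : Ops α) (acc : List α) : List α → List α
  | [] => acc
  | c :: l => trAux o (addLast o c (mulLin' o 1 1 acc)) l

def tr (o : Ops α) : List α → List α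
  | [] => []
  | c :: l => trAux o [c] l

theorem hv_trAux (h : Hom o f) (l : List α) {acc : List α} (ha : acc ≠ []) (u w : ℝ)
    (huw : u + w = 1) :
    hv f (trAux o acc l) u w = hv f acc u w + u ^ acc.length * ev f l u := by
  induction l generalizing acc with
  | nil => simp [trAux, ev]
  | cons c l ih =>
    have h1 : mulLin' o 1 1 acc ≠ [] := by
      intro h0
      have := length_mulLin' (o := o) 1 1 ha
      rw [h0] at this
      simp at this
    have h2 : addLast o c (mulLin' o 1 1 acc) ≠ [] := by
      intro h0
      have := length_addLast (o := o) c h1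
      rw [h0, length_mulLin' 1 1 ha] at this
      simp at this
    simp only [trAux, ev]
    rw [ih h2, hv_addLast h c h1, hv_mulLin' h 1 1 ha, length_addLast c h1, length_mulLin' 1 1 ha]
    push_cast
    rw [one_mul, one_mul, huw]
    ring

theorem hv_tr (h : Hom o f) (l : List α) (u w : ℝ) (huw : u + w = 1) :
    hv f (tr o l) u w = ev f l u := by
  cases l with
  | nil => simp [tr, hv, ev]
  | cons c l =>
    simp only [tr, ev]
    rw [hv_trAux h l (by simp) u w huw]
    simp [hv]

/-- `2^n p(t/2)` -/
def halve (o : Ops α) : List α → List α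
  | [] => []
  | c :: l => o.smul (2 ^ l.length) c :: halve o l

theorem ev_halve (h : Hom o f) (l : List α) (t : ℝ) :
    ev f (halve o l) (2 * t) = 2 ^ (l.length - 1) * ev f l t := by
  induction l with
  | nil => simp [halve, ev]
  | cons c l ih =>
    cases l with
    | nil => simp [halve, ev, h.smul]
    | cons b l =>
      have e : halve o (c :: b :: l) = o.smul (2 ^ (b :: l).length) c :: halve o (b :: l) := rfl
      rw [e]
      have e2 : ∀ (a : α) (m : List α) (y : ℝ), ev f (a :: m) y = f a + y * ev f m y :=
        fun _ _ _ => rfl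
      rw [e2, e2, ih, h.smul]
      simp only [List.length_cons, Nat.add_sub_cancel]
      push_cast
      ring

/-- multiply by `1 - t` -/
def mulOS (o : Ops α) (prev : α) : List α → List α
  | [] => [o.smul (-1) prev]
  | c :: l => o.add c (o.smul (-1) prev) :: mulOS o c l

theorem ev_mulOS (h : Hom o f) (prev : α) (l : List α) (t : ℝ) :
    ev f (mulOS o prev l) t = -f prev + (1 - t) * ev f l t := by
  induction l generalizing prev with
  | nil => simp [mulOS, ev, h.smul]
  | cons c l ih =>
    simp only [mulOS, ev, ih, h.add, h.smul]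
    push_cast
    ring

/-- `p(1 - t)` -/
def flip (o : Ops α) : List α → List α
  | [] => []
  | c :: l => addL o [c] (mulOS o o.zero (flip o l))

theorem ev_flip (h : Hom o f) (l : List α) (t : ℝ) :
    ev f (flip o l) t = ev f l (1 - t) := by
  induction l with
  | nil => simp [flip, ev]
  | cons c l ih =>
    simp only [flip, ev, ev_add h, ev_mulOS h, ih, h.zero]
    ring

/-- all coefficients pass the test -/
def allB (p : α → Bool) : List α → Bool
  | [] => true
  | a :: l => p a && allB p l

theorem hv_nonneg {p : α → Bool} (hp : ∀ a, p a = true → 0 ≤ f a) {l : List α}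
    (hl : allB p l = true) {u w : ℝ} (hu : 0 ≤ u) (hw : 0 ≤ w) : 0 ≤ hv f l u w := by
  induction l with
  | nil => simp [hv]
  | cons a l ih =>
    simp only [allB, Bool.and_eq_true] at hl
    simp only [hv]
    have h1 := hp a hl.1
    have h2 := ih hl.2
    positivity

/-- nonnegativity check on `[0,1]` with subdivision -/
def chk (o : Ops α) : ℕ → List α → Bool
  | 0, l => allB o.nn (tr o l)
  | n + 1, l => allB o.nn (tr o l) || (chk o n (halve o l) && chk o n (halve o (flip o l)))

theorem chk_tr (h : Hom o f) {l : List α} (hl : allB o.nn (tr o l) = true) {t : ℝ}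
    (ht0 : 0 ≤ t) (ht1 : t ≤ 1) : 0 ≤ ev f l t := by
  rw [← hv_tr h l t (1 - t) (by ring)]
  exact hv_nonneg h.nn hl ht0 (by linarith)

theorem chk_sound (h : Hom o f) (n : ℕ) : ∀ (l : List α), chk o n l = true →
    ∀ t : ℝ, 0 ≤ t → t ≤ 1 → 0 ≤ ev f l t := by
  induction n with
  | zero =>
    intro l hl t h0 h1
    exact chk_tr h hl h0 h1
  | succ n ih =>
    intro l hl t h0 h1
    simp only [chk, Bool.or_eq_true, Bool.and_eq_true] at hl
    rcases hl with hl | ⟨hl1, hl2⟩
    · exact chk_tr h hl h0 h1
    · have p2 : ∀ k : ℕ, (0 : ℝ) < 2 ^ k := fun k => by positivity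
      rcases le_total t (1 / 2) with ht | ht
      · have := ih _ hl1 (2 * t) (by linarith) (by linarith)
        rw [ev_halve h] at this
        exact nonneg_of_mul_nonneg_right this (p2 _)
      · have := ih _ hl2 (2 * (1 - t)) (by linarith) (by linarith)
        rw [ev_halve h, ev_flip h, sub_sub_cancel] at this
        exact nonneg_of_mul_nonneg_right this (p2 _)

/-- operations on univariate polynomials; the nonnegativity test is the check on `[0,1]` -/
def opsL (o : Ops α) (n : ℕ) : Ops (List α) :=
  ⟨[], addL o, smulL o, mulL o, chk o n⟩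

theorem homL (h : Hom o f) (n : ℕ) {t : ℝ} (h0 : 0 ≤ t) (h1 : t ≤ 1) :
    Hom (opsL o n) (fun l => ev f l t) where
  zero := rfl
  add a b := ev_add h a b t
  smul k a := ev_smul h k a t
  mul a b := ev_mul h a b t
  nn a ha := chk_sound h n a ha t h0 h1

/-- polynomial expressions in `x, t, s` with rational constants -/
inductive PE where
  | c (n : ℤ) (d : ℕ)
  | X
  | T
  | S
  | add (a b : PE)
  | mul (a b : PE)

namespace PE

/-- value -/
noncomputable def eval (x t s : ℝ) : PE → ℝ
  | c n d => (n : ℝ) / (d : ℝ)
  | X => x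
  | T => t
  | S => s
  | add a b => eval x t s a + eval x t s b
  | mul a b => eval x t s a * eval x t s b

/-- derivative in `t` -/
def diff : PE → PE
  | c _ _ => c 0 1
  | X => c 0 1
  | T => c 1 1
  | S => c 0 1
  | add a b => add (diff a) (diff b)
  | mul a b => add (mul (diff a) b) (mul a (diff b))

theorem hasDerivAt (x s : ℝ) (e : PE) (t : ℝ) :
    HasDerivAt (fun t => eval x t s e) (eval x t s (diff e)) t := by
  induction e with
  | c n d => simpa [eval, diff] using hasDerivAt_const t ((n : ℝ) / (d : ℝ))
  | X => simpa [eval, diff] using hasDerivAt_const t x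
  | T => simpa [eval, diff] using hasDerivAt_id' t
  | S => simpa [eval, diff] using hasDerivAt_const t s
  | add a b iha ihb => exact iha.add ihb
  | mul a b iha ihb => exact iha.mul ihb

/-- coefficient type -/
abbrev P3 := List (List (List ℤ))

/-- operations with the subdivision depths for `x`, `t`, `s` -/
def ops (nx nt ns : ℕ) : Ops P3 := opsL (opsL (opsL opsZ nx) nt) ns

/-- value of a coefficient array -/
noncomputable def val (x t s : ℝ) (p : P3) : ℝ :=
  ev (fun q => ev (fun r => ev (fun a : ℤ => (a : ℝ)) r x) q t) p s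

theorem homP (nx nt ns : ℕ) {x t s : ℝ} (hx0 : 0 ≤ x) (hx1 : x ≤ 1) (ht0 : 0 ≤ t) (ht1 : t ≤ 1)
    (hs0 : 0 ≤ s) (hs1 : s ≤ 1) : Hom (ops nx nt ns) (val x t s) :=
  homL (homL (homL homZ nx hx0 hx1) nt ht0 ht1) ns hs0 hs1

/-- normal form with a common denominator, in the variables `x, 2t, 2s` -/
def norm : PE → ℕ × P3
  | c n d => match d with
    | 0 => (1, [])
    | d + 1 => (d + 1, [[[n]]])
  | X => (1, [[[0, 1]]])
  | T => (2, [[[], [1]]])
  | S => (2, [[], [[1]]])
  | add a b =>
    let p := norm a
    let q := norm b
    if p.1 = q.1 then (p.1, (ops 0 0 0).add p.2 q.2) else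
      (p.1 * q.1, (ops 0 0 0).add ((ops 0 0 0).smul q.1 p.2) ((ops 0 0 0).smul p.1 q.2))
  | mul a b =>
    let p := norm a
    let q := norm b
    (p.1 * q.1, (ops 0 0 0).mul p.2 q.2)

theorem norm_pos (e : PE) : 0 < (norm e).1 := by
  induction e with
  | c n d => cases d <;> simp [norm]
  | X => simp [norm]
  | T => simp [norm]
  | S => simp [norm]
  | add a b iha ihb =>
    simp only [norm]
    split_ifs
    · exact iha
    · exact Nat.mul_pos iha ihb
  | mul a b iha ihb => exact Nat.mul_pos iha ihb

theorem norm_val (e : PE) {x t s : ℝ} (hx0 : 0 ≤ x) (hx1 : x ≤ 1) (ht0 : 0 ≤ t) (ht1 : t ≤ 1 / 2)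
    (hs0 : 0 ≤ s) (hs1 : s ≤ 1 / 2) :
    val x (2 * t) (2 * s) (norm e).2 = (norm e).1 * eval x t s e := by
  have hom := homP 0 0 0 (x := x) (t := 2 * t) (s := 2 * s) hx0 hx1 (by linarith) (by linarith)
    (by linarith) (by linarith)
  induction e with
  | c n d =>
    cases d with
    | zero => simp [norm, val, ev, eval]
    | succ d =>
      simp only [norm, val, ev, eval]
      have : ((d + 1 : ℕ) : ℝ) ≠ 0 := by positivity
      field_simp
      ring
  | X => simp [norm, val, ev, eval]
  | T => simp [norm, val, ev, eval]
  | S => simp [norm, val, ev, eval]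
  | add a b iha ihb =>
    simp only [norm, eval]
    split_ifs with h
    · rw [hom.add, iha, ihb]
      rw [h]; ring
    · rw [hom.add, hom.smul, hom.smul, iha, ihb]
      push_cast
      ring
  | mul a b iha ihb =>
    simp only [norm, eval]
    rw [hom.mul, iha, ihb]
    push_cast
    ring

/-- the nonnegativity check -/
def nonnegB (nx nt ns : ℕ) (e : PE) : Bool := (ops nx nt ns).nn (norm e).2

theorem nonneg_of_check {nx nt ns : ℕ} {e : PE} (h : nonnegB nx nt ns e = true) {x t s : ℝ}
    (hx0 : 0 ≤ x) (hx1 : x ≤ 1) (ht0 : 0 ≤ t) (ht1 : t ≤ 1 / 2) (hs0 : 0 ≤ s) (hs1 : s ≤ 1 / 2) :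
    0 ≤ eval x t s e := by
  have hom := homP nx nt ns (x := x) (t := 2 * t) (s := 2 * s) hx0 hx1 (by linarith) (by linarith)
    (by linarith) (by linarith)
  have h1 := hom.nn _ h
  rw [norm_val e hx0 hx1 ht0 ht1 hs0 hs1] at h1
  have h2 : (0 : ℝ) < (norm e).1 := by exact_mod_cast norm_pos e
  exact nonneg_of_mul_nonneg_right h1 h2

/-- all coefficients vanish -/
def isZero (p : P3) : Bool := allB (allB (allB fun a => a == 0)) p

theorem ev_zero {α : Type} {f : α → ℝ} {p : α → Bool} (hp : ∀ a, p a = true → f a = 0)
    {l : List α} (hl : allB p l = true) (t : ℝ) : ev f l t = 0 := by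
  induction l with
  | nil => rfl
  | cons a l ih =>
    simp only [allB, Bool.and_eq_true] at hl
    simp only [ev, hp a hl.1, ih hl.2, mul_zero, add_zero]

theorem val_zero {p : P3} (h : isZero p = true) (x t s : ℝ) : val x t s p = 0 := by
  unfold val
  refine ev_zero (p := allB (allB fun a => a == 0)) ?_ h s
  intro q hq
  refine ev_zero (p := allB fun a => a == 0) ?_ hq t
  intro r hr
  refine ev_zero (p := fun a => a == 0) ?_ hr x
  intro a ha
  simp only [beq_iff_eq] at ha
  simp [ha]

/-- subtraction -/
def sub (a b : PE) : PE := add a (mul (c (-1) 1) b)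

theorem eval_sub (x t s : ℝ) (a b : PE) : eval x t s (sub a b) = eval x t s a - eval x t s b := by
  simp [sub, eval]; ring

/-- equality check -/
def eqB (a b : PE) : Bool := isZero (norm (sub a b)).2

theorem eq_of_check {a b : PE} (h : eqB a b = true) {x t s : ℝ}
    (hx0 : 0 ≤ x) (hx1 : x ≤ 1) (ht0 : 0 ≤ t) (ht1 : t ≤ 1 / 2) (hs0 : 0 ≤ s) (hs1 : s ≤ 1 / 2) :
    eval x t s a = eval x t s b := by
  have h1 := norm_val (sub a b) hx0 hx1 ht0 ht1 hs0 hs1
  rw [val_zero h] at h1
  have h2 : (0 : ℝ) < (norm (sub a b)).1 := by exact_mod_cast norm_pos _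
  have h3 : eval x t s (sub a b) = 0 := by
    rcases mul_eq_zero.1 h1.symm with h4 | h4
    · exact absurd h4 h2.ne'
    · exact h4
  rw [eval_sub] at h3
  linarith

end PE

end Pool.Agent.RCRSHalf.Poly
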