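import Pool.Agent.RCRSHalf.Bounds

/-! Abstract profile data and the decoupling theorem (MP_73ccd0_lc, exact 1/2). -/

namespace Pool.Agent.RCRSHalf

open Set Finset Matrix

set_option linter.unusedSectionVars false

/-- integral of `(1 + c m³) α β` -/
noncomputable def kc (c m : ℝ) : ℝ :=
  m ^ 4 / 8 + 6 / 35 * c * m ^ 7 + 9 / 100 * c ^ 2 * m ^ 10 + c ^ 3 * m ^ 13 / 65

theorem kc_deriv (c m : ℝ) :
    HasDerivAt (kc c) ((1 + c * m ^ 3) * (al c m * b2 c m)) m := by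
  have h := ((((hasDerivAt_pow 4 m).div_const 8).add
    ((hasDerivAt_pow 7 m).const_mul (6 / 35 * c))).add
    ((hasDerivAt_pow 10 m).const_mul (9 / 100 * c ^ 2))).add
    (((hasDerivAt_pow 13 m).const_mul (c ^ 3)).div_const 65)
  refine h.congr_deriv ?_
  unfold al b2; norm_num; ring

theorem kc_zero (c : ℝ) : kc c 0 = 0 := by unfold kc; norm_num

theorem kc_nonneg {c m : ℝ} (hc : 0 ≤ c) (hm : 0 ≤ m) : 0 ≤ kc c m := by unfold kc; positivity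

/-- The data of the profile. -/
structure Prof where
  G : ℝ → ℝ → ℝ
  G' : ℝ → ℝ → ℝ
  M : ℝ → ℝ
  μ : ℝ → ℝ
  Fx : ℝ → ℝ
  w : ℝ → ℝ
  ca : ℝ
  κa : ℝ
  cb : ℝ
  κb : ℝ
  cF : ℝ
  θ : ℝ
  t1 : ℝ
  t2 : ℝ
  ρ : ℝ
  Fb : ℝ
  m1 : ℝ

/-- The properties of the profile data used for the structural part. -/
structure Prof.Ok (p : Prof) : Prop where
  Gd : ∀ x ∈ Icc (0 : ℝ) 1, ∀ t ∈ Icc (0 : ℝ) (1 / 2), HasDerivAt (p.G x) (p.G' x t) t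
  G0 : ∀ x, p.G x 0 = 1
  G1 : ∀ x ∈ Icc (0 : ℝ) 1, ∀ t ∈ Icc (0 : ℝ) (1 / 2), 1 ≤ p.G x t
  G'0 : ∀ x ∈ Icc (0 : ℝ) 1, ∀ t ∈ Icc (0 : ℝ) (1 / 2), 0 ≤ p.G' x t
  Md : ∀ t ∈ Icc (0 : ℝ) (1 / 2), HasDerivAt p.M (p.μ t) t
  M0 : p.M 0 = 0
  μ0 : ∀ t ∈ Icc (0 : ℝ) (1 / 2), 0 ≤ p.μ t
  M1 : p.M (1 / 2) ≤ p.m1
  eta : ∀ x ∈ Icc (0 : ℝ) 1, ∀ t ∈ Icc (0 : ℝ) (1 / 2), p.G' x t ≤ x * p.μ t * p.G x t
  GF : ∀ x ∈ Icc (0 : ℝ) 1, ∀ r s, 0 ≤ r → r ≤ s → s ≤ 1 / 2 →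
    p.G x s - p.G x r ≤ p.Fx x * p.G x r * (p.M s - p.M r)
  Fge : ∀ y, 0 ≤ y → y ≤ 1 → y ≤ p.Fx y
  Fle : ∀ y, 0 ≤ y → y ≤ 1 → p.Fx y ≤ p.Fb * y
  F0 : p.Fx 0 = 0
  Fb1 : 1 ≤ p.Fb
  ρ0 : 0 ≤ p.ρ
  hw : ∀ y, 0 ≤ y → y ≤ 1 → p.Fx y ^ 2 * (1 - y) ≤ y ^ 2 * p.w y
  hρ : ∀ y, 0 ≤ y → y ≤ 1 → p.Fx y ^ 2 * (1 - y) ≤ p.ρ * y ^ 2
  hρw : ∀ y, 0 ≤ y → y ≤ 1 → p.ρ * (1 - y) ≤ p.w y
  hcF : ∀ y, 0 ≤ y → y ≤ 1 → (1 - y) * p.Fx y ≤ p.cF
  ga : Good p.ca p.κa p.θ (2 * p.cF) p.m1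
  gb : Good p.cb p.κb p.θ (3 * p.cF) p.m1
  ht2 : ∀ m ∈ Icc 0 p.m1, p.κa * g3 p.ca m ≤ p.t2 * al p.ca m
  ht1 : ∀ m ∈ Icc 0 p.m1, b4 p.ca p.κa m ≤ p.t1 * b2 p.ca m
  t1θ : p.θ ≤ p.t1
  t20 : 0 ≤ p.t2

variable {V : Type*} [Fintype V] [DecidableEq V]

section

variable {p : Prof} {x : V → V → ℝ}

theorem Prof.Ok.F0' (hp : p.Ok) : ∀ y, 0 ≤ y → y ≤ 1 → 0 ≤ p.Fx y :=
  fun y h h' => h.trans (hp.Fge y h h')

theorem Prof.Ok.t10 (hp : p.Ok) : 0 ≤ p.t1 := hp.ga.θ0.trans hp.t1θ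

theorem Prof.Ok.cF0 (hp : p.Ok) : 0 ≤ p.cF := by
  have := hp.ga.σ0; linarith

theorem Prof.Ok.Mmono (hp : p.Ok) {r s : ℝ} (hr : 0 ≤ r) (hrs : r ≤ s) (hs : s ≤ 1 / 2) :
    p.M r ≤ p.M s := by
  have := nonneg_of_backward (U := fun t => p.M s - p.M t) (U' := fun t => -p.μ t) (a := 0) (s := s)
    (fun t ht => by simpa using (hp.Md t ⟨ht.1, ht.2.trans hs⟩).const_sub (p.M s))
    (by simp) (fun t ht _ => by have := hp.μ0 t ⟨ht.1, ht.2.trans hs⟩; linarith) r ⟨hr, hrs⟩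
  linarith

theorem Prof.Ok.Micc (hp : p.Ok) {r s : ℝ} (hr : 0 ≤ r) (hrs : r ≤ s) (hs : s ≤ 1 / 2) :
    p.M s - p.M r ∈ Icc 0 p.m1 := by
  refine ⟨by linarith [hp.Mmono hr hrs hs], ?_⟩
  have h1 := hp.Mmono (hr.trans hrs) hs le_rfl
  have h2 := hp.Mmono le_rfl hr (hrs.trans hs)
  linarith [hp.M1, hp.M0]

/-- elementary inequality behind the choice of `cF` -/
theorem Prof.Ok.xF_le (hp : p.Ok) {a y : ℝ} (ha : 0 ≤ a) (hy : 0 ≤ y) (hay : a + y ≤ 1) :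
    a * p.Fx y ≤ p.cF * (a + y) := by
  have h1 : a ≤ (1 - y) * (a + y) := by nlinarith
  have hy1 : y ≤ 1 := by linarith
  have h2 := hp.hcF y hy hy1
  have h3 := hp.F0' y hy hy1
  calc a * p.Fx y ≤ (1 - y) * (a + y) * p.Fx y := mul_le_mul_of_nonneg_right h1 h3
    _ = (1 - y) * p.Fx y * (a + y) := by ring
    _ ≤ _ := mul_le_mul_of_nonneg_right h2 (by linarith)

theorem IsW.pair_le (hx : IsW x) (a b c : V) (hac : a ≠ c) : x b a + x b c ≤ 1 := by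
  refine le_trans ?_ (hx.row b)
  rw [← Finset.sum_pair hac (f := fun z => x b z)]
  exact Finset.sum_le_sum_of_subset_of_nonneg (Finset.subset_univ _) fun z _ _ => hx.nonneg _ _

/-- `σ` for a single vertex -/
theorem sigma_one (hp : p.Ok) (hx : IsW x) {u : V} {H : Finset V} (hu : u ∉ H) (a : V) :
    (rm x H *ᵥ Fv p.Fx x u) a ≤ 2 * p.cF := by
  have hc := hp.cF0
  by_cases ha : a ∈ H
  · rw [rm_mulVec _ _ ha]
    have hau : a ≠ u := fun e => hu (e ▸ ha)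
    have h1 : ∀ b ∈ H, x a b * Fv p.Fx x u b ≤ p.cF * (x a b + x u b) := by
      intro b _
      refine hp.xF_le (hx.nonneg _ _) (hx.nonneg _ _) ?_
      rw [hx.symm a b, hx.symm u b]
      exact hx.pair_le a b u hau
    refine (Finset.sum_le_sum h1).trans ?_
    rw [← Finset.mul_sum, Finset.sum_add_distrib]
    have e1 : ∑ b ∈ H, x a b ≤ 1 := (Finset.sum_le_sum_of_subset_of_nonneg (Finset.subset_univ _)
      fun z _ _ => hx.nonneg _ _).trans (hx.row a)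
    have e2 : ∑ b ∈ H, x u b ≤ 1 := (Finset.sum_le_sum_of_subset_of_nonneg (Finset.subset_univ _)
      fun z _ _ => hx.nonneg _ _).trans (hx.row u)
    nlinarith
  · rw [rm_mulVec_out _ _ ha]; linarith

/-- `σ` for an edge -/
theorem sigma_two (hp : p.Ok) (hx : IsW x) {u z : V} {H : Finset V} (hu : u ∉ H) (hz : z ∉ H)
    (huz : x u z ≠ 0) (a : V) :
    (rm x H *ᵥ fun b => p.Fx (x u b) + p.Fx (x z b)) a ≤ 3 * p.cF := by
  have hc := hp.cF0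
  by_cases ha : a ∈ H
  · rw [rm_mulVec _ _ ha]
    have hau : a ≠ u := fun e => hu (e ▸ ha)
    have haz : a ≠ z := fun e => hz (e ▸ ha)
    have h1 : ∀ b ∈ H, x a b * (p.Fx (x u b) + p.Fx (x z b))
        ≤ p.cF * (x a b + x u b + x z b) := by
      intro b _
      have p1 : x a b + x u b ≤ 1 := by
        rw [hx.symm a b, hx.symm u b]; exact hx.pair_le a b u hau
      have p2 : x a b + x z b ≤ 1 := by
        rw [hx.symm a b, hx.symm z b]; exact hx.pair_le a b z haz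
      have q1 := hp.xF_le (hx.nonneg a b) (hx.nonneg u b) p1
      have q2 := hp.xF_le (hx.nonneg a b) (hx.nonneg z b) p2
      by_cases hub : x u b = 0
      · rw [hub, hp.F0, zero_add]
        nlinarith
      · have hzb : x z b = 0 := by
          apply hx.tri z u b _ hub
          rw [hx.symm z u]; exact huz
        rw [hzb, hp.F0, add_zero]
        nlinarith
    refine (Finset.sum_le_sum h1).trans ?_
    rw [← Finset.mul_sum, Finset.sum_add_distrib, Finset.sum_add_distrib]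
    have e : ∀ c, ∑ b ∈ H, x c b ≤ 1 := fun c =>
      (Finset.sum_le_sum_of_subset_of_nonneg (Finset.subset_univ _)
        fun z _ _ => hx.nonneg _ _).trans (hx.row c)
    have e1 := e a
    have e2 := e u
    have e3 := e z
    nlinarith
  · rw [rm_mulVec_out _ _ ha]; linarith

end

/-- Hazards compatible with a profile on `[0, 1/2]`, with cumulative hazards `Hc`. -/
structure HazP (p : Prof) (x : V → V → ℝ) (h : ℝ → V → V → ℝ) (Hc : V → V → ℝ → ℝ) : Prop where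
  hx : IsW x
  symm : ∀ t a b, h t a b = h t b a
  diag : ∀ t a, h t a a = 0
  nonneg : ∀ t a b, 0 ≤ h t a b
  cont : ∀ a b, Continuous fun t => h t a b
  bdd : ∃ C, ∀ t a b, h t a b ≤ C
  le : ∀ t ∈ Icc (0 : ℝ) (1 / 2), ∀ a b, h t a b ≤ p.G' (x a b) t / p.G (x a b) t
  Hd : ∀ a b, ∀ t ∈ Icc (0 : ℝ) (1 / 2), HasDerivAt (Hc a b) (h t a b) t
  H0 : ∀ a b, Hc a b 0 = 0

section

variable {p : Prof} {x : V → V → ℝ} {h : ℝ → V → V → ℝ} {Hc : V → V → ℝ → ℝ}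

theorem HazP.haz (hh : HazP p x h Hc) (hp : p.Ok) {s : ℝ} (hs : s ∈ Icc (0 : ℝ) (1 / 2)) :
    Haz x h p.M p.μ s p.m1 where
  hx := hh.hx
  symm := hh.symm
  diag := hh.diag
  nonneg := hh.nonneg
  le t ht a b := by
    have ht' : t ∈ Icc (0 : ℝ) (1 / 2) := ⟨ht.1, ht.2.trans hs.2⟩
    have hxi : x a b ∈ Icc (0 : ℝ) 1 := ⟨hh.hx.nonneg _ _, hh.hx.le_one _ _⟩
    have hG := hp.G1 _ hxi t ht'
    refine (hh.le t ht' a b).trans ?_
    rw [div_le_iff₀ (by linarith)]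
    have := hp.eta _ hxi t ht'
    linarith
  Md t ht := hp.Md t ⟨ht.1, ht.2.trans hs.2⟩
  μ0 t ht := hp.μ0 t ⟨ht.1, ht.2.trans hs.2⟩
  M1 t ht := hp.Micc ht.1 ht.2 hs.2
  s0 := hs.1

/-- cumulative hazards are controlled by `G` -/
theorem HazP.exp_le (hh : HazP p x h Hc) (hp : p.Ok) (a b : V) {r s : ℝ} (hr : 0 ≤ r)
    (hrs : r ≤ s) (hs : s ≤ 1 / 2) :
    Real.exp (Hc a b s - Hc a b r) ≤ p.G (x a b) s / p.G (x a b) r := by
  have hxi : x a b ∈ Icc (0 : ℝ) 1 := ⟨hh.hx.nonneg _ _, hh.hx.le_one _ _⟩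
  have hI : ∀ t ∈ Icc r s, t ∈ Icc (0 : ℝ) (1 / 2) := fun t ht => ⟨hr.trans ht.1, ht.2.trans hs⟩
  -- `log G - H` is nondecreasing
  have key := nonneg_of_backward
    (U := fun t => (Real.log (p.G (x a b) s) - Hc a b s) - (Real.log (p.G (x a b) t) - Hc a b t))
    (U' := fun t => -(p.G' (x a b) t / p.G (x a b) t - h t a b)) (a := r) (s := s)
    (fun t ht => by
      have hG := hp.G1 _ hxi t (hI t ht)
      have h1 := (hp.Gd _ hxi t (hI t ht)).log (by linarith)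
      have := (h1.sub (hh.Hd a b t (hI t ht))).const_sub
        (Real.log (p.G (x a b) s) - Hc a b s)
      exact this)
    (by simp) (fun t ht _ => by have := hh.le t (hI t ht) a b; linarith) r ⟨le_rfl, hrs⟩
  have hGs := hp.G1 _ hxi s (hI s ⟨hrs, le_rfl⟩)
  have hGr := hp.G1 _ hxi r (hI r ⟨le_rfl, hrs⟩)
  rw [← Real.log_le_log_iff (Real.exp_pos _) (div_pos (by linarith) (by linarith)), Real.log_exp,
    Real.log_div (by linarith) (by linarith)]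
  linarith

theorem HazP.exp_le_F (hh : HazP p x h Hc) (hp : p.Ok) (a b : V) {r s : ℝ} (hr : 0 ≤ r)
    (hrs : r ≤ s) (hs : s ≤ 1 / 2) :
    Real.exp (Hc a b s - Hc a b r) ≤ 1 + (p.M s - p.M r) * p.Fx (x a b) := by
  refine (hh.exp_le hp a b hr hrs hs).trans ?_
  have hxi : x a b ∈ Icc (0 : ℝ) 1 := ⟨hh.hx.nonneg _ _, hh.hx.le_one _ _⟩
  have hGr := hp.G1 _ hxi r ⟨hr, hrs.trans hs⟩
  rw [div_le_iff₀ (by linarith)]
  have := hp.GF _ hxi r s hr hrs hs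
  linarith

/-- hazards vanish on non-edges -/
theorem HazP.zero (hh : HazP p x h Hc) (hp : p.Ok) {a b : V} (hab : x a b = 0) {t : ℝ}
    (ht : t ∈ Icc (0 : ℝ) (1 / 2)) : h t a b = 0 := by
  have := (hh.haz hp ht).le t ⟨ht.1, le_rfl⟩ a b
  rw [hab, mul_zero] at this
  exact le_antisymm this (hh.nonneg _ _ _)

theorem HazP.Hzero (hh : HazP p x h Hc) (hp : p.Ok) {a b : V} (hab : x a b = 0) {s : ℝ}
    (hs : s ∈ Icc (0 : ℝ) (1 / 2)) : Hc a b s = 0 := by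
  have hd : ∀ r ∈ Icc 0 s, HasDerivAt (Hc a b) 0 r := fun r hr => by
    have h1 := hh.Hd a b r ⟨hr.1, hr.2.trans hs.2⟩
    rwa [hh.zero hp hab ⟨hr.1, hr.2.trans hs.2⟩] at h1
  have e1 := nonneg_of_forward (U := Hc a b) (U' := fun _ => 0) (a := 0) (s := s) hd
    (by rw [hh.H0]) (fun _ _ _ => le_rfl) s ⟨hs.1, le_rfl⟩
  have e2 := nonneg_of_forward (U := fun t => -Hc a b t) (U' := fun _ => 0) (a := 0) (s := s)
    (fun r hr => by have := (hd r hr).neg; rw [neg_zero] at this; exact this) (by rw [hh.H0]; simp) (fun _ _ _ => le_rfl) s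
    ⟨hs.1, le_rfl⟩
  linarith

end

end Pool.Agent.RCRSHalf
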