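import Pool.Agent.RCRSHalf.Rb

/-! Lower bound for the probability that one end point is free when the other end point is
removed, integrated form (MP_73ccd0_lc, exact 1/2). -/

namespace Pool.Agent.RCRSHalf

open Set Finset Matrix

set_option linter.unusedSectionVars false

variable {V : Type*} [Fintype V] [DecidableEq V]
variable {p : Prof} {x : V → V → ℝ} {h : ℝ → V → V → ℝ} {Hc : V → V → ℝ → ℝ}

theorem cz_nonneg (hh : HazP p x h Hc) (hp : p.Ok) (u v z : V) : 0 ≤ cz p x u v z := by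
  have hx := hh.hx
  have hA : MN (rm x ((V0 u v).erase z)) := rm_nonneg hx _
  refine Finset.sum_nonneg fun b _ => mul_nonneg (hx.nonneg _ _) ?_
  exact mulVec_nonneg (hA.mul (Sn_nonneg hp.ga.θ0 hA _)) (fun b =>
    add_nonneg (hp.F0' _ (hx.nonneg _ _) (hx.le_one _ _))
      (hp.F0' _ (hx.nonneg _ _) (hx.le_one _ _))) b

theorem single_dual (hh : HazP p x h Hc) {s : ℝ} (hs : s ∈ Icc (0 : ℝ) (1 / 2)) {u v : V}
    (huv : u ≠ v) {μv : ℝ → Finset V → ℝ} (hv : IsLaw h (Finset.univ.erase v) (1 / 2) μv)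
    {R : Finset V → ℝ → ℝ} (hR : IsBack h (fun t z => h t u z) s R) :
    pr (μv s) {u} = R (V0 u v) 0 := by
  have hR' : IsBack h (fun t z => ∑ w ∈ ({u} : Finset V), h t w z) s R := by
    simpa using hR
  have := duality hh.symm hv (W := {u}) (by
    rw [Finset.singleton_subset_iff, Finset.mem_erase]; exact ⟨huv, Finset.mem_univ _⟩) hs hR'
    (Hi := fun _ => 0) (fun r _ => by simpa [hh.diag] using hasDerivAt_const r (0 : ℝ))
  rw [this]
  have e : (Finset.univ.erase v) \ {u} = V0 u v := by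
    ext a
    simp only [Finset.mem_sdiff, Finset.mem_erase, Finset.mem_univ, and_true,
      Finset.mem_singleton, mem_V0]
    tauto
  rw [e]; simp

theorem R_lower (hh : HazP p x h Hc) (hp : p.Ok) {s : ℝ} (hs : s ∈ Icc (0 : ℝ) (1 / 2))
    {u v : V} (huv : x u v ≠ 0)
    {μf μv : ℝ → Finset V → ℝ} (hf : IsLaw h Finset.univ (1 / 2) μf)
    (hv : IsLaw h (Finset.univ.erase v) (1 / 2) μv)
    {R : Finset V → ℝ → ℝ} (hR : IsBack h (fun t z => h t u z) s R)
    {ch : ℝ → V → V → ℝ} {A' E' : ℝ → ℝ} {ω : V → V → ℝ} {dm : ℝ}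
    (hch : ∀ t ∈ Icc (0 : ℝ) (1 / 2), ∀ z, x u z ≠ 0 →
      h t u z * pr (μf t) {u, z} ≤ x u z * ch t u z)
    (hch0 : ∀ t ∈ Icc (0 : ℝ) (1 / 2), ∀ z, 0 ≤ ch t u z)
    (hch1 : ∀ t ∈ Icc (0 : ℝ) (1 / 2), ∀ z, ch t u z ≤ dm)
    (hcheq : ∀ t ∈ Icc (0 : ℝ) (1 / 2), ∀ z,
      ch t u z = 1 - x u z * p.w (x u z) * A' t + ω u z * E' t)
    (hω : ∀ z, 0 ≤ ω u z)
    {IG IA IE IE' J J' : ℝ → ℝ}
    (hIG : ∀ t ∈ Icc (0 : ℝ) (1 / 2), HasDerivAt IG (p.G (x u v) t) t) (hIG0 : IG 0 = 0)
    (hIA : ∀ t ∈ Icc (0 : ℝ) (1 / 2), HasDerivAt IA (A' t * p.G (x u v) t) t) (hIA0 : IA 0 = 0)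
    (hIE : ∀ t ∈ Icc (0 : ℝ) (1 / 2), HasDerivAt IE (IE' t) t) (hIE0 : IE 0 = 0)
    (hIE' : ∀ t ∈ Icc (0 : ℝ) (1 / 2), E' t * p.G (x u v) t ≤ IE' t)
    (hJ : ∀ t ∈ Icc (0 : ℝ) (1 / 2), HasDerivAt J (J' t) t) (hJ0 : J 0 = 0)
    (hJ' : ∀ t ∈ Icc (0 : ℝ) (1 / 2),
      p.κb * dm * p.Fb * g3 p.cb (p.M t) * p.G (x u v) t ≤ J' t) :
    1 - (∑ z ∈ V0 u v, x u z) * IG s + (∑ z ∈ V0 u v, x u z ^ 2 * p.w (x u z)) * IA s
      - (∑ z ∈ V0 u v, x u z * ω u z) * IE s - p.B x u v * J s ≤ R (V0 u v) 0 := by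
  have hx := hh.hx
  have huv' : u ≠ v := fun e => huv (by rw [e, hx.diag])
  rw [← single_dual hh hs huv' hv hR]
  set su := ∑ z ∈ V0 u v, x u z with hsu
  set lam := ∑ z ∈ V0 u v, x u z ^ 2 * p.w (x u z) with hlam
  set Om := ∑ z ∈ V0 u v, x u z * ω u z with hOm
  have hxuv : x u v ∈ Icc (0 : ℝ) 1 := ⟨hx.nonneg _ _, hx.le_one _ _⟩
  have hs' : ∀ t ∈ Icc (0 : ℝ) s, t ∈ Icc (0 : ℝ) (1 / 2) := fun t ht => ⟨ht.1, ht.2.trans hs.2⟩
  have hD : ∀ t ∈ Icc (0 : ℝ) s, HasDerivAt (fun t => pr (μv t) {u})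
      (-∑ z ∈ V0 u v, h t u z * pr (μv t) {u, z}) t := by
    intro t ht
    refine (hv.deriv_single hh.symm hh.diag u (hs' t ht)).congr_deriv ?_
    congr 1
    rw [← Finset.sum_subset (Finset.subset_univ (V0 u v))]
    intro z _ hz
    by_cases hzu : z = u
    · rw [hzu, hh.diag, zero_mul]
    · have hzv : z = v := by
        by_contra hne
        exact hz (mem_V0.2 ⟨hzu, hne⟩)
      rw [hv.pr_zero hh.nonneg _ (hs' t ht), mul_zero]
      intro hsub
      have := hsub (show z ∈ ({u, z} : Finset V) by simp)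
      rw [Finset.mem_erase] at this
      exact this.1 hzv
  have key := nonneg_of_forward
    (U := fun t => pr (μv t) {u} - (1 - su * IG t + lam * IA t - Om * IE t - p.B x u v * J t))
    (U' := fun t => (-∑ z ∈ V0 u v, h t u z * pr (μv t) {u, z})
      - (0 - su * p.G (x u v) t + lam * (A' t * p.G (x u v) t) - Om * IE' t
        - p.B x u v * J' t)) (a := 0) (s := s)
    (fun t ht => by
      have ht' := hs' t ht
      exact (hD t ht).sub (((((hasDerivAt_const t (1 : ℝ)).sub ((hIG t ht').const_mul su)).add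
        ((hIA t ht').const_mul lam)).sub ((hIE t ht').const_mul Om)).sub
        ((hJ t ht').const_mul (p.B x u v))))
    (by
      have : pr (μv 0) {u} = 1 := by
        rw [hv.pr_start, if_pos]
        rw [Finset.singleton_subset_iff, Finset.mem_erase]; exact ⟨huv', Finset.mem_univ _⟩
      rw [this, hIG0, hIA0, hIE0, hJ0]; simp)
    (fun t ht _ => by
      have ht' := hs' t ht
      have hMt : p.M t ∈ Icc 0 p.m1 := by
        have := hp.Micc le_rfl ht'.1 ht'.2
        rwa [hp.M0, sub_zero] at this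
      have hG1 := hp.G1 _ hxuv t ht'
      have hg3 := g3_nonneg hp.gb.c0 hMt.1
      have hκ := hp.gb.κ0
      have hB0 : 0 ≤ p.B x u v := Bf_nonneg hx hp.F0' hp.ga.θ0 hp.t10 hp.t20 u v
      have hdm : 0 ≤ dm := (hch0 t ht' u).trans (hch1 t ht' u)
      have term : ∀ z ∈ V0 u v, h t u z * pr (μv t) {u, z}
          ≤ p.G (x u v) t * (x u z * ch t u z)
            + p.G (x u v) t * (p.κb * g3 p.cb (p.M t) * dm) * (x u z * cz p x u v z) := by
        intro z hz
        by_cases huz : x u z = 0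
        · rw [hh.zero hp huz ht', huz]; simp
        · have hzv := (mem_V0.1 hz).2
          have q1 := pair_ratio hh hp ht' huv huz hzv hf hv
          have q2 := mul_le_mul_of_nonneg_left q1 (hh.nonneg t u z)
          have q3 := hch t ht' z huz
          have hc := cz_nonneg hh hp u v z
          have hC0 : 0 ≤ p.G (x u v) t * (1 + p.κb * (g3 p.cb (p.M t) * cz p x u v z)) := by
            have : 0 ≤ p.κb * (g3 p.cb (p.M t) * cz p x u v z) := by positivity
            exact mul_nonneg (by linarith) (by linarith)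
          have q4 := mul_le_mul_of_nonneg_left q3 hC0
          have q5 : p.G (x u v) t * (p.κb * (g3 p.cb (p.M t) * cz p x u v z)) * (x u z * ch t u z)
              ≤ p.G (x u v) t * (p.κb * (g3 p.cb (p.M t) * cz p x u v z)) * (x u z * dm) := by
            refine mul_le_mul_of_nonneg_left (mul_le_mul_of_nonneg_left (hch1 t ht' z)
              (hx.nonneg _ _)) ?_
            have : 0 ≤ p.κb * (g3 p.cb (p.M t) * cz p x u v z) := by positivity
            exact mul_nonneg (by linarith) this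
          calc h t u z * pr (μv t) {u, z}
              ≤ h t u z * (p.G (x u v) t * (1 + p.κb * (g3 p.cb (p.M t) * cz p x u v z))
                * pr (μf t) {u, z}) := q2
            _ = p.G (x u v) t * (1 + p.κb * (g3 p.cb (p.M t) * cz p x u v z))
                * (h t u z * pr (μf t) {u, z}) := by ring
            _ ≤ p.G (x u v) t * (1 + p.κb * (g3 p.cb (p.M t) * cz p x u v z))
                * (x u z * ch t u z) := q4
            _ = p.G (x u v) t * (x u z * ch t u z) + p.G (x u v) t *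
                (p.κb * (g3 p.cb (p.M t) * cz p x u v z)) * (x u z * ch t u z) := by ring
            _ ≤ p.G (x u v) t * (x u z * ch t u z) + p.G (x u v) t *
                (p.κb * (g3 p.cb (p.M t) * cz p x u v z)) * (x u z * dm) := by linarith
            _ = _ := by ring
      have hsum := Finset.sum_le_sum term
      rw [Finset.sum_add_distrib, ← Finset.mul_sum, ← Finset.mul_sum] at hsum
      have e1 : ∑ z ∈ V0 u v, x u z * ch t u z = su - lam * A' t + Om * E' t := by
        rw [hsu, hlam, hOm, Finset.sum_mul, Finset.sum_mul, ← Finset.sum_sub_distrib,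
          ← Finset.sum_add_distrib]
        refine Finset.sum_congr rfl fun z _ => ?_
        rw [hcheq t ht' z]; ring
      have e2 : ∑ z ∈ V0 u v, x u z * cz p x u v z ≤ p.Fb * p.B x u v := by
        have q := tsum_le (n := Fintype.card V + 1) (t2 := p.t2) hx hp.Fge hp.Fb1 hp.Fle
          hp.ga.θ0 hp.t1θ hp.t20 u v
        have q' : Bf p.θ p.t1 p.t2 (Fintype.card V + 1) p.Fx x v u = p.B x u v :=
          Bf_symm hx v u
        rw [q'] at q
        exact q
      rw [e1] at hsum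
      have hC0 : 0 ≤ p.G (x u v) t * (p.κb * g3 p.cb (p.M t) * dm) := by positivity
      have e3 := mul_le_mul_of_nonneg_left e2 hC0
      have e4 := mul_le_mul_of_nonneg_left (hJ' t ht') hB0
      have e5 : p.G (x u v) t * (p.κb * g3 p.cb (p.M t) * dm) * (p.Fb * p.B x u v)
          = p.B x u v * (p.κb * dm * p.Fb * g3 p.cb (p.M t) * p.G (x u v) t) := by ring
      have e6 : p.G (x u v) t * (su - lam * A' t + Om * E' t)
          = su * p.G (x u v) t - lam * (A' t * p.G (x u v) t) + Om * (E' t * p.G (x u v) t) := by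
        ring
      have hOm0 : 0 ≤ Om := Finset.sum_nonneg fun z _ => mul_nonneg (hx.nonneg _ _) (hω z)
      have e7 := mul_le_mul_of_nonneg_left (hIE' t ht') hOm0
      linarith) s ⟨hs.1, le_rfl⟩
  linarith

end Pool.Agent.RCRSHalf
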