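import Pool.Agent.RCRS.Level

/-! Exact hierarchy for the free probabilities of the ring process (MP_73ccd0_lc, exact 1/2). -/

set_option linter.unusedSectionVars false

namespace Pool.Agent.RCRS

open MeasureTheory

section RingEq

variable {ι V : Type*} [Fintype ι] [DecidableEq ι] [Fintype V] [DecidableEq V] (en : ι → Finset V)
variable (ν : ι → Measure ℝ) [∀ i, IsProbabilityMeasure (ν i)] (φ h : ι → ℝ → ℝ)

theorem free_erase {A : Finset ι} {ρ : ι → ℝ} {f : ι} {s : ℝ} (hs : s ≤ ρ f) (w : V) :
    free en A ρ w s ↔ free en (A.erase f) ρ w s := by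
  refine free_congr en s (fun g => ?_) (fun _ _ _ => rfl) w
  constructor
  · rintro ⟨h1, h2⟩
    refine ⟨Finset.mem_erase.2 ⟨?_, h1⟩, h2⟩
    rintro rfl; linarith
  · rintro ⟨h1, h2⟩; exact ⟨Finset.mem_of_mem_erase h1, h2⟩

/-- the event that `f` is selected before time `s` while `W` is still free -/
def firstEv (A : Finset ι) (W : Finset V) (f : ι) (s : ℝ) : Set (ι → ℝ) :=
  {ρ | sel en A ρ f ∧ ρ f < s ∧ ∀ w ∈ W, free en A ρ w (ρ f)}

theorem measurableSet_firstEv (A : Finset ι) (W : Finset V) (f : ι) (s : ℝ) :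
    MeasurableSet (firstEv en A W f s) := by
  refine measurableSet_setOfPred.2 ((measurable_sel en A f).and (Measurable.and ?_ ?_))
  · exact measurableSet_setOfPred.1 (measurableSet_lt (measurable_pi_apply f) measurable_const)
  · exact (measurable_freeSet en A W).comp (measurable_id.prodMk (measurable_pi_apply f))

/-- probability of the event `firstEv` -/
theorem prob_first (hL : ∀ i, RingLaw (ν i) (φ i) (h i)) (A : Finset ι) (W : Finset V) (f : ι)
    (hf : f ∈ A) {s : ℝ} (hs1 : s ≤ 1) :
    (Measure.pi ν).real (firstEv en A W f s) =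
      ∫ t in Set.Ico 0 s, φ f t * pf en ν (A.erase f) (W ∪ en f) t := by
  rw [real_eq_integral_mix ν {f} _ (measurableSet_firstEv en A W f s)]
  have hQ := measurable_freeSet en (A.erase f) (W ∪ en f)
  have hin : ∀ ρ : ι → ℝ, (Measure.pi ν).real {τ | mix {f} (ρ, τ) ∈ firstEv en A W f s} =
      ∫ t in Set.Ico 0 s ∩ {t | ∀ v ∈ W ∪ en f, free en (A.erase f) ρ v t}, φ f t := by
    intro ρ
    set K : Set ℝ := {t | t < s ∧ ∀ v ∈ W ∪ en f, free en (A.erase f) ρ v t} with hK
    have hKm : MeasurableSet K := by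
      refine measurableSet_setOfPred.2 (Measurable.and ?_ (hQ.comp measurable_prodMk_left))
      exact measurableSet_setOfPred.1 (measurableSet_lt measurable_id measurable_const)
    have hcongr : ∀ (τ : ι → ℝ) (v : V), free en (A.erase f) (mix {f} (ρ, τ)) v (τ f) ↔
        free en (A.erase f) ρ v (τ f) := by
      intro τ v
      rw [← free_congr_on en (ρ := ρ)]
      intro g hg
      exact mix_not_mem (by simpa using (Finset.mem_erase.1 hg).1)
    have h1 : {τ | mix {f} (ρ, τ) ∈ firstEv en A W f s} =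
        {τ | ∀ g ∈ ({f} : Finset ι), τ g ∈ (fun _ => K) g} := by
      ext τ
      simp only [firstEv, Set.mem_ofPred_eq, Finset.mem_singleton, forall_eq]
      have hm : mix {f} (ρ, τ) f = τ f := mix_mem (Finset.mem_singleton_self f)
      rw [sel_iff_free en hf, hm]
      constructor
      · rintro ⟨h1, h2, h3⟩
        refine ⟨h2, fun v hv => ?_⟩
        rw [← hcongr]
        rcases Finset.mem_union.1 hv with hv | hv
        · rw [← free_erase en (by rw [hm])]
          exact h3 v hv
        · exact h1 v hv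
      · rintro ⟨h1, h2⟩
        refine ⟨fun v hv => ?_, h1, fun w hw => ?_⟩
        · rw [hcongr]; exact h2 v (Finset.mem_union_right _ hv)
        · rw [free_erase en (f := f) (by rw [hm]), hcongr]
          exact h2 w (Finset.mem_union_left _ hw)
    rw [h1, pi_real_box]
    simp only [Finset.prod_singleton]
    have h2 : (ν f).real K = (ν f).real (Set.Ico 0 s ∩
        {t | ∀ v ∈ W ∪ en f, free en (A.erase f) ρ v t}) := by
      refine le_antisymm ?_ ?_
      · calc (ν f).real K ≤ (ν f).real ((Set.Ico 0 s ∩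
            {t | ∀ v ∈ W ∪ en f, free en (A.erase f) ρ v t}) ∪ Set.Iio 0) := by
              refine measureReal_mono ?_ (measure_ne_top _ _)
              rintro t ⟨ht1, ht2⟩
              by_cases h0 : 0 ≤ t
              · exact Or.inl ⟨⟨h0, ht1⟩, ht2⟩
              · exact Or.inr (not_le.1 h0)
          _ ≤ _ := by
              refine (measureReal_union_le _ _).trans ?_
              have : (ν f).real (Set.Iio 0) = 0 := by
                unfold Measure.real; rw [(hL f).neg]; rfl
              rw [this, add_zero]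
      · refine measureReal_mono ?_ (measure_ne_top _ _)
        rintro t ⟨ht1, ht2⟩
        exact ⟨ht1.2, ht2⟩
    rw [h2, (hL f).dens]
    · exact measurableSet_Ico.inter (measurableSet_setOfPred.2 (hQ.comp measurable_prodMk_left))
    · intro t ht; exact ⟨ht.1.1, ht.1.2.trans_le hs1⟩
  simp_rw [hin]
  rw [fubini_ind (Measure.pi ν) (φ f) s
    ((hL f).φ_int.mono_set (Set.Ico_subset_Ico_right hs1))
    (fun p : (ι → ℝ) × ℝ => ∀ v ∈ W ∪ en f, free en (A.erase f) p.1 v p.2) hQ]
  rfl

/-- exact formula for the probability that `W` is free -/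
theorem pf_eq (hL : ∀ i, RingLaw (ν i) (φ i) (h i)) (A : Finset ι) (W : Finset V) {s : ℝ}
    (hs1 : s ≤ 1) :
    pf en ν A W s = 1 - ∑ f ∈ A.filter (fun f => ¬ Disjoint (en f) W),
      ∫ t in Set.Ico 0 s, φ f t * pf en ν (A.erase f) (W ∪ en f) t := by
  have h1 : ∑ f ∈ A.filter (fun f => ¬ Disjoint (en f) W),
      ∫ t in Set.Ico 0 s, φ f t * pf en ν (A.erase f) (W ∪ en f) t =
      ∑ f ∈ A.filter (fun f => ¬ Disjoint (en f) W),
        (Measure.pi ν).real (firstEv en A W f s) := by
    refine Finset.sum_congr rfl fun f hf => ?_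
    rw [prob_first en ν φ h hL A W f (Finset.mem_filter.1 hf).1 hs1]
  rw [h1]
  have hdis : ∑ f ∈ A.filter (fun f => ¬ Disjoint (en f) W),
        (Measure.pi ν).real (firstEv en A W f s) =
      (Measure.pi ν).real (⋃ f ∈ A.filter (fun f => ¬ Disjoint (en f) W),
        firstEv en A W f s) := by
    symm
    unfold Measure.real
    rw [measure_biUnion_finset₀, ENNReal.toReal_sum (fun _ _ => measure_ne_top _ _)]
    · intro f hf g hg hfg
      have hfA := (Finset.mem_filter.1 hf)
      have hgA := (Finset.mem_filter.1 hg)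
      have htie := tie_null ν φ h hL f g hfg
      have htie' : (Measure.pi ν) {ρ | ρ f = ρ g ∧ ρ f < 1} = 0 := by
        unfold Measure.real at htie
        rw [ENNReal.toReal_eq_zero_iff] at htie
        exact htie.resolve_right (measure_ne_top _ _)
      refine measure_mono_null ?_ htie'
      rintro ρ ⟨⟨hsf, hfs, hfW⟩, ⟨hsg, hgs, hgW⟩⟩
      refine ⟨?_, hfs.trans_le hs1⟩
      obtain ⟨w, hwf, hwW⟩ := Finset.not_disjoint_iff.1 hfA.2
      obtain ⟨w', hwg, hwW'⟩ := Finset.not_disjoint_iff.1 hgA.2
      have e1 := hgW w hwW f hfA.1 hwf hsf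
      have e2 := hfW w' hwW' g hgA.1 hwg hsg
      exact le_antisymm e2 e1
    · intro f _; exact (measurableSet_firstEv en A W f s).nullMeasurableSet
  rw [hdis, ← probReal_compl_eq_one_sub
    (Finset.measurableSet_biUnion _ fun f _ => measurableSet_firstEv en A W f s)]
  unfold pf
  congr 1
  ext ρ
  simp only [Set.mem_ofPred_eq, Set.mem_compl_iff, Set.mem_iUnion, not_exists]
  constructor
  · intro hρ f hf hev
    obtain ⟨w, hwf, hwW⟩ := Finset.not_disjoint_iff.1 (Finset.mem_filter.1 hf).2
    have := hρ w hwW f (Finset.mem_filter.1 hf).1 hwf hev.1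
    linarith [hev.2.1]
  · intro hno
    by_contra hcon
    -- the set of selected items before `s` meeting `W`
    classical
    set B : Finset ι := A.filter fun f => ¬ Disjoint (en f) W ∧ sel en A ρ f ∧ ρ f < s with hB
    have hBne : B.Nonempty := by
      push Not at hcon
      obtain ⟨w, hw, hfree⟩ := hcon
      unfold free at hfree
      push Not at hfree
      obtain ⟨f, hf, hwf, hsf, hfs⟩ := hfree
      exact ⟨f, Finset.mem_filter.2 ⟨hf, Finset.not_disjoint_iff.2 ⟨w, hwf, hw⟩, hsf, hfs⟩⟩
    obtain ⟨f, hfB, hmin⟩ := B.exists_min_image ρ hBne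
    obtain ⟨hfA, hfW, hsf, hfs⟩ := Finset.mem_filter.1 hfB
    refine hno f (Finset.mem_filter.2 ⟨hfA, hfW⟩) ⟨hsf, hfs, fun w hw g hg hwg hsg => ?_⟩
    by_contra hlt
    push Not at hlt
    have := hmin g (Finset.mem_filter.2 ⟨hg, Finset.not_disjoint_iff.2 ⟨w, hwg, hw⟩, hsg,
      hlt.trans hfs⟩)
    linarith

/-- removing an item whose ends are required to be free -/
theorem pf_erase (hL : ∀ i, RingLaw (ν i) (φ i) (h i)) (A : Finset ι) (W : Finset V) {f : ι}
    (hf : f ∈ A) (hfW : en f ⊆ W) (hne : (en f).Nonempty) {t : ℝ} (ht : t ∈ Set.Icc (0:ℝ) 1) :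
    pf en ν A W t = Real.exp (-∫ q in Set.Ico 0 t, h f q) * pf en ν (A.erase f) W t := by
  have hE : {ρ : ι → ℝ | ∀ w ∈ W, free en A ρ w t} =
      {ρ | t ≤ ρ f ∧ ∀ w ∈ W, free en (A.erase f) ρ w t} := by
    ext ρ
    simp only [Set.mem_ofPred_eq]
    constructor
    · intro hρ
      have ht' : t ≤ ρ f := by
        by_contra hlt
        push Not at hlt
        by_cases hsf : sel en A ρ f
        · obtain ⟨w, hw⟩ := hne
          have := hρ w (hfW hw) f hf hw hsf
          linarith
        · rw [sel_iff] at hsf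
          push Not at hsf
          obtain ⟨g, hg, hd, hgf, hsg⟩ := hsf hf
          obtain ⟨w, hwg, hwf⟩ := Finset.not_disjoint_iff.1 hd
          have := hρ w (hfW hwf) g hg hwg hsg
          linarith
      exact ⟨ht', fun w hw => (free_erase en ht' w).1 (hρ w hw)⟩
    · rintro ⟨ht', hρ⟩ w hw
      exact (free_erase en ht' w).2 (hρ w hw)
  have hm : MeasurableSet {ρ : ι → ℝ | t ≤ ρ f ∧ ∀ w ∈ W, free en (A.erase f) ρ w t} := by
    rw [← hE]; exact measurableSet_freeSet en A W t
  unfold pf
  rw [hE, real_eq_integral_mix ν {f} _ hm]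
  have hin : ∀ ρ : ι → ℝ, (Measure.pi ν).real {τ | mix {f} (ρ, τ) ∈
      {ρ : ι → ℝ | t ≤ ρ f ∧ ∀ w ∈ W, free en (A.erase f) ρ w t}} =
      Set.indicator {ρ : ι → ℝ | ∀ w ∈ W, free en (A.erase f) ρ w t}
        (fun _ => (ν f).real (Set.Ici t)) ρ := by
    intro ρ
    have hcongr : ∀ (τ : ι → ℝ) (v : V), free en (A.erase f) (mix {f} (ρ, τ)) v t ↔
        free en (A.erase f) ρ v t := by
      intro τ v
      rw [← free_congr_on en (ρ := ρ)]
      intro g hg
      exact mix_not_mem (by simpa using (Finset.mem_erase.1 hg).1)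
    by_cases hρ : ∀ w ∈ W, free en (A.erase f) ρ w t
    · rw [Set.indicator_of_mem (by exact hρ)]
      have h1 : {τ | mix {f} (ρ, τ) ∈
          {ρ : ι → ℝ | t ≤ ρ f ∧ ∀ w ∈ W, free en (A.erase f) ρ w t}} =
          {τ | ∀ g ∈ ({f} : Finset ι), τ g ∈ (fun _ => Set.Ici t) g} := by
        ext τ
        simp only [Set.mem_ofPred_eq, Finset.mem_singleton, forall_eq, Set.mem_Ici]
        rw [mix_mem (Finset.mem_singleton_self f)]
        constructor
        · exact fun h => h.1
        · exact fun h => ⟨h, fun w hw => (hcongr τ w).2 (hρ w hw)⟩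
      rw [h1, pi_real_box]
      simp
    · rw [Set.indicator_of_notMem (by exact hρ)]
      have h1 : {τ | mix {f} (ρ, τ) ∈
          {ρ : ι → ℝ | t ≤ ρ f ∧ ∀ w ∈ W, free en (A.erase f) ρ w t}} = ∅ := by
        ext τ
        simp only [Set.mem_ofPred_eq, Set.mem_empty_iff_false, iff_false, not_and]
        intro _ h2
        exact hρ fun w hw => (hcongr τ w).1 (h2 w hw)
      rw [h1]; simp
  simp_rw [hin]
  rw [integral_indicator (measurableSet_freeSet en (A.erase f) W t), setIntegral_const, smul_eq_mul,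
    mul_comm]
  congr 1
  have h1 : (ν f).real (Set.Iio t) = 1 - Real.exp (-∫ q in Set.Ico 0 t, h f q) := by
    rw [← (hL f).surv t ht, ← (hL f).dens _ measurableSet_Ico (Set.Ico_subset_Ico_right ht.2)]
    refine le_antisymm ?_ ?_
    · calc (ν f).real (Set.Iio t) ≤ (ν f).real (Set.Ico 0 t ∪ Set.Iio 0) := by
            refine measureReal_mono ?_ (measure_ne_top _ _)
            intro q hq
            by_cases h0 : 0 ≤ q
            · exact Or.inl ⟨h0, hq⟩
            · exact Or.inr (not_le.1 h0)
        _ ≤ _ := by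
            refine (measureReal_union_le _ _).trans ?_
            have : (ν f).real (Set.Iio 0) = 0 := by
              unfold Measure.real; rw [(hL f).neg]; rfl
            rw [this, add_zero]
    · exact measureReal_mono (fun q hq => hq.2) (measure_ne_top _ _)
  have h2 : (ν f).real (Set.Ici t) = 1 - (ν f).real (Set.Iio t) := by
    rw [← probReal_compl_eq_one_sub measurableSet_Iio]
    congr 1
    ext q; simp
  rw [h2, h1]; ring

end RingEq

end Pool.Agent.RCRS
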