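import Mathlib

/-! Walk functionals of a symmetric substochastic triangle-free weight matrix
(MP_73ccd0_lc, exact 1/2). -/

namespace Pool.Agent.RCRSHalf

open Finset Matrix

set_option linter.unusedSectionVars false

variable {V : Type*} [Fintype V] [DecidableEq V]

/-- entrywise nonnegative matrices -/
def MN (A : Matrix V V ℝ) : Prop := ∀ a b, 0 ≤ A a b

theorem MN.one : MN (1 : Matrix V V ℝ) := fun a b => by
  rw [Matrix.one_apply]; split_ifs <;> norm_num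

theorem MN.add {A B : Matrix V V ℝ} (hA : MN A) (hB : MN B) : MN (A + B) := fun a b => by
  rw [Matrix.add_apply]; exact add_nonneg (hA a b) (hB a b)

theorem MN.mul {A B : Matrix V V ℝ} (hA : MN A) (hB : MN B) : MN (A * B) := fun a b => by
  rw [Matrix.mul_apply]; exact Finset.sum_nonneg fun c _ => mul_nonneg (hA a c) (hB c b)

theorem MN.smul {A : Matrix V V ℝ} {c : ℝ} (hc : 0 ≤ c) (hA : MN A) : MN (c • A) := fun a b => by
  rw [Matrix.smul_apply, smul_eq_mul]; exact mul_nonneg hc (hA a b)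

/-- entrywise order -/
def ML (A B : Matrix V V ℝ) : Prop := ∀ a b, A a b ≤ B a b

theorem ML.refl (A : Matrix V V ℝ) : ML A A := fun _ _ => le_rfl

theorem ML.add {A B A' B' : Matrix V V ℝ} (h : ML A A') (h' : ML B B') : ML (A + B) (A' + B') :=
  fun a b => by rw [Matrix.add_apply, Matrix.add_apply]; exact add_le_add (h a b) (h' a b)

theorem ML.mul {A B A' B' : Matrix V V ℝ} (h : ML A A') (h' : ML B B') (hB : MN B) (hA' : MN A') :
    ML (A * B) (A' * B') := fun a b => by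
  rw [Matrix.mul_apply, Matrix.mul_apply]
  exact Finset.sum_le_sum fun c _ => mul_le_mul (h a c) (h' c b) (hB c b) (hA' a c)

theorem ML.smul {A A' : Matrix V V ℝ} {c : ℝ} (hc : 0 ≤ c) (h : ML A A') : ML (c • A) (c • A') :=
  fun a b => by
    rw [Matrix.smul_apply, Matrix.smul_apply, smul_eq_mul, smul_eq_mul]
    exact mul_le_mul_of_nonneg_left (h a b) hc

theorem mulVec_mono {A : Matrix V V ℝ} (hA : MN A) {y z : V → ℝ} (h : ∀ a, y a ≤ z a) (a : V) :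
    (A *ᵥ y) a ≤ (A *ᵥ z) a := by
  simp only [Matrix.mulVec, dotProduct]
  exact Finset.sum_le_sum fun b _ => mul_le_mul_of_nonneg_left (h b) (hA a b)

theorem mulVec_mono_mat {A B : Matrix V V ℝ} (h : ML A B) {y : V → ℝ} (hy : ∀ a, 0 ≤ y a) (a : V) :
    (A *ᵥ y) a ≤ (B *ᵥ y) a := by
  simp only [Matrix.mulVec, dotProduct]
  exact Finset.sum_le_sum fun b _ => mul_le_mul_of_nonneg_right (h a b) (hy b)

theorem mulVec_nonneg {A : Matrix V V ℝ} (hA : MN A) {y : V → ℝ} (h : ∀ a, 0 ≤ y a) (a : V) :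
    0 ≤ (A *ᵥ y) a := by
  simp only [Matrix.mulVec, dotProduct]
  exact Finset.sum_nonneg fun b _ => mul_nonneg (hA a b) (h b)

/-- `S_n = ∑_{j ≤ n} θ^j A^{2j}` -/
noncomputable def Sn (θ : ℝ) (A : Matrix V V ℝ) : ℕ → Matrix V V ℝ
  | 0 => 1
  | n + 1 => 1 + θ • (A * A * Sn θ A n)

/-- `Z = 1 + t A² S_n` -/
noncomputable def Zn (θ t : ℝ) (A : Matrix V V ℝ) (n : ℕ) : Matrix V V ℝ :=
  1 + t • (A * A * Sn θ A n)

/-- the walk matrix -/
noncomputable def Wn (θ t1 t2 : ℝ) (A : Matrix V V ℝ) (n : ℕ) : Matrix V V ℝ :=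
  Zn θ t2 A n * Zn θ t1 A n * (A + A * A)

section basic

variable {θ t t1 t2 : ℝ} {A B : Matrix V V ℝ}

theorem Sn_nonneg (hθ : 0 ≤ θ) (hA : MN A) (n : ℕ) : MN (Sn θ A n) := by
  induction n with
  | zero => exact MN.one
  | succ n ih => exact MN.one.add (((hA.mul hA).mul ih).smul hθ)

theorem Zn_nonneg (hθ : 0 ≤ θ) (ht : 0 ≤ t) (hA : MN A) (n : ℕ) : MN (Zn θ t A n) :=
  MN.one.add (((hA.mul hA).mul (Sn_nonneg hθ hA n)).smul ht)

theorem Wn_nonneg (hθ : 0 ≤ θ) (h1 : 0 ≤ t1) (h2 : 0 ≤ t2) (hA : MN A) (n : ℕ) :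
    MN (Wn θ t1 t2 A n) :=
  ((Zn_nonneg hθ h2 hA n).mul (Zn_nonneg hθ h1 hA n)).mul (hA.add (hA.mul hA))

theorem Sn_mono (hθ : 0 ≤ θ) (hA : MN A) (hB : MN B) (h : ML A B) (n : ℕ) :
    ML (Sn θ A n) (Sn θ B n) := by
  induction n with
  | zero => exact ML.refl _
  | succ n ih =>
    exact (ML.refl _).add (((h.mul h hA hB).mul ih (Sn_nonneg hθ hA n) (hB.mul hB)).smul hθ)

theorem Zn_mono (hθ : 0 ≤ θ) (ht : 0 ≤ t) (hA : MN A) (hB : MN B) (h : ML A B) (n : ℕ) :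
    ML (Zn θ t A n) (Zn θ t B n) :=
  (ML.refl _).add (((h.mul h hA hB).mul (Sn_mono hθ hA hB h n) (Sn_nonneg hθ hA n)
    (hB.mul hB)).smul ht)

theorem Wn_mono (hθ : 0 ≤ θ) (h1 : 0 ≤ t1) (h2 : 0 ≤ t2) (hA : MN A) (hB : MN B) (h : ML A B)
    (n : ℕ) : ML (Wn θ t1 t2 A n) (Wn θ t1 t2 B n) := by
  have e1 := Zn_mono (n := n) hθ h2 hA hB h
  have e2 := Zn_mono (n := n) hθ h1 hA hB h
  have e3 := e1.mul e2 (Zn_nonneg hθ h1 hA n) (Zn_nonneg hθ h2 hB n)
  exact e3.mul (h.add (h.mul h hA hB)) (hA.add (hA.mul hA))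
    ((Zn_nonneg hθ h2 hB n).mul (Zn_nonneg hθ h1 hB n))

theorem Sn_comm (n : ℕ) : A * Sn θ A n = Sn θ A n * A := by
  induction n with
  | zero => simp [Sn]
  | succ n ih =>
    simp only [Sn, mul_add, add_mul, mul_one, one_mul, Matrix.mul_smul, Matrix.smul_mul]
    congr 2
    rw [Matrix.mul_assoc (A * A), ← ih]
    simp only [Matrix.mul_assoc]

theorem Zn_comm (n : ℕ) : A * Zn θ t A n = Zn θ t A n * A := by
  simp only [Zn, mul_add, add_mul, mul_one, one_mul, Matrix.mul_smul, Matrix.smul_mul]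
  congr 2
  rw [Matrix.mul_assoc (A * A), ← Sn_comm]
  simp only [Matrix.mul_assoc]

theorem Sn_Zn_comm (n m : ℕ) : Sn θ A m * Zn θ t A n = Zn θ t A n * Sn θ A m := by
  induction m with
  | zero => simp [Sn]
  | succ m ih =>
    simp only [Sn, mul_add, add_mul, mul_one, one_mul, Matrix.mul_smul, Matrix.smul_mul]
    congr 2
    rw [Matrix.mul_assoc (A * A), ih, ← Matrix.mul_assoc (A * A), Matrix.mul_assoc A A,
      Zn_comm, ← Matrix.mul_assoc A, Zn_comm]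
    simp only [Matrix.mul_assoc]

theorem Zn_Zn_comm (n : ℕ) : Zn θ t1 A n * Zn θ t2 A n = Zn θ t2 A n * Zn θ t1 A n := by
  have key : A * A * Sn θ A n * Zn θ t2 A n = Zn θ t2 A n * (A * A * Sn θ A n) := by
    rw [Matrix.mul_assoc (A * A), Sn_Zn_comm, ← Matrix.mul_assoc (A * A), Matrix.mul_assoc A A,
      Zn_comm, ← Matrix.mul_assoc A, Zn_comm]
    simp only [Matrix.mul_assoc]
  have e1 : Zn θ t1 A n = 1 + t1 • (A * A * Sn θ A n) := rfl
  rw [e1, add_mul, mul_add, one_mul, mul_one, Matrix.smul_mul, Matrix.mul_smul, key]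

theorem Sn_symm (hA : Aᵀ = A) (n : ℕ) : (Sn θ A n)ᵀ = Sn θ A n := by
  induction n with
  | zero => simp [Sn]
  | succ n ih =>
    simp only [Sn, Matrix.transpose_add, Matrix.transpose_one, Matrix.transpose_smul,
      Matrix.transpose_mul, ih, hA]
    congr 2
    rw [← Matrix.mul_assoc, ← Sn_comm, Matrix.mul_assoc, ← Sn_comm, ← Matrix.mul_assoc]

theorem Zn_symm (hA : Aᵀ = A) (n : ℕ) : (Zn θ t A n)ᵀ = Zn θ t A n := by
  simp only [Zn, Matrix.transpose_add, Matrix.transpose_one, Matrix.transpose_smul,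
      Matrix.transpose_mul, Sn_symm hA, hA]
  congr 2
  rw [← Matrix.mul_assoc, ← Sn_comm, Matrix.mul_assoc, ← Sn_comm, ← Matrix.mul_assoc]

theorem Wn_symm (hA : Aᵀ = A) (n : ℕ) : (Wn θ t1 t2 A n)ᵀ = Wn θ t1 t2 A n := by
  unfold Wn
  rw [Matrix.transpose_mul, Matrix.transpose_mul, Zn_symm hA, Zn_symm hA, Matrix.transpose_add,
    Matrix.transpose_mul, hA, Zn_Zn_comm]
  have e : A * (Zn θ t2 A n * Zn θ t1 A n) = Zn θ t2 A n * Zn θ t1 A n * A := by
    rw [← Matrix.mul_assoc, Zn_comm, Matrix.mul_assoc, Zn_comm, Matrix.mul_assoc]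
  rw [add_mul, mul_add, Matrix.mul_assoc A A, e]
  congr 1
  rw [← Matrix.mul_assoc, e]
  simp only [Matrix.mul_assoc]

/-- action on excessive vectors -/
theorem Sn_exc (hθ : 0 ≤ θ) (hθ1 : θ < 1) (hA : MN A) {z : V → ℝ} (hz : ∀ a, 0 ≤ z a)
    (hAz : ∀ a, (A *ᵥ z) a ≤ z a) (n : ℕ) (a : V) : (Sn θ A n *ᵥ z) a ≤ 1 / (1 - θ) * z a := by
  have hpos : 0 < 1 - θ := by linarith
  induction n generalizing a with
  | zero =>
    simp only [Sn, Matrix.one_mulVec]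
    have : 1 ≤ 1 / (1 - θ) := by rw [le_div_iff₀ hpos]; linarith
    nlinarith [hz a]
  | succ n ih =>
    simp only [Sn, Matrix.add_mulVec, Matrix.one_mulVec, Matrix.smul_mulVec, Pi.add_apply,
      Pi.smul_apply, smul_eq_mul]
    have e1 : ((A * A * Sn θ A n) *ᵥ z) a ≤ 1 / (1 - θ) * z a := by
      rw [← Matrix.mulVec_mulVec, ← Matrix.mulVec_mulVec]
      have h1 : ∀ b, (A *ᵥ (Sn θ A n *ᵥ z)) b ≤ 1 / (1 - θ) * z b := by
        intro b
        refine (mulVec_mono hA ih b).trans ?_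
        have : (fun b => 1 / (1 - θ) * z b) = (1 / (1 - θ)) • z := rfl
        rw [this, Matrix.mulVec_smul, Pi.smul_apply, smul_eq_mul]
        exact mul_le_mul_of_nonneg_left (hAz b) (by positivity)
      refine (mulVec_mono hA h1 a).trans ?_
      have : (fun b => 1 / (1 - θ) * z b) = (1 / (1 - θ)) • z := rfl
      rw [this, Matrix.mulVec_smul, Pi.smul_apply, smul_eq_mul]
      exact mul_le_mul_of_nonneg_left (hAz a) (by positivity)
    have e2 : z a + θ * (1 / (1 - θ) * z a) = 1 / (1 - θ) * z a := by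
      field_simp; ring
    nlinarith [mul_le_mul_of_nonneg_left e1 hθ]

theorem Zn_exc (hθ : 0 ≤ θ) (hθ1 : θ < 1) (ht : 0 ≤ t) (hA : MN A) {z : V → ℝ}
    (hz : ∀ a, 0 ≤ z a) (hAz : ∀ a, (A *ᵥ z) a ≤ z a) (n : ℕ) (a : V) :
    (Zn θ t A n *ᵥ z) a ≤ (1 + t / (1 - θ)) * z a := by
  have hpos : 0 < 1 - θ := by linarith
  simp only [Zn, Matrix.add_mulVec, Matrix.one_mulVec, Matrix.smul_mulVec, Pi.add_apply,
      Pi.smul_apply, smul_eq_mul]
  have e1 : ((A * A * Sn θ A n) *ᵥ z) a ≤ 1 / (1 - θ) * z a := by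
    rw [← Matrix.mulVec_mulVec, ← Matrix.mulVec_mulVec]
    have h1 : ∀ b, (A *ᵥ (Sn θ A n *ᵥ z)) b ≤ 1 / (1 - θ) * z b := by
      intro b
      refine (mulVec_mono hA (Sn_exc hθ hθ1 hA hz hAz n) b).trans ?_
      have : (fun b => 1 / (1 - θ) * z b) = (1 / (1 - θ)) • z := rfl
      rw [this, Matrix.mulVec_smul, Pi.smul_apply, smul_eq_mul]
      exact mul_le_mul_of_nonneg_left (hAz b) (by positivity)
    refine (mulVec_mono hA h1 a).trans ?_
    have : (fun b => 1 / (1 - θ) * z b) = (1 / (1 - θ)) • z := rfl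
    rw [this, Matrix.mulVec_smul, Pi.smul_apply, smul_eq_mul]
    exact mul_le_mul_of_nonneg_left (hAz a) (by positivity)
  have e2 : z a + t * (1 / (1 - θ) * z a) = (1 + t / (1 - θ)) * z a := by ring
  nlinarith [mul_le_mul_of_nonneg_left e1 ht]

/-- the constant -/
noncomputable def nz (θ t1 t2 : ℝ) : ℝ := (1 + t2 / (1 - θ)) * (1 + t1 / (1 - θ))

theorem ZZ_exc (hθ : 0 ≤ θ) (hθ1 : θ < 1) (h1 : 0 ≤ t1) (h2 : 0 ≤ t2) (hA : MN A) {z : V → ℝ}
    (hz : ∀ a, 0 ≤ z a) (hAz : ∀ a, (A *ᵥ z) a ≤ z a) (n : ℕ) (a : V) :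
    ((Zn θ t2 A n * Zn θ t1 A n) *ᵥ z) a ≤ nz θ t1 t2 * z a := by
  have hpos : 0 < 1 - θ := by linarith
  rw [← Matrix.mulVec_mulVec]
  refine (mulVec_mono (Zn_nonneg hθ h2 hA n) (Zn_exc hθ hθ1 h1 hA hz hAz n) a).trans ?_
  have : (fun b => (1 + t1 / (1 - θ)) * z b) = (1 + t1 / (1 - θ)) • z := rfl
  rw [this, Matrix.mulVec_smul, Pi.smul_apply, smul_eq_mul]
  have hc : 0 ≤ 1 + t1 / (1 - θ) := by positivity
  have := mul_le_mul_of_nonneg_left (Zn_exc hθ hθ1 h2 hA hz hAz n a) hc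
  unfold nz
  nlinarith

end basic

end Pool.Agent.RCRSHalf
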